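import Pool.Agent.Helper32K9.QA.Stm

/-!
[A0], [A1] averages over the coefficient with index one
-/

set_option autoImplicit false

namespace Pool.Agent.Helper32K9.QA

open Finset Pool.Agent.Helper82K9.PR

namespace A0L

/-- averaging a function of `hh` over the coefficient with index one -/
lemma avg (hF : S_FUB) (hh1 : S_HIJ) {d H : ℕ} (hd : 2 ≤ d) (x y : ℕ) (G : ℤ → ℝ) (K : ℝ)
    (hG : ∀ v ∈ Bx d H, ∑ c ∈ Icc (-(H : ℤ)) H, G (c + (hh v x y - v ⟨1, by omega⟩)) ≤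
      K * (2 * H + 1)) :
    ∑ v ∈ Bx d H, G (hh v x y) ≤ K * (Bx d H).card := by
  set i : Fin (d + 1) := ⟨1, by omega⟩ with hi
  rw [hF d H i (fun v => G (hh v x y))]
  have h1 : ∀ v : Fin (d + 1) → ℤ, ∀ c : ℤ, hh (Function.update v i c) x y =
      c + (hh v x y - v i) := by
    intro v c
    rw [hh1.2.2.1 d v i rfl x y c]
    ring
  simp only [h1]
  have hN : (0 : ℝ) < 2 * H + 1 := by positivity
  rw [one_div, inv_mul_le_iff₀ hN]
  calc ∑ v ∈ Bx d H, ∑ c ∈ Icc (-(H : ℤ)) H, G (c + (hh v x y - v i)) ≤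
      ∑ v ∈ Bx d H, K * (2 * H + 1) := Finset.sum_le_sum hG
    _ = (2 * H + 1) * (K * (Bx d H).card) := by
      rw [Finset.sum_const, nsmul_eq_mul]
      ring

end A0L

open A0L in
theorem a0 : S_FUB → S_HIJ → S_A0 := by
  intro hF hJ d hd H t hinj
  classical
  have hN : (0 : ℝ) < 2 * H + 1 := by positivity
  have h1 : ∀ a b : Fin 3 ⊕ Fin 3,
      (((Bx d H).filter (fun v => hh v (t a) (t b) = 0)).card : ℝ) * (2 * H + 1) ≤
        (Bx d H).card := by
    intro a b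
    have h2 := avg (H := H) hF hJ hd (t a) (t b) (fun u => if u = 0 then 1 else 0)
      (1 / (2 * H + 1)) (fun v _ => ?_)
    · have h3 : (((Bx d H).filter (fun v => hh v (t a) (t b) = 0)).card : ℝ) =
          ∑ v ∈ Bx d H, (if hh v (t a) (t b) = 0 then 1 else 0) := by
        rw [Finset.card_filter]
        push_cast
        rfl
      rw [h3]
      calc _ ≤ (1 / (2 * (H : ℝ) + 1) * (Bx d H).card) * (2 * H + 1) :=
            mul_le_mul_of_nonneg_right h2 hN.le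
        _ = (Bx d H).card := by field_simp
    · rw [one_div, inv_mul_cancel₀ hN.ne', ← Finset.sum_filter, Finset.sum_const, nsmul_eq_mul,
        mul_one]
      have h4 : ((Icc (-(H : ℤ)) H).filter
          (fun c => c + (hh v (t a) (t b) - v ⟨1, by omega⟩) = 0)).card ≤ 1 := by
        rw [Finset.card_le_one]
        intro c hc c' hc'
        rw [mem_filter] at hc hc'
        linarith [hc.2, hc'.2]
      exact_mod_cast h4
  have h2 : ((Bx d H).filter (fun v => ¬ ∀ a b, a ≠ b → hh v (t a) (t b) ≠ 0)).card ≤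
      ∑ ab : (Fin 3 ⊕ Fin 3) × (Fin 3 ⊕ Fin 3),
        ((Bx d H).filter (fun v => hh v (t ab.1) (t ab.2) = 0)).card := by
    refine le_trans (Finset.card_le_card ?_) Finset.card_biUnion_le
    intro v hv
    rw [mem_filter] at hv
    obtain ⟨hv1, hv2⟩ := hv
    push Not at hv2
    obtain ⟨a, b, -, hab⟩ := hv2
    rw [mem_biUnion]
    exact ⟨(a, b), mem_univ _, mem_filter.2 ⟨hv1, hab⟩⟩
  have h3 : (((Bx d H).filter (fun v => ¬ ∀ a b, a ≠ b → hh v (t a) (t b) ≠ 0)).card : ℝ) ≤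
      ∑ ab : (Fin 3 ⊕ Fin 3) × (Fin 3 ⊕ Fin 3),
        (((Bx d H).filter (fun v => hh v (t ab.1) (t ab.2) = 0)).card : ℝ) := by
    exact_mod_cast h2
  calc _ ≤ (∑ ab : (Fin 3 ⊕ Fin 3) × (Fin 3 ⊕ Fin 3),
        (((Bx d H).filter (fun v => hh v (t ab.1) (t ab.2) = 0)).card : ℝ)) * (2 * H + 1) := by
        refine mul_le_mul_of_nonneg_right ?_ hN.le
        convert h3
    _ ≤ ∑ ab : (Fin 3 ⊕ Fin 3) × (Fin 3 ⊕ Fin 3), ((Bx d H).card : ℝ) := by
        rw [Finset.sum_mul]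
        exact Finset.sum_le_sum fun ab _ => h1 ab.1 ab.2
    _ = 36 * (Bx d H).card := by
        rw [Finset.sum_const, Finset.card_univ, nsmul_eq_mul]
        norm_num [Fintype.card_prod, Fintype.card_sum, Fintype.card_fin]

open A0L in
theorem a1 : S_FUB → S_HIJ → S_RTI → S_A1 := by
  intro hF hJ hR d B hd
  classical
  obtain ⟨C, hC, hC1⟩ := hR 30
  obtain ⟨H1, hH1⟩ := hJ.2.2.2 d B
  refine ⟨30 * C, by positivity, max H1 2, fun H hH t hinj ht => ?_⟩
  have hHH1 : H1 ≤ H := (le_max_left _ _).trans hH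
  have hH2 : 2 ≤ H := (le_max_right _ _).trans hH
  have hrt : ∀ D : ℕ, 0 ≤ rt D := fun D => by unfold rt; positivity
  -- one pair
  have h1 : ∀ a b : Fin 3 ⊕ Fin 3,
      ∑ v ∈ (Bx d H).filter (fun v => hh v (t a) (t b) ≠ 0),
        rt (hh v (t a) (t b)).natAbs ^ 30 ≤ C * (Bx d H).card := by
    intro a b
    have h2 := avg (H := H) hF hJ hd (t a) (t b)
      (fun u => if u ≠ 0 then rt u.natAbs ^ 30 else 0) C (fun v hv => ?_)
    · rw [Finset.sum_filter]
      exact h2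
    · rw [← Finset.sum_filter]
      refine hC1 H hH2 _ ?_
      have h3 := hH1 H hHH1 v hv (t a) (t b) (ht a) (ht b)
      have h4 : |v ⟨1, by omega⟩| ≤ (H : ℤ) := by
        unfold Bx at hv
        have h5 := Fintype.mem_piFinset.1 hv ⟨1, by omega⟩
        rw [mem_Icc] at h5
        exact abs_le.2 h5
      have h5 : (H : ℤ) ≤ (H : ℤ) ^ 2 := by
        have : (2 : ℤ) ≤ H := by exact_mod_cast hH2
        nlinarith
      calc |hh v (t a) (t b) - v ⟨1, by omega⟩| ≤ |hh v (t a) (t b)| + |v ⟨1, by omega⟩| :=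
            abs_sub _ _
        _ ≤ 2 * (H : ℤ) ^ 2 := by linarith
  set I : Finset (Σ _ : Fin 3 ⊕ Fin 3, Fin 3 ⊕ Fin 3) :=
    (univ : Finset (Fin 3 ⊕ Fin 3)).sigma (fun a => univ.erase a) with hI
  have hIc : I.card = 30 := by
    rw [hI, Finset.card_sigma]
    simp [Finset.card_erase_of_mem]
  have hmax : ∀ v : Fin (d + 1) → ℤ,
      ∏ a : Fin 3 ⊕ Fin 3, ∏ b ∈ univ.erase a, rt (hh v (t a) (t b)).natAbs ≤
        ∑ x ∈ I, rt (hh v (t x.1) (t x.2)).natAbs ^ 30 := by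
    intro v
    have e1 : ∏ a : Fin 3 ⊕ Fin 3, ∏ b ∈ univ.erase a, rt (hh v (t a) (t b)).natAbs =
        ∏ x ∈ I, rt (hh v (t x.1) (t x.2)).natAbs := by
      rw [hI, Finset.prod_sigma]
    rw [e1]
    have hne : I.Nonempty := by
      rw [← Finset.card_pos, hIc]
      norm_num
    obtain ⟨x0, hx0, hx1⟩ := Finset.exists_max_image I
      (fun x => rt (hh v (t x.1) (t x.2)).natAbs) hne
    calc ∏ x ∈ I, rt (hh v (t x.1) (t x.2)).natAbs ≤
        ∏ x ∈ I, rt (hh v (t x0.1) (t x0.2)).natAbs :=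
          Finset.prod_le_prod (fun x _ => hrt _) hx1
      _ = rt (hh v (t x0.1) (t x0.2)).natAbs ^ 30 := by rw [Finset.prod_const, hIc]
      _ ≤ _ := Finset.single_le_sum
          (f := fun x : (Σ _ : Fin 3 ⊕ Fin 3, Fin 3 ⊕ Fin 3) =>
            rt (hh v (t x.1) (t x.2)).natAbs ^ 30) (fun x _ => pow_nonneg (hrt _) _) hx0
  calc ∑ v ∈ (Bx d H).filter (fun v => ∀ a b, a ≠ b → hh v (t a) (t b) ≠ 0),
      ∏ a : Fin 3 ⊕ Fin 3, ∏ b ∈ univ.erase a, rt (hh v (t a) (t b)).natAbs ≤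
      ∑ v ∈ (Bx d H).filter (fun v => ∀ a b, a ≠ b → hh v (t a) (t b) ≠ 0),
        ∑ x ∈ I, rt (hh v (t x.1) (t x.2)).natAbs ^ 30 := by
        refine (Finset.sum_le_sum fun v _ => ?_)
        convert hmax v
    _ = ∑ x ∈ I, ∑ v ∈ (Bx d H).filter (fun v => ∀ a b, a ≠ b → hh v (t a) (t b) ≠ 0),
        rt (hh v (t x.1) (t x.2)).natAbs ^ 30 := Finset.sum_comm
    _ ≤ ∑ x ∈ I, C * (Bx d H).card := by
        refine Finset.sum_le_sum fun x hx => ?_
        refine le_trans ?_ (h1 x.1 x.2)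
        refine Finset.sum_le_sum_of_subset_of_nonneg ?_ fun v _ _ => pow_nonneg (hrt _) _
        intro v hv
        rw [mem_filter] at hv ⊢
        refine ⟨hv.1, hv.2 _ _ ?_⟩
        rw [hI, Finset.mem_sigma] at hx
        exact fun h => (Finset.mem_erase.1 hx.2).1 h.symm
    _ = 30 * C * (Bx d H).card := by
        rw [Finset.sum_const, hIc, nsmul_eq_mul]
        push_cast
        ring

end Pool.Agent.Helper32K9.QA
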