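import Pool.Agent.Helper32K9.QA.Stm

/-!
# coincidences
-/

set_option autoImplicit false

namespace Pool.Agent.Helper32K9.QA

open Finset Pool.Agent.Helper82K9.PR

namespace BadL

theorem pr_lt {i j : ℕ} (hi : 1 ≤ i) (h : i < j) : pr i < pr j := by
  unfold pr
  exact Nat.nth_strictMono Nat.infinite_setOfPred_prime (by omega)

theorem pr_inj {i j : ℕ} (hi : 1 ≤ i) (hj : 1 ≤ j) (h : pr i = pr j) : i = j := by
  rcases lt_trichotomy i j with h1 | h1 | h1
  · exact absurd h (pr_lt hi h1).ne
  · exact h1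
  · exact absurd h (pr_lt hj h1).ne'

theorem lt_pr {j : ℕ} (hj : 1 ≤ j) : j < pr j := by
  unfold pr
  have := Nat.add_two_le_nth_prime (j - 1)
  omega

theorem one_le_pr {j : ℕ} : 1 ≤ pr j := by
  unfold pr
  have := Nat.add_two_le_nth_prime (j - 1)
  omega

theorem mem_Ms {n m : ℕ} (h : m ∈ Ms n) : 1 ≤ m ∧ m < n ∧ 2 * m ≠ n ∧ m + pr m ≠ n := by
  unfold Ms at h
  rw [Finset.mem_filter, Finset.mem_Ico] at h
  tauto

theorem T_inj {n m : ℕ} (h : m ∈ Ms n) : Function.Injective (T n m) := by
  obtain ⟨h1, h2, h3, h4⟩ := mem_Ms h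
  have a1 : pr (n - m) ≠ pr m := fun h => by
    have := pr_inj (by omega) h1 h
    omega
  have a2 : pr (n - m) ≠ pr (pr m) := fun h => by
    have := pr_inj (by omega) one_le_pr h
    omega
  have a3 : pr m ≠ pr (pr m) := fun h => by
    have := pr_inj h1 one_le_pr h
    have := lt_pr h1
    omega
  intro i j hij
  unfold T at hij
  fin_cases i <;> fin_cases j
  · rfl
  · exact absurd hij a1
  · exact absurd hij a2
  · exact absurd hij.symm a1
  · rfl
  · exact absurd hij a3
  · exact absurd hij.symm a2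
  · exact absurd hij.symm a3
  · rfl

theorem T_inj2 {n m m' : ℕ} (h : m ∈ Ms n) (h' : m' ∈ Ms n) (j : Fin 3)
    (he : T n m j = T n m' j) : m = m' := by
  obtain ⟨h1, h2, h3, h4⟩ := mem_Ms h
  obtain ⟨h1', h2', h3', h4'⟩ := mem_Ms h'
  unfold T at he
  fin_cases j
  · have := pr_inj (i := n - m) (j := n - m') (by omega) (by omega) he
    omega
  · exact pr_inj h1 h1' he
  · exact pr_inj h1 h1' (pr_inj one_le_pr one_le_pr he)

theorem few {n m : ℕ} : ((Ms n).filter (fun m' => ¬ Good n m m')).card ≤ 9 := by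
  have h1 : (Ms n).filter (fun m' => ¬ Good n m m') ⊆
      (univ : Finset (Fin 3 × Fin 3)).biUnion
        (fun x => (Ms n).filter (fun m' => T n m x.1 = T n m' x.2)) := by
    intro m' hm'
    rw [Finset.mem_filter] at hm'
    obtain ⟨h2, h3⟩ := hm'
    unfold Good at h3
    push Not at h3
    obtain ⟨i, j, hij⟩ := h3
    rw [Finset.mem_biUnion]
    exact ⟨(i, j), Finset.mem_univ _, Finset.mem_filter.2 ⟨h2, hij⟩⟩
  refine (Finset.card_le_card h1).trans (Finset.card_biUnion_le.trans ?_)
  have h2 : ∀ x ∈ (univ : Finset (Fin 3 × Fin 3)),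
      ((Ms n).filter (fun m' => T n m x.1 = T n m' x.2)).card ≤ 1 := by
    intro x _
    rw [Finset.card_le_one]
    intro a ha b hb
    rw [Finset.mem_filter] at ha hb
    exact T_inj2 ha.1 hb.1 x.2 (ha.2.symm.trans hb.2)
  refine (Finset.sum_le_sum h2).trans ?_
  simp

theorem many {n : ℕ} (hn : 4 ≤ n) : (n : ℝ) / 4 ≤ (Ms n).card := by
  classical
  have h1 : Ico 1 n ⊆ Ms n ∪ ((Ico 1 n).filter (fun m => 2 * m = n) ∪
      (Ico 1 n).filter (fun m => m + pr m = n)) := by
    intro m hm
    unfold Ms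
    rw [Finset.mem_union, Finset.mem_union, Finset.mem_filter, Finset.mem_filter, Finset.mem_filter]
    tauto
  have h2 : ((Ico 1 n).filter (fun m => 2 * m = n)).card ≤ 1 := by
    rw [Finset.card_le_one]
    intro a ha b hb
    rw [Finset.mem_filter] at ha hb
    omega
  have h3 : ((Ico 1 n).filter (fun m => m + pr m = n)).card ≤ 1 := by
    rw [Finset.card_le_one]
    intro a ha b hb
    rw [Finset.mem_filter, Finset.mem_Ico] at ha hb
    rcases lt_trichotomy a b with h | h | h
    · have := pr_lt ha.1.1 h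
      omega
    · exact h
    · have := pr_lt hb.1.1 h
      omega
  have h4 := (Finset.card_le_card h1).trans ((Finset.card_union_le _ _).trans
    (Nat.add_le_add_left (Finset.card_union_le _ _) _))
  rw [Nat.card_Ico] at h4
  have h5 : n ≤ (Ms n).card + 3 := by omega
  have h6 : (n : ℝ) ≤ (Ms n).card + 3 := by exact_mod_cast h5
  have h7 : (4 : ℝ) ≤ n := by exact_mod_cast hn
  linarith

end BadL

open BadL in
theorem bad : S_BAD := by
  refine ⟨fun n m hm => ⟨T_inj hm, few⟩, fun n hn => many hn, fun n m m' hm hm' hg => ?_⟩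
  intro a b hab
  rcases a with i | i <;> rcases b with j | j
  · exact congrArg Sum.inl (T_inj hm hab)
  · exact absurd hab (hg i j)
  · exact absurd hab.symm (hg j i)
  · exact congrArg Sum.inr (T_inj hm' hab)

end Pool.Agent.Helper32K9.QA
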