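import Pool.Agent.Helper32K9.QA.Psz
import Pool.Agent.H692R2.USS.T1

/-!
# Brun - Titchmarsh for the first `n` primes
-/

set_option autoImplicit false

namespace Pool.Agent.Helper32K9.QA

open Finset

theorem pr_prime (n : ℕ) : (pr n).Prime := Nat.prime_nth_prime _

theorem pr_mono {a b : ℕ} (h : a ≤ b) : pr a ≤ pr b :=
  (Nat.nth_strictMono Nat.infinite_setOfPred_prime).monotone (Nat.sub_le_sub_right h 1)

theorem le_pr (n : ℕ) : n ≤ pr n := by
  have h1 : n - 1 ≤ pr n := (Nat.nth_strictMono Nat.infinite_setOfPred_prime).le_apply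
  rcases Nat.eq_or_lt_of_le h1 with h2 | h2
  · have h3 : Nat.nth Nat.Prime (n - 1) = n - 1 := h2.symm
    have h4 : Nat.primeCounting' (Nat.nth Nat.Prime (n - 1)) = n - 1 := Nat.primeCounting'_nth_eq (n - 1)
    rw [h3] at h4
    unfold Nat.primeCounting' at h4
    have h5 : Nat.count Nat.Prime 1 = 0 := by decide
    have h6 : ∀ m : ℕ, 1 ≤ m → Nat.count Nat.Prime m < m := by
      intro m hm
      induction m, hm using Nat.le_induction with
      | base => rw [h5]; norm_num
      | succ m hm ih =>
        rw [Nat.count_succ]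
        split_ifs <;> omega
    rcases Nat.eq_zero_or_pos (n - 1) with h7 | h7
    · have := (pr_prime n).two_le
      omega
    · have := h6 _ h7
      omega
  · omega

theorem pr_inj {a b : ℕ} (ha : 1 ≤ a) (hb : 1 ≤ b) (h : pr a = pr b) : a = b := by
  have := (Nat.nth_strictMono Nat.infinite_setOfPred_prime).injective h
  omega

theorem bt : S_BT := by
  refine ⟨9680, by norm_num, fun n u hu hun y => ?_⟩
  have hphi : (0 : ℝ) < Nat.totient u := by exact_mod_cast Nat.totient_pos.2 hu
  have hn1 : 1 ≤ n := le_trans (Nat.mul_pos hu hu) hun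
  rcases Nat.lt_or_ge n 2 with hn2 | hn2
  · have hn : n = 1 := by omega
    have hu1 : u = 1 := by
      have := Nat.le_mul_of_pos_left u hu
      omega
    subst hn hu1
    have h1 : (((Icc 1 1).filter (fun k => ((1 : ℕ) : ℤ) ∣ (pr k : ℤ) - y)).card : ℝ) ≤ 1 := by
      exact_mod_cast (card_filter_le _ _).trans (by simp)
    refine h1.trans ?_
    norm_num
  · set x := pr n with hx
    set a : ℕ := (y % (u : ℤ)).toNat with ha
    have hu0 : (0 : ℤ) < u := by exact_mod_cast hu
    have ha0 : (a : ℤ) = y % u := Int.toNat_of_nonneg (Int.emod_nonneg _ hu0.ne')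
    have hau : a < u := by
      have : (a : ℤ) < u := by rw [ha0]; exact Int.emod_lt_of_pos _ hu0
      exact_mod_cast this
    set N : ℕ := x / u + 1 with hN
    have hxn : n ≤ x := le_pr n
    have hux : u ≤ x := (Nat.le_mul_of_pos_left u hu).trans (hun.trans hxn)
    have hN2 : 2 ≤ N := by
      have := Nat.div_pos hux hu
      omega
    have h1 : ((Icc 1 n).filter (fun k => (u : ℤ) ∣ (pr k : ℤ) - y)).card ≤
        ((Finset.range N).filter (fun k => (a + k * u).Prime)).card := by
      have key : ∀ k ∈ (Icc 1 n).filter (fun k => (u : ℤ) ∣ (pr k : ℤ) - y), a + pr k / u * u = pr k := by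
        intro k hk
        rw [mem_filter, mem_Icc] at hk
        have h2 : (a : ℤ) = (pr k : ℤ) % u := by
          rw [ha0]
          exact Int.ModEq.eq ((Int.modEq_iff_dvd (a := y) (b := (pr k : ℤ)) (n := (u : ℤ))).2 hk.2)
        have h3 : a = pr k % u := by exact_mod_cast h2
        rw [h3]
        exact Nat.mod_add_div' _ _
      apply Finset.card_le_card_of_injOn (fun k => pr k / u)
      · intro k hk
        have hk' := key k hk
        have hk2 := (mem_Icc.1 (mem_filter.1 (Finset.mem_coe.1 hk)).1)
        simp only [Finset.coe_filter, Set.mem_ofPred_eq, mem_range]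
        refine ⟨?_, ?_⟩
        · have : pr k / u ≤ x / u := Nat.div_le_div_right (pr_mono hk2.2)
          omega
        · rw [hk']
          exact pr_prime k
      · intro k hk l hl hkl
        simp only at hkl
        have hk' := key k hk
        have hl' := key l hl
        rw [← hkl] at hl'
        have hk2 := (mem_Icc.1 (mem_filter.1 (Finset.mem_coe.1 hk)).1)
        have hl2 := (mem_Icc.1 (mem_filter.1 (Finset.mem_coe.1 hl)).1)
        exact pr_inj hk2.1 hl2.1 (hk'.symm.trans hl')
    have h2 := Pool.Agent.H692R2.USS.t1_brun_titchmarsh a u N hN2 hu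
    have h3 : (((Icc 1 n).filter (fun k => (u : ℤ) ∣ (pr k : ℤ) - y)).card : ℝ) ≤
        22 * ((u : ℝ) / Nat.totient u) * N / Real.log N := le_trans (by exact_mod_cast h1) h2
    refine h3.trans ?_
    have hur : (0 : ℝ) < u := by exact_mod_cast hu
    have hnr : (2 : ℝ) ≤ n := by exact_mod_cast hn2
    have hln : 0 < Real.log n := Real.log_pos (by linarith)
    have hNn : (n : ℝ) ≤ (N : ℝ) ^ 2 := by
      have h4 : x < N * u := by
        rw [hN, add_mul, one_mul]
        have := Nat.div_add_mod x u
        have h5 := Nat.mod_lt x hu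
        nlinarith
      have h5 : u ≤ N := by
        by_contra h6
        have h7 : N * u ≤ u * u := Nat.mul_le_mul_right _ (by omega)
        omega
      have h6 : n ≤ N * N := by
        calc n ≤ N * u := by omega
          _ ≤ N * N := Nat.mul_le_mul_left _ h5
      rw [sq]
      exact_mod_cast h6
    have hlN : Real.log n / 2 ≤ Real.log N := by
      have h4 := Real.log_le_log (by linarith) hNn
      rw [Real.log_pow] at h4
      push_cast at h4
      linarith
    have hNx : (N : ℝ) ≤ 2 * x / u := by
      rw [le_div_iff₀ hur]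
      have h4 : N * u ≤ 2 * x := by
        rw [hN, add_mul, one_mul]
        have := Nat.div_mul_le_self x u
        omega
      exact_mod_cast h4
    have hxl : (x : ℝ) ≤ 110 * n * Real.log n := pr_le_mul_log n hn2
    calc 22 * ((u : ℝ) / Nat.totient u) * N / Real.log N
        ≤ 22 * ((u : ℝ) / Nat.totient u) * (2 * x / u) / (Real.log n / 2) := by gcongr
      _ = 88 * x / Nat.totient u / Real.log n := by
        field_simp
        ring
      _ ≤ 88 * (110 * n * Real.log n) / Nat.totient u / Real.log n := by gcongr
      _ = 9680 * n / Nat.totient u := by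
        field_simp
        ring

end Pool.Agent.Helper32K9.QA
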