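import Pool.Agent.Helper32K9.QA.Stm

/-!
# the cross sum
-/

set_option autoImplicit false

namespace Pool.Agent.Helper32K9.QA

open Finset Pool.Agent.Helper82K9.PR

namespace CrsL

theorem prod_le_sum {α : Type} (S : Finset α) (hS : S.Nonempty) (r : α → ℝ)
    (hr : ∀ x ∈ S, 0 ≤ r x) : ∏ x ∈ S, r x ≤ ∑ x ∈ S, r x ^ S.card := by
  obtain ⟨x0, hx0, hmax⟩ := Finset.exists_max_image S r hS
  calc ∏ x ∈ S, r x ≤ ∏ _x ∈ S, r x0 := Finset.prod_le_prod hr hmax
    _ = r x0 ^ S.card := by rw [Finset.prod_const]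
    _ ≤ ∑ x ∈ S, r x ^ S.card :=
      Finset.single_le_sum (f := fun x => r x ^ S.card) (fun x hx => pow_nonneg (hr x hx) _) hx0

theorem rt_nn (D : ℕ) : 0 ≤ rt D := by
  unfold rt
  positivity

theorem dd_comm (a b : ℤ) : dd a b = dd b a := by
  unfold dd
  omega

theorem mem_Ms' {n m : ℕ} (h : m ∈ Ms n) : 1 ≤ m ∧ m < n := by
  unfold Ms at h
  rw [Finset.mem_filter, Finset.mem_Ico] at h
  tauto

/-- the sum over one of the first two points -/
theorem line {k E : ℕ} {C : ℝ} {n : ℕ} (h : ∀ y : ℕ, y ≤ n ^ E →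
    ∑ j ∈ (Icc 1 n).filter (fun j => pr j ≠ y), rt (dd (pr j) y) ^ k ≤ C * n)
    (i : Fin 3) (hi : i ≠ 2) (y : ℕ) (hy : y ≤ n ^ E) :
    ∑ m ∈ (Ms n).filter (fun m => T n m i ≠ y), rt (dd (T n m i) y) ^ k ≤ C * n := by
  classical
  refine le_trans ?_ (h y hy)
  obtain ⟨φ, hφ1, hφ2, hφ3⟩ : ∃ φ : ℕ → ℕ, (∀ m ∈ Ms n, φ m ∈ Icc 1 n) ∧
      (∀ m ∈ Ms n, ∀ m' ∈ Ms n, φ m = φ m' → m = m') ∧ ∀ m, T n m i = pr (φ m) := by
    fin_cases i
    · refine ⟨fun m => n - m, fun m hm => ?_, fun m hm m' hm' h => ?_, fun m => rfl⟩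
      · have := mem_Ms' hm
        show n - m ∈ Icc 1 n
        rw [Finset.mem_Icc]
        omega
      · have := mem_Ms' hm
        have := mem_Ms' hm'
        simp only at h
        omega
    · refine ⟨fun m => m, fun m hm => ?_, fun m hm m' hm' h => h, fun m => rfl⟩
      have := mem_Ms' hm
      show m ∈ Icc 1 n
      rw [Finset.mem_Icc]
      omega
    · exact absurd rfl hi
  have h1 : ∑ m ∈ (Ms n).filter (fun m => T n m i ≠ y), rt (dd (T n m i) y) ^ k =
      ∑ j ∈ ((Ms n).filter (fun m => T n m i ≠ y)).image φ, rt (dd (pr j) y) ^ k := by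
    rw [Finset.sum_image]
    · refine Finset.sum_congr rfl fun m _ => ?_
      rw [hφ3]
    · intro a ha b hb hab
      exact hφ2 a (Finset.mem_filter.1 ha).1 b (Finset.mem_filter.1 hb).1 hab
  rw [h1]
  refine Finset.sum_le_sum_of_subset_of_nonneg ?_ fun j _ _ => pow_nonneg (rt_nn _) _
  intro j hj
  obtain ⟨m, hm, rfl⟩ := Finset.mem_image.1 hj
  rw [Finset.mem_filter] at hm ⊢
  exact ⟨hφ1 m hm.1, by rw [← hφ3]; exact hm.2⟩

end CrsL

open CrsL in
theorem crs : S_RTP → S_RTL → S_PSZ → S_CRS := by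
  intro hRTP hRTL hPSZ B
  classical
  obtain ⟨E, hE⟩ := hPSZ
  obtain ⟨C1, hC1, h1⟩ := hRTP 8 E
  obtain ⟨C2, hC2, H1, h2⟩ := hRTL (B * E)
  refine ⟨C2 * (8 * C1), by positivity, max H1 3, ?_⟩
  intro H hH n hn hnH
  have g2 := h2 H ((le_max_left _ _).trans hH)
  have hH3 : 3 ≤ H := (le_max_right _ _).trans hH
  have hlog : 1 ≤ Real.log H := by
    rw [Real.le_log_iff_exp_le (by positivity)]
    have h3 : (3 : ℝ) ≤ H := by exact_mod_cast hH3
    exact (Real.exp_one_lt_d9.le.trans (by norm_num)).trans h3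
  set l3 := Real.log (Real.log (Real.log H)) with hl3
  have hmono : ∀ {i j : ℕ}, i ≤ j → pr i ≤ pr j := by
    intro i j h
    unfold pr
    exact Nat.nth_monotone Nat.infinite_setOfPred_prime (by omega)
  have hge : ∀ j : ℕ, j ≤ pr j := by
    intro j
    unfold pr
    have := Nat.add_two_le_nth_prime (j - 1)
    omega
  have hT : ∀ m ∈ Ms n, ∀ a, T n m a ≤ n ^ E := by
    intro m hm a
    have hm' := mem_Ms' hm
    refine le_trans ?_ (hE n (by omega))
    have h1 : pr n ≤ pr (pr n) := hmono (hge n)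
    have h2 : pr (n - m) ≤ pr n := hmono (by omega)
    have h3 : pr m ≤ pr n := hmono (by omega)
    have h4 : pr (pr m) ≤ pr (pr n) := hmono h3
    unfold T
    fin_cases a
    · exact h2.trans h1
    · exact h3.trans h1
    · exact h4
  have hl3p : 0 ≤ C2 * l3 := by
    have h3 := g2 1 le_rfl (by
      push_cast
      exact one_le_pow₀ hlog)
    exact (rt_nn 1).trans h3
  set S : Finset (Fin 3 × Fin 3) := univ.erase (2, 2) with hS
  have hSc : S.card = 8 := by
    rw [hS, Finset.card_erase_of_mem (Finset.mem_univ _), Finset.card_univ]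
    simp
  have hSn : S.Nonempty := by
    rw [← Finset.card_pos, hSc]
    norm_num
  have hdd : ∀ m ∈ Ms n, ∀ m' ∈ Ms n, Good n m m' → ∀ x : Fin 3 × Fin 3,
      1 ≤ dd (T n m x.1) (T n m' x.2) ∧ dd (T n m x.1) (T n m' x.2) ≤ n ^ E := by
    intro m hm m' hm' hg x
    have e1 := hT m hm x.1
    have e2 := hT m' hm' x.2
    have e3 := hg x.1 x.2
    unfold dd
    omega
  have hX : ∀ m ∈ Ms n, ∀ m' ∈ (Ms n).filter (fun m' => Good n m m'),
      X9 (T n m) (T n m') ≤ C2 * l3 * ∑ x ∈ S, rt (dd (T n m x.1) (T n m' x.2)) ^ 8 := by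
    intro m hm m' hm'
    rw [Finset.mem_filter] at hm'
    have e0 := hdd m hm m' hm'.1 hm'.2
    have e1 : X9 (T n m) (T n m') = rt (dd (T n m 2) (T n m' 2)) *
        ∏ x ∈ S, rt (dd (T n m x.1) (T n m' x.2)) := by
      unfold X9
      rw [← Finset.prod_product', Finset.univ_product_univ,
        ← Finset.mul_prod_erase _ _ (Finset.mem_univ ((2, 2) : Fin 3 × Fin 3))]
    rw [e1]
    have e2 : rt (dd (T n m 2) (T n m' 2)) ≤ C2 * l3 := by
      refine g2 _ (e0 (2, 2)).1 ?_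
      have e3 : ((dd (T n m 2) (T n m' 2) : ℕ) : ℝ) ≤ (n : ℝ) ^ E := by exact_mod_cast (e0 (2, 2)).2
      refine e3.trans ?_
      rw [pow_mul]
      exact pow_le_pow_left₀ (Nat.cast_nonneg _) hnH _
    have e3 := prod_le_sum S hSn (fun x => rt (dd (T n m x.1) (T n m' x.2))) fun x _ => rt_nn _
    rw [hSc] at e3
    exact mul_le_mul e2 e3 (Finset.prod_nonneg fun x _ => rt_nn _) hl3p
  have hx : ∀ x ∈ S, ∑ m ∈ Ms n, ∑ m' ∈ (Ms n).filter (fun m' => Good n m m'),
      rt (dd (T n m x.1) (T n m' x.2)) ^ 8 ≤ n * (C1 * n) := by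
    rintro ⟨i, j⟩ hx
    have hMc : ((Ms n).card : ℝ) ≤ n := by
      have : (Ms n).card ≤ n := by
        unfold Ms
        refine (Finset.card_filter_le _ _).trans ?_
        rw [Nat.card_Ico]
        omega
      exact_mod_cast this
    by_cases hj : j = 2
    · have hi : i ≠ 2 := by
        rintro rfl
        subst hj
        simp [hS] at hx
      have hsw : ∑ m ∈ Ms n, ∑ m' ∈ (Ms n).filter (fun m' => Good n m m'),
          rt (dd (T n m i) (T n m' j)) ^ 8 =
          ∑ m' ∈ Ms n, ∑ m ∈ (Ms n).filter (fun m => Good n m m'),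
          rt (dd (T n m i) (T n m' j)) ^ 8 := by
        simp only [Finset.sum_filter]
        rw [Finset.sum_comm]
      rw [hsw]
      refine (Finset.sum_le_sum (g := fun _ => C1 * n) fun m' hm' => ?_).trans ?_
      · refine le_trans ?_ (line (h1 n (by omega)) i hi (T n m' j) (hT m' hm' j))
        refine Finset.sum_le_sum_of_subset_of_nonneg ?_ fun _ _ _ => pow_nonneg (rt_nn _) _
        intro m hm
        rw [Finset.mem_filter] at hm ⊢
        exact ⟨hm.1, hm.2 i j⟩
      · rw [Finset.sum_const, nsmul_eq_mul]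
        exact mul_le_mul_of_nonneg_right hMc (by positivity)
    · refine (Finset.sum_le_sum (g := fun _ => C1 * n) fun m hm => ?_).trans ?_
      · refine le_trans ?_ (line (h1 n (by omega)) j hj (T n m i) (hT m hm i))
        refine le_trans (le_of_eq (Finset.sum_congr rfl fun m' _ => ?_))
          (Finset.sum_le_sum_of_subset_of_nonneg ?_ fun _ _ _ => pow_nonneg (rt_nn _) _)
        · rw [dd_comm]
        · intro m' hm'
          rw [Finset.mem_filter] at hm' ⊢
          exact ⟨hm'.1, (hm'.2 i j).symm⟩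
      · rw [Finset.sum_const, nsmul_eq_mul]
        exact mul_le_mul_of_nonneg_right hMc (by positivity)
  calc ∑ m ∈ Ms n, ∑ m' ∈ (Ms n).filter (fun m' => Good n m m'), X9 (T n m) (T n m') ≤
      ∑ m ∈ Ms n, ∑ m' ∈ (Ms n).filter (fun m' => Good n m m'),
        C2 * l3 * ∑ x ∈ S, rt (dd (T n m x.1) (T n m' x.2)) ^ 8 :=
        Finset.sum_le_sum fun m hm => Finset.sum_le_sum fun m' hm' => hX m hm m' hm'
    _ = C2 * l3 * ∑ x ∈ S, ∑ m ∈ Ms n, ∑ m' ∈ (Ms n).filter (fun m' => Good n m m'),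
        rt (dd (T n m x.1) (T n m' x.2)) ^ 8 := by
        have e1 : ∀ m, ∑ m' ∈ (Ms n).filter (fun m' => Good n m m'),
            C2 * l3 * ∑ x ∈ S, rt (dd (T n m x.1) (T n m' x.2)) ^ 8 =
            C2 * l3 * ∑ x ∈ S, ∑ m' ∈ (Ms n).filter (fun m' => Good n m m'),
              rt (dd (T n m x.1) (T n m' x.2)) ^ 8 := by
          intro m
          rw [← Finset.mul_sum, Finset.sum_comm]
        rw [Finset.sum_congr rfl fun m _ => e1 m, ← Finset.mul_sum, Finset.sum_comm]
    _ ≤ C2 * l3 * ∑ _x ∈ S, (n * (C1 * n)) :=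
        mul_le_mul_of_nonneg_left (Finset.sum_le_sum hx) hl3p
    _ = C2 * (8 * C1) * (n : ℝ) ^ 2 * l3 := by
        rw [Finset.sum_const, hSc, nsmul_eq_mul]
        push_cast
        ring

end Pool.Agent.Helper32K9.QA
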