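import Pool.Agent.Helper32K9.QA.SmL

/-!
# The theorem from the first and the second moment
-/

set_option autoImplicit false

namespace Pool.Agent.Helper32K9.QA

open Finset Filter Pool.Agent.Helper82K9.PR Pool.Agent.Helper32K9.QA.SmL

/-- many elements with a large value -/
lemma second_moment {V : Type} (S : Finset V) (F : V → ℝ) (hF : ∀ v ∈ S, 0 ≤ F v) (a Q : ℝ) (ha : 0 < a) (hQ : 0 < Q)
    (h1 : 2 * a * S.card ≤ ∑ v ∈ S, F v) (h2 : ∑ v ∈ S, F v ^ 2 ≤ S.card * Q) :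
    a ^ 2 / Q * S.card ≤ ((S.filter (fun v => a ≤ F v)).card : ℝ) := by
  classical
  set G := S.filter (fun v => a ≤ F v) with hG
  have hS0 : (0 : ℝ) ≤ S.card := Nat.cast_nonneg _
  -- the small values
  have h3 : ∑ v ∈ S, F v = ∑ v ∈ G, F v + ∑ v ∈ S.filter (fun v => ¬ a ≤ F v), F v :=
    (sum_filter_add_sum_filter_not S (fun v => a ≤ F v) F).symm
  have h4 : ∑ v ∈ S.filter (fun v => ¬ a ≤ F v), F v ≤ a * S.card := by
    calc ∑ v ∈ S.filter (fun v => ¬ a ≤ F v), F v ≤ ∑ v ∈ S.filter (fun v => ¬ a ≤ F v), a := by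
          apply sum_le_sum
          intro v hv
          exact (not_le.1 (mem_filter.1 hv).2).le
      _ = ((S.filter (fun v => ¬ a ≤ F v)).card : ℝ) * a := by rw [sum_const, nsmul_eq_mul]
      _ ≤ S.card * a := by
          apply mul_le_mul_of_nonneg_right _ ha.le
          exact_mod_cast card_filter_le _ _
      _ = a * S.card := by ring
  have h5 : a * S.card ≤ ∑ v ∈ G, F v := by linarith
  have h6 : (∑ v ∈ G, F v) ^ 2 ≤ G.card * ∑ v ∈ G, F v ^ 2 := by
    have := sq_sum_le_card_mul_sum_sq (s := G) (f := F)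
    exact this
  have h7 : ∑ v ∈ G, F v ^ 2 ≤ S.card * Q :=
    (sum_le_sum_of_subset_of_nonneg (filter_subset _ _) (fun v _ _ => sq_nonneg _)).trans h2
  rcases hS0.eq_or_lt with h0 | h0
  · rw [← h0, mul_zero]
    positivity
  · have h8 : (a * S.card) ^ 2 ≤ G.card * (S.card * Q) := by
      calc (a * S.card) ^ 2 ≤ (∑ v ∈ G, F v) ^ 2 := pow_le_pow_left₀ (by positivity) h5 2
        _ ≤ G.card * ∑ v ∈ G, F v ^ 2 := h6
        _ ≤ G.card * (S.card * Q) := mul_le_mul_of_nonneg_left h7 (by positivity)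
    rw [div_mul_eq_mul_div, div_le_iff₀ hQ]
    have h9 : a ^ 2 * (S.card : ℝ) * S.card ≤ (G.card * Q) * S.card := by nlinarith
    exact le_of_mul_le_mul_right h9 h0

theorem fin_ : S_FM → S_SM → S_BAD → S_PSZ → S_FIN := by
  intro hFM hSM hBAD hPSZ d B hd
  obtain ⟨E, hE⟩ := hPSZ
  obtain ⟨H1, hFM⟩ := hFM d (B * E) hd
  obtain ⟨C, hC, H2, hS⟩ := hSM d B hd
  have hlog : Tendsto (fun n : ℕ => Real.log n) atTop atTop := Real.tendsto_log_atTop.comp tendsto_natCast_atTop_atTop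
  have hlll : Tendsto (fun n : ℕ => Real.log (Real.log (Real.log n))) atTop atTop :=
    Real.tendsto_log_atTop.comp (Real.tendsto_log_atTop.comp hlog)
  obtain ⟨H4, h4⟩ := ((hlll.eventually_ge_atTop 1).and (hlog.eventually_ge_atTop 1)).exists_forall_of_atTop
  refine ⟨min (1 / 16) (1 / (512 * C)), by positivity, max H1 (max H2 H4), fun H hH n hn hnB => ?_⟩
  have g1 : H1 ≤ H := (le_max_left _ _).trans hH
  have g2 : H2 ≤ H := (le_max_left _ _).trans ((le_max_right _ _).trans hH)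
  have g4 : H4 ≤ H := (le_max_right _ _).trans ((le_max_right _ _).trans hH)
  obtain ⟨h5, h6⟩ := h4 H g4
  obtain ⟨hB1, hB2, hB3⟩ := hBAD
  have hEn := hE n (by omega)
  have hM := hB2 n hn
  have hS' := hS H g2 n hn hnB
  set L := Real.log H with hL
  have hL0 : 0 < L := by linarith
  set ll := Real.log (Real.log L) with hll
  have hll0 : 0 < ll := by linarith
  set w : ℕ → ℝ := fun m => (SG (ip (T n m)))⁻¹ with hw
  have hw0 : ∀ m, 0 < w m := fun m => inv_pos.2 (lt_of_lt_of_le one_pos (one_le_SG _))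
  have hw1 : ∀ m, w m ≤ 1 := fun m => inv_le_one_of_one_le₀ (one_le_SG _)
  have hwS : ∀ m, w m * SG (ip (T n m)) = 1 := fun m => inv_mul_cancel₀ (lt_of_lt_of_le one_pos (one_le_SG _)).ne'
  have hnr : (4 : ℝ) ≤ n := by exact_mod_cast hn
  -- the first moment
  have hfirst : 2 * ((n : ℝ) / 16) * (Bx d H).card ≤ ∑ v ∈ Bx d H, ∑ m ∈ Ms n, w m * F3 L (T n m) v := by
    rw [sum_comm]
    have : ∀ m ∈ Ms n, (1 / 2 : ℝ) * (Bx d H).card ≤ ∑ v ∈ Bx d H, w m * F3 L (T n m) v := by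
      intro m hm
      have h7 := (hFM H g1 (T n m) (hB1 n m hm).1 (fun a => T_log hEn hnB hm a)).1
      rw [← mul_sum]
      calc (1 / 2 : ℝ) * (Bx d H).card = (w m * SG (ip (T n m))) * ((1 / 2) * (Bx d H).card) := by rw [hwS, one_mul]
        _ = w m * (1 / 2 * SG (ip (T n m)) * (Bx d H).card) := by ring
        _ ≤ w m * ∑ v ∈ Bx d H, F3 L (T n m) v := mul_le_mul_of_nonneg_left h7 (hw0 m).le
    calc 2 * ((n : ℝ) / 16) * (Bx d H).card = ((n : ℝ) / 4) * (1 / 2 * (Bx d H).card) := by ring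
      _ ≤ ((Ms n).card : ℝ) * (1 / 2 * (Bx d H).card) := by
          apply mul_le_mul_of_nonneg_right hM (by positivity)
      _ = ∑ _m ∈ Ms n, (1 / 2 : ℝ) * (Bx d H).card := by rw [sum_const, nsmul_eq_mul]
      _ ≤ _ := sum_le_sum this
  have hQ0 : 0 < C * ((n : ℝ) ^ 2 * ll + n * L ^ 3) := by positivity
  have hmain := second_moment (Bx d H) (fun v => ∑ m ∈ Ms n, w m * F3 L (T n m) v)
    (fun v _ => sum_nonneg fun m _ => mul_nonneg (hw0 m).le (F3_nonneg hL0.le _ _)) ((n : ℝ) / 16)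
    (C * ((n : ℝ) ^ 2 * ll + n * L ^ 3)) (by positivity) hQ0 hfirst (by
      refine hS'.trans (le_of_eq ?_)
      ring)
  -- the proportion
  have hprop : min (1 / 16) (1 / (512 * C)) * min (n / L ^ 3) (1 / ll) ≤
      ((n : ℝ) / 16) ^ 2 / (C * ((n : ℝ) ^ 2 * ll + n * L ^ 3)) := by
    have hmn : 0 ≤ min (n / L ^ 3) (1 / ll) := le_min (by positivity) (by positivity)
    have a1 : min (1 / 16) (1 / (512 * C)) * min (n / L ^ 3) (1 / ll) ≤ 1 / (512 * C) * min (n / L ^ 3) (1 / ll) :=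
      mul_le_mul_of_nonneg_right (min_le_right _ _) hmn
    refine a1.trans ?_
    rw [le_div_iff₀ hQ0]
    have a2 : min (n / L ^ 3) (1 / ll) * ((n : ℝ) ^ 2 * ll) ≤ (n : ℝ) ^ 2 := by
      calc min (n / L ^ 3) (1 / ll) * ((n : ℝ) ^ 2 * ll) ≤ (1 / ll) * ((n : ℝ) ^ 2 * ll) :=
            mul_le_mul_of_nonneg_right (min_le_right _ _) (by positivity)
        _ = (n : ℝ) ^ 2 := by field_simp
    have a3 : min (n / L ^ 3) (1 / ll) * (n * L ^ 3) ≤ (n : ℝ) ^ 2 := by
      calc min (n / L ^ 3) (1 / ll) * (n * L ^ 3) ≤ (n / L ^ 3) * (n * L ^ 3) :=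
            mul_le_mul_of_nonneg_right (min_le_left _ _) (by positivity)
        _ = (n : ℝ) ^ 2 := by field_simp
    calc 1 / (512 * C) * min (n / L ^ 3) (1 / ll) * (C * ((n : ℝ) ^ 2 * ll + n * L ^ 3))
        = (1 / 512) * (min (n / L ^ 3) (1 / ll) * ((n : ℝ) ^ 2 * ll) + min (n / L ^ 3) (1 / ll) * (n * L ^ 3)) := by
          field_simp
      _ ≤ (1 / 512) * ((n : ℝ) ^ 2 + (n : ℝ) ^ 2) := by linarith
      _ = ((n : ℝ) / 16) ^ 2 := by ring
  refine (mul_le_mul_of_nonneg_right hprop (Nat.cast_nonneg _)).trans (hmain.trans ?_)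
  norm_cast
  apply card_le_card
  intro v hv
  rw [mem_filter] at hv ⊢
  refine ⟨hv.1, ?_⟩
  have hv2 := hv.2
  have hle : ∑ m ∈ Ms n, w m * F3 L (T n m) v ≤
      L ^ 3 * (((Ico 1 n).filter (fun m => ∀ i, (pv v (T n m i)).natAbs.Prime)).card : ℝ) := by
    calc ∑ m ∈ Ms n, w m * F3 L (T n m) v ≤ ∑ m ∈ Ico 1 n, F3 L (T n m) v := by
          refine le_trans (sum_le_sum fun m _ => ?_) (sum_le_sum_of_subset_of_nonneg (filter_subset _ _)
            (fun m _ _ => F3_nonneg hL0.le _ _))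
          calc w m * F3 L (T n m) v ≤ 1 * F3 L (T n m) v :=
                mul_le_mul_of_nonneg_right (hw1 m) (F3_nonneg hL0.le _ _)
            _ = F3 L (T n m) v := one_mul _
      _ = ∑ m ∈ Ico 1 n, (if (∀ i, (pv v (T n m i)).natAbs.Prime) then L ^ 3 else 0) :=
          sum_congr rfl fun m _ => F3_eq L _ v
      _ = L ^ 3 * (((Ico 1 n).filter (fun m => ∀ i, (pv v (T n m i)).natAbs.Prime)).card : ℝ) := by
          rw [← sum_filter, sum_const, nsmul_eq_mul, mul_comm]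
  have hge : (n : ℝ) / 16 ≤ L ^ 3 * (((Ico 1 n).filter (fun m => ∀ i, (pv v (T n m i)).natAbs.Prime)).card : ℝ) :=
    hv2.trans hle
  have hL3 : 0 < L ^ 3 := by positivity
  constructor
  · rw [div_le_iff₀ hL3]
    calc min (1 / 16) (1 / (512 * C)) * (n : ℝ) ≤ (1 / 16) * n :=
          mul_le_mul_of_nonneg_right (min_le_left _ _) (by positivity)
      _ = (n : ℝ) / 16 := by ring
      _ ≤ _ := hge
      _ = _ := by ring
  · by_contra hcon
    have h0 : ((Ico 1 n).filter (fun m => ∀ i, (pv v (T n m i)).natAbs.Prime)).card = 0 := by omega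
    rw [h0] at hge
    simp only [Nat.cast_zero, mul_zero] at hge
    linarith

end Pool.Agent.Helper32K9.QA
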