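import Pool.Agent.Helper32K9.QA.Stm

/-!
[FM] the first moment
-/

set_option autoImplicit false

namespace Pool.Agent.Helper32K9.QA

open Finset Pool.Agent.Helper82K9.PR

namespace FmL

lemma one_le_SG {ι : Type} [Fintype ι] (u : ι → ℤ) : 1 ≤ SG u := by
  unfold SG
  refine Finset.prod_induction _ (fun x : ℝ => 1 ≤ x) (fun a b ha hb => ?_) le_rfl fun p hp => ?_
  · exact one_le_mul_of_one_le_of_one_le ha hb
  · have h1 := (Nat.prime_of_mem_primeFactors hp).two_le
    have h2 : (2 : ℝ) ≤ p := by exact_mod_cast h1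
    have h3 : (0 : ℝ) < 1 - 1 / (p : ℝ) := by
      rw [sub_pos, div_lt_one (by linarith)]
      linarith
    have h4 : 1 - 1 / (p : ℝ) ≤ 1 := by
      have : (0 : ℝ) ≤ 1 / (p : ℝ) := by positivity
      linarith
    exact one_le_pow₀ ((one_le_inv₀ h3).2 h4)

lemma log_large (M : ℝ) : ∃ H₀ : ℕ, ∀ H : ℕ, H₀ ≤ H → M ≤ Real.log H := by
  have h := Real.tendsto_log_atTop.comp tendsto_natCast_atTop_atTop
  exact Filter.eventually_atTop.1 (h.eventually_ge_atTop M)

end FmL

open FmL in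
theorem fm : S_PBE → S_FM := by
  intro hP d B hd
  obtain ⟨H1, h1⟩ := hP d B hd
  obtain ⟨H2, -, h2⟩ := multi d B 1 1 (1 / 20) (by norm_num) (by norm_num)
  obtain ⟨H3, h3⟩ := log_large 700
  refine ⟨max H1 (max H2 H3), fun H hH t hinj ht => ?_⟩
  have hH1 : H1 ≤ H := (le_max_left _ _).trans hH
  have hH2 : H2 ≤ H := ((le_max_left _ _).trans (le_max_right _ _)).trans hH
  have hH3 : H3 ≤ H := ((le_max_right _ _).trans (le_max_right _ _)).trans hH
  have hL := h3 H hH3
  set L := Real.log H with hLd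
  have hLB : (0 : ℝ) ≤ L ^ B := by positivity
  have hX0 : 1 ≤ ⌊L ^ B⌋₊ := by
    have h5 : t 0 ≤ ⌊L ^ B⌋₊ := Nat.le_floor (ht 0).2
    exact (ht 0).1.trans h5
  have key := h2 H hH2 (Fin 3) (by rw [Fintype.card_fin]; omega) 1 ⌊L ^ B⌋₊ le_rfl (by
    rw [Nat.cast_one]; linarith) hX0 (Nat.floor_le hLB) t hinj
    (fun a => ⟨(ht a).1, Nat.le_floor (ht a).2⟩) (fun _ => 0) (fun a => by
      rw [Int.cast_zero, abs_zero]
      positivity) univ (fun _ _ => 0) (fun _ _ => le_rfl) (fun _ _ => by positivity)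
  obtain ⟨p1, p2⟩ := h1 H hH1 t hinj ht (fun _ _ => 0)
  have e1 : ∀ v : Fin (d + 1) → ℤ, PA L univ (fun _ _ => 0) (fun a => pv v (t a) + 0) =
      F3 L t v := by
    intro v
    unfold PA F3
    refine Finset.prod_congr rfl fun a _ => ?_
    rw [if_pos (mem_univ a)]
    change om L (pv v (t a) + 0) = _
    rw [add_zero]
  have e2 : ∀ v : Fin (d + 1) → ℤ, PB 1 t univ (fun _ _ => 0) (fun a => pv v (t a) + 0) =
      PB 1 t univ (fun _ _ => 0) (fun a => pv v (t a)) := by
    intro v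
    simp only [add_zero]
  rw [← hLd] at key
  simp only [e1, e2] at key
  have hc : (univ : Finset (Fin 3)).card = 3 := by rw [card_univ, Fintype.card_fin]
  rw [hc, pow_one] at key
  have hS := one_le_SG (ip t)
  set N : ℝ := ((Bx d H).card : ℝ) with hN
  have hN0 : 0 ≤ N := Nat.cast_nonneg _
  set P := ∑ v ∈ Bx d H, PB 1 t univ (fun _ _ => 0) (fun a => pv v (t a)) with hPd
  set S := SG (ip t) with hSd
  have hL0 : 0 < L := by linarith
  have h6 : (2 ^ 3 - 1) * (N / L) ≤ (1 / 100) * (S * N) := by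
    have h7 : N / L ≤ N / 700 := div_le_div_of_nonneg_left hN0 (by norm_num) hL
    have h8 : N ≤ S * N := le_mul_of_one_le_left hN0 hS
    linarith
  have hSN : 0 ≤ S * N := mul_nonneg (by linarith) hN0
  have h9 := abs_le.1 key
  obtain ⟨k1, k2⟩ := h9
  constructor
  · nlinarith
  · nlinarith

end Pool.Agent.Helper32K9.QA
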