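import Pool.Agent.Helper32K9.QA.Stm

/-!
# averaging over one coefficient
-/

set_option autoImplicit false

namespace Pool.Agent.Helper32K9.QA

open Finset Pool.Agent.Helper82K9.PR

theorem fub : S_FUB := by
  intro d H i F
  have h1 : ∑ v ∈ Bx d H, ∑ c ∈ Icc (-(H : ℤ)) H, F (Function.update v i c) =
      ∑ v ∈ Bx d H, ∑ _c ∈ Icc (-(H : ℤ)) H, F v := by
    rw [← Finset.sum_product', ← Finset.sum_product']
    refine Finset.sum_nbij' (fun x => (Function.update x.1 i x.2, x.1 i))
      (fun x => (Function.update x.1 i x.2, x.1 i)) ?_ ?_ ?_ ?_ ?_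
    · rintro ⟨v, c⟩ h
      rw [Finset.mem_product] at h ⊢
      obtain ⟨h1, h2⟩ := h
      unfold Bx at h1 ⊢
      rw [Fintype.mem_piFinset] at h1 ⊢
      refine ⟨fun j => ?_, h1 i⟩
      by_cases hj : j = i
      · subst hj
        simpa using h2
      · simpa [Function.update_of_ne hj] using h1 j
    · rintro ⟨v, c⟩ h
      rw [Finset.mem_product] at h ⊢
      obtain ⟨h1, h2⟩ := h
      unfold Bx at h1 ⊢
      rw [Fintype.mem_piFinset] at h1 ⊢
      refine ⟨fun j => ?_, h1 i⟩
      by_cases hj : j = i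
      · subst hj
        simpa using h2
      · simpa [Function.update_of_ne hj] using h1 j
    · rintro ⟨v, c⟩ _
      simp
    · rintro ⟨v, c⟩ _
      simp
    · rintro ⟨v, c⟩ _
      rfl
  rw [h1]
  simp only [Finset.sum_const, nsmul_eq_mul]
  rw [← Finset.mul_sum, cardI, ← mul_assoc, one_div, inv_mul_cancel₀ (by positivity), one_mul]

end Pool.Agent.Helper32K9.QA
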