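import Pool.Agent.Helper32K9.QA.Stm

/-!
# elementary properties of hh
-/

set_option autoImplicit false

namespace Pool.Agent.Helper32K9.QA

open Finset Pool.Agent.Helper82K9.PR

namespace HijL

theorem part1 (d : ℕ) (v : Fin (d + 1) → ℤ) (x y : ℕ) :
    pv v x - pv v y = ((x : ℤ) - y) * hh v x y := by
  unfold pv hh
  rw [← Finset.sum_sub_distrib, Finset.mul_sum]
  refine Finset.sum_congr rfl fun k _ => ?_
  have h := (Commute.all (x : ℤ) (y : ℤ)).mul_geom_sum₂ (k : ℕ)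
  rw [← mul_sub, ← h]
  ring

theorem part2 (d : ℕ) (v : Fin (d + 1) → ℤ) (x y : ℕ) (c : ℤ) :
    hh (Function.update v 0 c) x y = hh v x y := by
  unfold hh
  refine Finset.sum_congr rfl fun k _ => ?_
  by_cases hk : k = 0
  · subst hk
    simp
  · rw [Function.update_of_ne hk]

theorem part3 (d : ℕ) (v : Fin (d + 1) → ℤ) (i : Fin (d + 1)) (hi : (i : ℕ) = 1) (x y : ℕ)
    (c : ℤ) : hh (Function.update v i c) x y = hh v x y + (c - v i) := by
  unfold hh
  have h1 : ∑ k : Fin (d + 1), (Function.update v i c k - v k) *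
      ∑ l ∈ range (k : ℕ), (x : ℤ) ^ l * (y : ℤ) ^ ((k : ℕ) - 1 - l) = c - v i := by
    rw [Finset.sum_eq_single i]
    · rw [Function.update_self, hi]
      simp
    · intro k _ hk
      rw [Function.update_of_ne hk, sub_self, zero_mul]
    · intro h
      exact absurd (Finset.mem_univ i) h
  rw [← h1, ← Finset.sum_add_distrib]
  refine Finset.sum_congr rfl fun k _ => ?_
  ring

theorem bound (d H : ℕ) (v : Fin (d + 1) → ℤ) (hv : v ∈ Bx d H) (x y M : ℕ) (hx : x ≤ M)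
    (hy : y ≤ M) (hM : 1 ≤ M) : |hh v x y| ≤ (H : ℤ) * ((d + 1) * (d + 1) * (M : ℤ) ^ d) := by
  unfold hh
  unfold Bx at hv
  rw [Fintype.mem_piFinset] at hv
  refine (Finset.abs_sum_le_sum_abs _ _).trans ?_
  have hM' : (1 : ℤ) ≤ M := by exact_mod_cast hM
  have h1 : ∀ k : Fin (d + 1), |v k * ∑ l ∈ range (k : ℕ), (x : ℤ) ^ l * (y : ℤ) ^ ((k : ℕ) - 1 - l)| ≤
      (H : ℤ) * ((d + 1) * (M : ℤ) ^ d) := by
    intro k
    rw [abs_mul]
    have h2 : |v k| ≤ H := by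
      have := Finset.mem_Icc.1 (hv k)
      exact abs_le.2 this
    have h3 : |∑ l ∈ range (k : ℕ), (x : ℤ) ^ l * (y : ℤ) ^ ((k : ℕ) - 1 - l)| ≤
        (d + 1) * (M : ℤ) ^ d := by
      refine (Finset.abs_sum_le_sum_abs _ _).trans ?_
      have h4 : ∀ l ∈ range (k : ℕ), |(x : ℤ) ^ l * (y : ℤ) ^ ((k : ℕ) - 1 - l)| ≤ (M : ℤ) ^ d := by
        intro l hl
        rw [Finset.mem_range] at hl
        rw [abs_of_nonneg (by positivity)]
        have e1 : (x : ℤ) ^ l ≤ (M : ℤ) ^ l := pow_le_pow_left₀ (by positivity) (by exact_mod_cast hx) l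
        have e2 : (y : ℤ) ^ ((k : ℕ) - 1 - l) ≤ (M : ℤ) ^ ((k : ℕ) - 1 - l) :=
          pow_le_pow_left₀ (by positivity) (by exact_mod_cast hy) _
        calc (x : ℤ) ^ l * (y : ℤ) ^ ((k : ℕ) - 1 - l) ≤ (M : ℤ) ^ l * (M : ℤ) ^ ((k : ℕ) - 1 - l) :=
              mul_le_mul e1 e2 (by positivity) (by positivity)
          _ = (M : ℤ) ^ ((k : ℕ) - 1) := by rw [← pow_add]; congr 1; omega
          _ ≤ (M : ℤ) ^ d := pow_le_pow_right₀ hM' (by have := k.2; omega)
      refine (Finset.sum_le_sum h4).trans ?_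
      rw [Finset.sum_const, Finset.card_range, nsmul_eq_mul]
      refine mul_le_mul_of_nonneg_right ?_ (by positivity)
      have := k.2
      exact_mod_cast (by omega : (k : ℕ) ≤ d + 1)
    exact mul_le_mul h2 h3 (abs_nonneg _) (by positivity)
  refine (Finset.sum_le_sum fun k _ => h1 k).trans ?_
  rw [Finset.sum_const, Finset.card_univ, Fintype.card_fin, nsmul_eq_mul]
  push_cast
  apply le_of_eq
  ring

theorem part4 (d B : ℕ) : ∃ H₀ : ℕ, ∀ H : ℕ, H₀ ≤ H → ∀ v ∈ Bx d H, ∀ x y : ℕ,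
    (x : ℝ) ≤ Real.log H ^ B → (y : ℝ) ≤ Real.log H ^ B → |hh v x y| ≤ (H : ℤ) ^ 2 := by
  have h1 : Filter.Tendsto (fun H : ℕ => Real.log H ^ (B * d) / (H : ℝ)) Filter.atTop (nhds 0) := by
    have h2 : (fun x : ℝ => Real.log x ^ (B * d)) =o[Filter.atTop] (fun x : ℝ => x) := by
      have := isLittleO_log_rpow_rpow_atTop ((B * d : ℕ) : ℝ) (s := 1) one_pos
      simpa only [Real.rpow_natCast, Real.rpow_one] using this
    exact (h2.tendsto_div_nhds_zero).comp tendsto_natCast_atTop_atTop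
  have h3 : Filter.Tendsto (fun H : ℕ => Real.log H) Filter.atTop Filter.atTop :=
    Real.tendsto_log_atTop.comp tendsto_natCast_atTop_atTop
  have hc : (0 : ℝ) < 1 / ((d + 1) * (d + 1) * 2 ^ d) := by positivity
  obtain ⟨H₀, hH₀⟩ := Filter.eventually_atTop.1 ((h1.eventually (gt_mem_nhds hc)).and
    ((h3.eventually_ge_atTop 1).and (Filter.eventually_ge_atTop 1)))
  refine ⟨H₀, fun H hH v hv x y hx hy => ?_⟩
  obtain ⟨g1, g2, g3⟩ := hH₀ H hH
  have hHp : (0 : ℝ) < H := by exact_mod_cast g3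
  have hL : (1 : ℝ) ≤ Real.log H ^ B := one_le_pow₀ g2
  set M := ⌈Real.log H ^ B⌉₊ with hM
  have hM1 : 1 ≤ M := by
    rw [hM]
    exact Nat.one_le_ceil_iff.2 (by linarith)
  have hxM : x ≤ M := by exact_mod_cast hx.trans (Nat.le_ceil _)
  have hyM : y ≤ M := by exact_mod_cast hy.trans (Nat.le_ceil _)
  refine (bound d H v hv x y M hxM hyM hM1).trans ?_
  rw [sq]
  refine mul_le_mul_of_nonneg_left ?_ (by positivity)
  have h4 : (M : ℝ) ≤ 2 * Real.log H ^ B := by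
    have := (Nat.ceil_lt_add_one (a := Real.log H ^ B) (by linarith)).le
    linarith
  have h5 : (M : ℝ) ^ d ≤ 2 ^ d * Real.log H ^ (B * d) := by
    rw [pow_mul, ← mul_pow]
    exact pow_le_pow_left₀ (by positivity) h4 d
  rw [div_lt_div_iff₀ hHp (by positivity)] at g1
  have h6 : ((d : ℝ) + 1) * (d + 1) * (M : ℝ) ^ d ≤ H := by
    calc ((d : ℝ) + 1) * (d + 1) * (M : ℝ) ^ d ≤ ((d : ℝ) + 1) * (d + 1) *
          (2 ^ d * Real.log H ^ (B * d)) := by gcongr
      _ = Real.log H ^ (B * d) * ((d + 1) * (d + 1) * 2 ^ d) := by ring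
      _ ≤ 1 * H := g1.le
      _ = H := one_mul _
  exact_mod_cast h6

end HijL

theorem hij : S_HIJ := ⟨HijL.part1, HijL.part2, HijL.part3, HijL.part4⟩

end Pool.Agent.Helper32K9.QA
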