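import Pool.Agent.Helper32K9.QA.SmL

/-!
# the second moment for two triples
-/

set_option autoImplicit false

namespace Pool.Agent.Helper32K9.QA

open Finset Pool.Agent.Helper82K9.PR

namespace PairL

theorem pv_upd {d : ℕ} (v : Fin (d + 1) → ℤ) (c : ℤ) (x : ℕ) :
    pv (Function.update v 0 c) x = c + pv (Function.update v 0 0) x := by
  unfold pv
  rw [Fin.sum_univ_succ, Fin.sum_univ_succ]
  simp only [Function.update_self, Fin.val_zero, pow_zero, mul_one, zero_add]
  congr 1

theorem rt_ge {D : ℕ} (hD : D ≠ 0) : 1 ≤ rt D := by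
  unfold rt
  have h1 : 0 < Nat.totient D := Nat.totient_pos.2 (Nat.pos_of_ne_zero hD)
  rw [le_div_iff₀ (by exact_mod_cast h1), one_mul]
  exact_mod_cast Nat.totient_le D

theorem F6 {d : ℕ} (L : ℝ) (t s : Fin 3 → ℕ) (v : Fin (d + 1) → ℤ)
    [Decidable (∀ a, (pv v (six t s a)).natAbs.Prime)] :
    F3 L t v * F3 L s v = if (∀ a, (pv v (six t s a)).natAbs.Prime) then L ^ 6 else 0 := by
  have h1 : F3 L t v * F3 L s v = ∏ a, om L (pv v (six t s a)) := by
    unfold F3 six
    rw [Fintype.prod_sum_type]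
    rfl
  rw [h1]
  unfold om
  split_ifs with h
  · rw [Finset.prod_congr rfl fun a _ => if_pos (h a)]
    simp
  · push Not at h
    obtain ⟨i, hi⟩ := h
    exact Finset.prod_eq_zero (Finset.mem_univ i) (if_neg hi)

end PairL

open PairL in
theorem pair : S_FUB → S_SV → S_RK → S_HIJ → S_A1 → S_A0 → S_PAIR := by
  intro hF hS hR hJ hA1 hA0 d B hd
  classical
  obtain ⟨C1, hC1, H1, hH1⟩ := hS (Fin 3 ⊕ Fin 3)
  obtain ⟨C2, hC2, H2, hH2⟩ := hA1 d B hd
  have hlim : Filter.Tendsto (fun H : ℕ => Real.log H ^ 6 / (H : ℝ)) Filter.atTop (nhds 0) := by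
    have h2 : (fun x : ℝ => Real.log x ^ 6) =o[Filter.atTop] (fun x : ℝ => x) := by
      have := isLittleO_log_rpow_rpow_atTop ((6 : ℕ) : ℝ) (s := 1) one_pos
      simpa only [Real.rpow_natCast, Real.rpow_one] using this
    exact (h2.tendsto_div_nhds_zero).comp tendsto_natCast_atTop_atTop
  obtain ⟨H3, hH3⟩ := Filter.eventually_atTop.1 ((hlim.eventually
    (gt_mem_nhds (show (0 : ℝ) < 1 / 36 by norm_num))).and (Filter.eventually_ge_atTop 1))
  refine ⟨C1 * C2 + 1, by positivity, max H1 (max H2 H3), ?_⟩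
  intro H hH t s hinj hts
  have g1 := hH1 H ((le_max_left _ _).trans hH)
  have g2 := hH2 H ((le_max_left _ _).trans ((le_max_right _ _).trans hH))
  obtain ⟨g3, g4⟩ := hH3 H ((le_max_right _ _).trans ((le_max_right _ _).trans hH))
  set L := Real.log H with hL
  have hHp : (1 : ℝ) ≤ H := by exact_mod_cast g4
  have hL0 : 0 ≤ L := Real.log_nonneg hHp
  set Z := SG (ip t) * SG (ip s) * X9 t s with hZ
  have hX : 1 ≤ X9 t s := by
    unfold X9
    have h : ∀ i j, 1 ≤ rt (dd (t i) (s j)) := by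
      intro i j
      refine rt_ge ?_
      unfold dd
      rw [Int.natAbs_ne_zero, sub_ne_zero]
      intro h
      have h1 : six t s (Sum.inl i) = six t s (Sum.inr j) := by exact_mod_cast h
      exact absurd (hinj h1) (by simp)
    calc (1 : ℝ) = ∏ _i : Fin 3, ∏ _j : Fin 3, (1 : ℝ) := by simp
      _ ≤ _ := Finset.prod_le_prod (fun i _ => Finset.prod_nonneg fun j _ => zero_le_one)
        fun i _ => Finset.prod_le_prod (fun j _ => zero_le_one) fun j _ => h i j
  have hZ1 : 1 ≤ Z := by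
    have h1 := SmL.one_le_SG (ip t)
    have h2 := SmL.one_le_SG (ip s)
    have h3 : 1 ≤ SG (ip t) * SG (ip s) := one_le_mul_of_one_le_of_one_le h1 h2
    exact one_le_mul_of_one_le_of_one_le h3 hX
  -- the inner sums
  set IN : (Fin (d + 1) → ℤ) → ℝ := fun v => ∑ c ∈ Icc (-(H : ℤ)) H,
    F3 L t (Function.update v 0 c) * F3 L s (Function.update v 0 c) with hIN
  have hcard : ∀ v : Fin (d + 1) → ℤ, IN v = (((Icc (-(H : ℤ)) H).filter
      (fun c => ∀ a, (c + pv (Function.update v 0 0) (six t s a)).natAbs.Prime)).card : ℝ) * L ^ 6 := by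
    intro v
    rw [hIN]
    simp only
    rw [Finset.card_filter, Nat.cast_sum, Finset.sum_mul]
    refine Finset.sum_congr rfl fun c _ => ?_
    rw [F6]
    simp only [pv_upd v c]
    split_ifs <;> simp
  have hgood : ∀ v ∈ Bx d H, (∀ a b, a ≠ b → hh v (six t s a) (six t s b) ≠ 0) →
      IN v ≤ C1 * (2 * H + 1) * (Z * ∏ a : Fin 3 ⊕ Fin 3, ∏ b ∈ univ.erase a,
        rt (hh v (six t s a) (six t s b)).natAbs) := by
    intro v _ hv
    set v' := Function.update v 0 0 with hv'
    have hhe : ∀ x y, hh v' x y = hh v x y := fun x y => hJ.2.1 d v x y 0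
    have hinju : Function.Injective (fun a => pv v' (six t s a)) := by
      intro a b hab
      by_contra hne
      have h1 := hJ.1 d v' (six t s a) (six t s b)
      have h2 : pv v' (six t s a) - pv v' (six t s b) = 0 := sub_eq_zero.2 hab
      rw [h2, hhe] at h1
      rcases mul_eq_zero.1 h1.symm with h3 | h3
      · have : six t s a = six t s b := by
          have := sub_eq_zero.1 h3
          exact_mod_cast this
        exact hne (hinj this)
      · exact hv a b hne h3
    have h1 := g1 (fun a => pv v' (six t s a)) hinju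
    have h2 := hR d t s hinj v' (fun a b hab => by rw [hhe]; exact hv a b hab)
    simp only [hhe] at h2
    rw [hcard]
    have h3 : Fintype.card (Fin 3 ⊕ Fin 3) = 6 := by simp
    rw [h3] at h1
    refine h1.trans ?_
    exact mul_le_mul_of_nonneg_left h2 (by positivity)
  have htriv : ∀ v, IN v ≤ (2 * H + 1) * L ^ 6 := by
    intro v
    rw [hcard]
    refine mul_le_mul_of_nonneg_right ?_ (by positivity)
    rw [← cardI]
    exact_mod_cast Finset.card_filter_le _ _
  have hsum : ∑ v ∈ Bx d H, F3 L t v * F3 L s v =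
      (1 / (2 * (H : ℝ) + 1)) * ∑ v ∈ Bx d H, IN v :=
    hF d H 0 (fun v => F3 L t v * F3 L s v)
  rw [hsum, ← Finset.sum_filter_add_sum_filter_not (Bx d H)
    (fun v => ∀ a b, a ≠ b → hh v (six t s a) (six t s b) ≠ 0)]
  have k1 : ∑ v ∈ (Bx d H).filter (fun v => ∀ a b, a ≠ b → hh v (six t s a) (six t s b) ≠ 0), IN v ≤
      (2 * H + 1) * (C1 * C2 * (Bx d H).card * Z) := by
    refine (Finset.sum_le_sum fun v hv => hgood v (Finset.mem_filter.1 hv).1
      (Finset.mem_filter.1 hv).2).trans ?_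
    rw [← Finset.mul_sum, ← Finset.mul_sum]
    have h1 := g2 (six t s) hinj (fun a => (hts a).2)
    calc C1 * (2 * (H : ℝ) + 1) * (Z * ∑ v ∈ (Bx d H).filter
          (fun v => ∀ a b, a ≠ b → hh v (six t s a) (six t s b) ≠ 0),
          ∏ a : Fin 3 ⊕ Fin 3, ∏ b ∈ univ.erase a, rt (hh v (six t s a) (six t s b)).natAbs) ≤
        C1 * (2 * (H : ℝ) + 1) * (Z * (C2 * (Bx d H).card)) := by
          refine mul_le_mul_of_nonneg_left (mul_le_mul_of_nonneg_left h1 (by linarith)) (by positivity)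
      _ = _ := by ring
  have k2 : ∑ v ∈ (Bx d H).filter (fun v => ¬ ∀ a b, a ≠ b → hh v (six t s a) (six t s b) ≠ 0), IN v ≤
      (2 * H + 1) * ((Bx d H).card * Z) := by
    refine (Finset.sum_le_sum fun v _ => htriv v).trans ?_
    rw [Finset.sum_const, nsmul_eq_mul]
    have h1 := hA0 d hd H (six t s) hinj
    have h2 : L ^ 6 * 36 ≤ 2 * H + 1 := by
      rw [div_lt_div_iff₀ (by linarith) (by norm_num)] at g3
      linarith
    have h3 : ((((Bx d H).filter (fun v => ¬ ∀ a b, a ≠ b →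
        hh v (six t s a) (six t s b) ≠ 0)).card : ℕ) : ℝ) * ((2 * H + 1) * L ^ 6) ≤
        (36 * (Bx d H).card) * L ^ 6 := by
      rw [← mul_assoc]
      exact mul_le_mul_of_nonneg_right h1 (by positivity)
    refine h3.trans ?_
    calc 36 * ((Bx d H).card : ℝ) * L ^ 6 = (L ^ 6 * 36) * ((Bx d H).card : ℝ) := by ring
      _ ≤ (2 * H + 1) * ((Bx d H).card : ℝ) := mul_le_mul_of_nonneg_right h2 (by positivity)
      _ = (2 * H + 1) * (((Bx d H).card : ℝ) * 1) := by ring
      _ ≤ _ := by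
        refine mul_le_mul_of_nonneg_left (mul_le_mul_of_nonneg_left hZ1 (by positivity)) (by positivity)
  have h2H : (0 : ℝ) < 2 * H + 1 := by positivity
  calc (1 / (2 * (H : ℝ) + 1)) * _ ≤ (1 / (2 * (H : ℝ) + 1)) *
        ((2 * H + 1) * (C1 * C2 * (Bx d H).card * Z) + (2 * H + 1) * ((Bx d H).card * Z)) :=
        mul_le_mul_of_nonneg_left (add_le_add k1 k2) (by positivity)
    _ = (C1 * C2 + 1) * (Bx d H).card * Z := by
        field_simp

end Pool.Agent.Helper32K9.QA
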