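import Pool.Agent.Helper32K9.QA.Stm

/-!
[PBE] the mean value of the singular series
-/

set_option autoImplicit false

namespace Pool.Agent.Helper32K9.QA

open Finset Pool.Agent.Helper82K9.PR

namespace PbeL

/-! ### counting -/

lemma blocks (q k m : ℕ) : ((Ico k (k + q * m)).filter (fun x => q.Coprime x)).card =
    Nat.totient q * m := by
  induction m with
  | zero => simp
  | succ m ih =>
    have h1 : (Ico k (k + q * (m + 1))).filter (fun x => q.Coprime x) =
        (Ico k (k + q * m)).filter (fun x => q.Coprime x) ∪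
        (Ico (k + q * m) (k + q * m + q)).filter (fun x => q.Coprime x) := by
      rw [← Finset.filter_union, Finset.Ico_union_Ico_eq_Ico (by omega) (by omega)]
      congr 2
      ring
    have h2 : Disjoint ((Ico k (k + q * m)).filter (fun x => q.Coprime x))
        ((Ico (k + q * m) (k + q * m + q)).filter (fun x => q.Coprime x)) := by
      refine Finset.disjoint_filter_filter ?_
      rw [Finset.disjoint_left]
      intro x hx hx'
      rw [mem_Ico] at hx hx'
      omega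
    rw [h1, Finset.card_union_of_disjoint h2, ih, Nat.filter_coprime_Ico_eq_totient]
    ring

lemma count_nat (q k N : ℕ) (hq : 1 ≤ q) :
    (Nat.totient q : ℝ) * (N / q - 1) ≤ (((Ico k (k + N)).filter (fun x => q.Coprime x)).card : ℝ) ∧
    (((Ico k (k + N)).filter (fun x => q.Coprime x)).card : ℝ) ≤
      (Nat.totient q : ℝ) * (N / q + 1) := by
  have hq0 : (0 : ℝ) < q := by exact_mod_cast hq
  have hφ : (0 : ℝ) ≤ Nat.totient q := Nat.cast_nonneg _
  have h1 := Nat.div_add_mod N q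
  have h2 := Nat.mod_lt N hq
  set m := N / q with hm
  have e1 : (N : ℝ) = q * m + (N % q : ℕ) := by exact_mod_cast h1.symm
  have e2 : ((N % q : ℕ) : ℝ) < q := by exact_mod_cast h2
  have e3 : (0 : ℝ) ≤ ((N % q : ℕ) : ℝ) := Nat.cast_nonneg _
  constructor
  · have h3 : ((Ico k (k + q * m)).filter (fun x => q.Coprime x)).card ≤
        ((Ico k (k + N)).filter (fun x => q.Coprime x)).card := by
      apply Finset.card_le_card
      apply Finset.filter_subset_filter
      apply Finset.Ico_subset_Ico le_rfl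
      omega
    rw [blocks] at h3
    have h4 : (Nat.totient q : ℝ) * m ≤
        (((Ico k (k + N)).filter (fun x => q.Coprime x)).card : ℝ) := by exact_mod_cast h3
    refine le_trans (mul_le_mul_of_nonneg_left ?_ hφ) h4
    rw [sub_le_iff_le_add, div_le_iff₀ hq0]
    nlinarith
  · have h3 : ((Ico k (k + N)).filter (fun x => q.Coprime x)).card ≤
        ((Ico k (k + q * (m + 1))).filter (fun x => q.Coprime x)).card := by
      apply Finset.card_le_card
      apply Finset.filter_subset_filter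
      apply Finset.Ico_subset_Ico le_rfl
      have : q * (m + 1) = q * m + q := by ring
      omega
    rw [blocks] at h3
    have h4 : (((Ico k (k + N)).filter (fun x => q.Coprime x)).card : ℝ) ≤
        (Nat.totient q : ℝ) * (m + 1) := by exact_mod_cast h3
    refine h4.trans (mul_le_mul_of_nonneg_left ?_ hφ)
    have h5 : (m : ℝ) ≤ N / q := by
      rw [le_div_iff₀ hq0]
      nlinarith
    linarith

/-- the number of the `c` with `c + u` coprime to `q` -/
lemma count_int (q H : ℕ) (u : ℤ) (hq : 1 ≤ q) :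
    (Nat.totient q : ℝ) * ((2 * H + 1) / q - 1) ≤
      (((Icc (-(H : ℤ)) H).filter (fun c => Int.gcd (c + u) q = 1)).card : ℝ) ∧
    (((Icc (-(H : ℤ)) H).filter (fun c => Int.gcd (c + u) q = 1)).card : ℝ) ≤
      (Nat.totient q : ℝ) * ((2 * H + 1) / q + 1) := by
  have hq0 : (0 : ℤ) < q := by exact_mod_cast hq
  set w : ℕ := ((u - H) % q).toNat with hw
  have hw1 : ((w : ℕ) : ℤ) = (u - H) % q := Int.toNat_of_nonneg (Int.emod_nonneg _ hq0.ne')
  have h1 : ((Icc (-(H : ℤ)) H).filter (fun c => Int.gcd (c + u) q = 1)).card =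
      ((Ico w (w + (2 * H + 1))).filter (fun x => q.Coprime x)).card := by
    apply card_bij (fun (c : ℤ) _ => (c + H + w).toNat)
    · intro c hc
      rw [mem_filter, mem_Icc] at hc
      obtain ⟨⟨h1, h2⟩, h3⟩ := hc
      rw [mem_filter, mem_Ico]
      refine ⟨⟨by omega, by omega⟩, ?_⟩
      have e1 : (((c + H + w).toNat : ℕ) : ℤ) = c + H + w := Int.toNat_of_nonneg (by omega)
      rw [Nat.coprime_comm]
      unfold Nat.Coprime
      rw [← Int.gcd_natCast_natCast, e1, hw1]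
      have e2 : c + H + (u - H) % q = (c + u) - q * ((u - H) / q) := by
        have := Int.emod_add_mul_ediv (u - H) q
        linarith
      rw [e2, Int.gcd_sub_mul_left_left]
      exact h3
    · intro a ha b hb hab
      rw [mem_filter, mem_Icc] at ha hb
      have := ha.1
      have := hb.1
      omega
    · intro x hx
      rw [mem_filter, mem_Ico] at hx
      obtain ⟨⟨h1, h2⟩, h3⟩ := hx
      refine ⟨(x : ℤ) - H - w, ?_, ?_⟩
      · rw [mem_filter, mem_Icc]
        refine ⟨⟨by omega, by omega⟩, ?_⟩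
        rw [Nat.coprime_comm] at h3
        unfold Nat.Coprime at h3
        rw [← Int.gcd_natCast_natCast] at h3
        have e2 : (x : ℤ) - H - w + u = x + q * ((u - H) / q) := by
          have := Int.emod_add_mul_ediv (u - H) q
          linarith
        rw [e2, Int.gcd_add_mul_left_left]
        exact h3
      · omega
  rw [h1]
  have := count_nat q w (2 * H + 1) hq
  push_cast at this
  exact this

/-! ### three values -/

lemma three (r : Fin 3 → ℤ) (h : ∃ a b, a ≠ b ∧ r a = r b) [DecidableEq ℤ]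
    [DecidablePred fun a : Fin 3 => ∃ b, b ≠ a ∧ r a = r b] :
    (univ.filter (fun a : Fin 3 => ∃ b, b ≠ a ∧ r a = r b)).card = (3 - (univ.image r).card) + 1 := by
  have hu : (univ : Finset (Fin 3)) = {0, 1, 2} := rfl
  have h0 : (∃ b, b ≠ (0 : Fin 3) ∧ r 0 = r b) ↔ (r 0 = r 1 ∨ r 0 = r 2) := by
    constructor
    · rintro ⟨b, hb, hr⟩
      fin_cases b
      · exact absurd rfl hb
      · exact Or.inl hr
      · exact Or.inr hr
    · rintro (h | h)
      · exact ⟨1, by decide, h⟩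
      · exact ⟨2, by decide, h⟩
  have h1 : (∃ b, b ≠ (1 : Fin 3) ∧ r 1 = r b) ↔ (r 0 = r 1 ∨ r 1 = r 2) := by
    constructor
    · rintro ⟨b, hb, hr⟩
      fin_cases b
      · exact Or.inl hr.symm
      · exact absurd rfl hb
      · exact Or.inr hr
    · rintro (h | h)
      · exact ⟨0, by decide, h.symm⟩
      · exact ⟨2, by decide, h⟩
  have h2 : (∃ b, b ≠ (2 : Fin 3) ∧ r 2 = r b) ↔ (r 0 = r 2 ∨ r 1 = r 2) := by
    constructor
    · rintro ⟨b, hb, hr⟩
      fin_cases b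
      · exact Or.inl hr.symm
      · exact Or.inr hr.symm
      · exact absurd rfl hb
    · rintro (h | h)
      · exact ⟨0, by decide, h.symm⟩
      · exact ⟨1, by decide, h.symm⟩
  rw [Finset.card_filter, Fin.sum_univ_three]
  have himg : univ.image r = {r 0, r 1, r 2} := by
    rw [hu, Finset.image_insert, Finset.image_insert, Finset.image_singleton]
  rw [himg]
  simp only [h0, h1, h2]
  have hex : r 0 = r 1 ∨ r 0 = r 2 ∨ r 1 = r 2 := by
    obtain ⟨a, b, hab, hr⟩ := h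
    fin_cases a <;> fin_cases b <;> simp_all
  by_cases e1 : r 0 = r 1
  · by_cases e2 : r 1 = r 2
    · simp [e1, e2]
    · have e3 : ¬ r 0 = r 2 := fun h => e2 (e1 ▸ h)
      simp [e1, e2, Finset.card_pair e2]
  · by_cases e2 : r 1 = r 2
    · have e3 : ¬ r 0 = r 2 := fun h => e1 (h.trans e2.symm)
      simp [e2, e3, Finset.card_pair e3]
    · have e3 : r 0 = r 2 := by tauto
      have e4 : ¬ r 2 = r 1 := fun h => e2 h.symm
      simp [e3, e2, e4, Finset.card_pair e2]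

/-! ### prime factors -/

lemma mo_dvd_iff {t : Fin 3 → ℕ} {p : ℕ} (hp : p.Prime) (a : Fin 3) :
    p ∣ mo 1 t a ↔ ∃ b, b ≠ a ∧ (p : ℤ) ∣ (t a : ℤ) - t b := by
  unfold mo
  rw [one_mul, ← Int.natCast_dvd, Prime.dvd_finset_prod_iff (Nat.prime_iff_prime_int.1 hp)]
  constructor
  · rintro ⟨b, hb, h⟩
    exact ⟨b, (Finset.mem_erase.1 hb).1, h⟩
  · rintro ⟨b, hb, h⟩
    exact ⟨b, Finset.mem_erase.2 ⟨hb, mem_univ _⟩, h⟩

lemma DD_eq (u : Fin 3 → ℤ) : DD u = ∏ a : Fin 3, ∏ b ∈ univ.erase a, dd (u a) (u b) := by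
  unfold DD
  have h : (fun a b => Classical.propDecidable (a = b)) = instDecidableEqFin 3 := Subsingleton.elim _ _
  rw [h]

lemma DD_dvd_iff {t : Fin 3 → ℕ} {p : ℕ} (hp : p.Prime) :
    p ∣ DD (ip t) ↔ ∃ a b, b ≠ a ∧ (p : ℤ) ∣ (t a : ℤ) - t b := by
  rw [DD_eq, Prime.dvd_finset_prod_iff hp.prime]
  constructor
  · rintro ⟨a, -, h⟩
    rw [Prime.dvd_finset_prod_iff hp.prime] at h
    obtain ⟨b, hb, h⟩ := h
    unfold dd ip at h
    exact ⟨a, b, (Finset.mem_erase.1 hb).1, Int.natCast_dvd.2 h⟩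
  · rintro ⟨a, b, hb, h⟩
    refine ⟨a, mem_univ _, ?_⟩
    rw [Prime.dvd_finset_prod_iff hp.prime]
    exact ⟨b, Finset.mem_erase.2 ⟨hb, mem_univ _⟩, Int.natCast_dvd.1 h⟩

lemma dd_pos {t : Fin 3 → ℕ} (hinj : Function.Injective t) {a b : Fin 3} (h : b ≠ a) :
    1 ≤ dd (ip t a) (ip t b) := by
  unfold dd ip
  apply Int.natAbs_pos.2
  intro h1
  have h2 : (t a : ℤ) = t b := by linarith
  exact h (hinj (by exact_mod_cast h2)).symm

lemma DD_pos {t : Fin 3 → ℕ} (hinj : Function.Injective t) : 1 ≤ DD (ip t) := by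
  rw [DD_eq]
  change 0 < _
  refine Finset.prod_pos fun a _ => Finset.prod_pos fun b hb => ?_
  exact dd_pos hinj (Finset.mem_erase.1 hb).1

lemma DD_le {t : Fin 3 → ℕ} {X : ℝ} (hX : 0 ≤ X) (ht : ∀ a, (t a : ℝ) ≤ X) :
    (DD (ip t) : ℝ) ≤ X ^ 6 := by
  have h1 : ∀ a b, (dd (ip t a) (ip t b) : ℝ) ≤ X := by
    intro a b
    unfold dd ip
    rw [Nat.cast_natAbs]
    push_cast
    rw [abs_le]
    have h1 := ht a
    have h2 := ht b
    have h3 : (0 : ℝ) ≤ t a := Nat.cast_nonneg _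
    have h4 : (0 : ℝ) ≤ t b := Nat.cast_nonneg _
    constructor <;> linarith
  rw [DD_eq]
  push_cast
  calc (∏ a : Fin 3, ∏ b ∈ univ.erase a, (dd (ip t a) (ip t b) : ℝ)) ≤
      ∏ a : Fin 3, ∏ b ∈ univ.erase a, X := by
        refine Finset.prod_le_prod (fun a _ => Finset.prod_nonneg fun b _ => Nat.cast_nonneg _)
          fun a _ => Finset.prod_le_prod (fun b _ => Nat.cast_nonneg _) fun b _ => h1 a b
    _ = X ^ 6 := by
      simp only [Finset.prod_const, Finset.card_erase_of_mem (mem_univ _), Finset.card_univ,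
        Fintype.card_fin]
      ring

/-- `D / φ(D)` as a product -/
lemma rt_prod {D : ℕ} (hD : 1 ≤ D) : rt D = ∏ p ∈ D.primeFactors, (1 - 1 / (p : ℝ))⁻¹ := by
  have h1 := congrArg (fun x : ℚ => (x : ℝ)) (Nat.totient_eq_mul_prod_factors D)
  simp only [Rat.cast_natCast, Rat.cast_mul, Rat.cast_prod, Rat.cast_sub, Rat.cast_one,
    Rat.cast_inv] at h1
  unfold rt
  rw [h1, Finset.prod_inv_distrib]
  have h2 : (D : ℝ) ≠ 0 := by
    have : (0 : ℝ) < D := by exact_mod_cast hD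
    exact this.ne'
  simp only [one_div]
  rw [div_mul_cancel_left₀ h2]

lemma inv_prod {D : ℕ} (hD : 1 ≤ D) :
    (Nat.totient D : ℝ) / D = ∏ p ∈ D.primeFactors, (1 - 1 / (p : ℝ)) := by
  have h1 := rt_prod hD
  rw [Finset.prod_inv_distrib] at h1
  unfold rt at h1
  rw [← inv_div, h1, inv_inv]

lemma x_pos {p : ℕ} (hp : p.Prime) : (0 : ℝ) < 1 - 1 / (p : ℝ) := by
  have h2 : (2 : ℝ) ≤ p := by exact_mod_cast hp.two_le
  rw [sub_pos, div_lt_one (by linarith)]
  linarith

lemma cast_dvd_iff (t : Fin 3 → ℕ) (p : ℕ) (a b : Fin 3) :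
    (p : ℤ) ∣ (t a : ℤ) - t b ↔ ip t a % (p : ℤ) = ip t b % (p : ℤ) := by
  unfold ip
  rw [Int.dvd_iff_emod_eq_zero, Int.emod_eq_emod_iff_emod_sub_eq_zero]

/-- the singular series -/
lemma sing {t : Fin 3 → ℕ} (hinj : Function.Injective t) :
    (∏ a, rt (mo 1 t a)) * ((Nat.totient (DD (ip t)) : ℝ) / DD (ip t)) = SG (ip t) := by
  classical
  have hq := DD_pos hinj
  have hsub : ∀ a, (mo 1 t a).primeFactors ⊆ (DD (ip t)).primeFactors := by
    intro a p hp
    have hpp := Nat.prime_of_mem_primeFactors hp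
    rw [Nat.mem_primeFactors] at hp ⊢
    refine ⟨hpp, ?_, by omega⟩
    obtain ⟨b, hb, h⟩ := (mo_dvd_iff hpp a).1 hp.2.1
    exact (DD_dvd_iff hpp).2 ⟨a, b, hb, h⟩
  have h1 : ∀ a, rt (mo 1 t a) = ∏ p ∈ (DD (ip t)).primeFactors,
      if p ∣ mo 1 t a then (1 - 1 / (p : ℝ))⁻¹ else 1 := by
    intro a
    have hm := mo_pos 1 le_rfl t hinj a
    rw [rt_prod hm, ← Finset.prod_filter]
    refine Finset.prod_congr ?_ fun _ _ => rfl
    ext p
    rw [mem_filter]
    constructor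
    · exact fun h => ⟨hsub a h, Nat.dvd_of_mem_primeFactors h⟩
    · rintro ⟨h2, h3⟩
      exact Nat.mem_primeFactors.2 ⟨Nat.prime_of_mem_primeFactors h2, h3, by omega⟩
  simp only [h1]
  rw [Finset.prod_comm, inv_prod hq, ← Finset.prod_mul_distrib]
  unfold SG
  refine Finset.prod_congr rfl fun p hp => ?_
  have hpp := Nat.prime_of_mem_primeFactors hp
  have hx := x_pos hpp
  have hpd := (DD_dvd_iff hpp).1 (Nat.dvd_of_mem_primeFactors hp)
  rw [Finset.prod_ite, Finset.prod_const_one, mul_one, Finset.prod_const]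
  have h3 : (univ.filter (fun a => p ∣ mo 1 t a)).card = (Fintype.card (Fin 3) - cl p (ip t)) + 1 := by
    have h4 := three (fun a => ip t a % (p : ℤ)) (by
      obtain ⟨a, b, hb, h⟩ := hpd
      exact ⟨a, b, hb.symm, (cast_dvd_iff t p a b).1 h⟩)
    have h5 : (univ.filter (fun a => p ∣ mo 1 t a)) =
        univ.filter (fun a : Fin 3 => ∃ b, b ≠ a ∧ ip t a % (p : ℤ) = ip t b % (p : ℤ)) := by
      refine Finset.filter_congr fun a _ => ?_
      rw [mo_dvd_iff hpp]
      simp only [cast_dvd_iff]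
    rw [h5, h4, Fintype.card_fin]
    unfold cl
    congr!
  rw [h3, pow_succ, mul_assoc, inv_mul_cancel₀ hx.ne', mul_one]

/-! ### the conditions -/

lemma pv_sub_dvd {d : ℕ} (v : Fin (d + 1) → ℤ) (x y : ℕ) : ((x : ℤ) - y) ∣ pv v x - pv v y := by
  unfold pv
  rw [← Finset.sum_sub_distrib]
  refine Finset.dvd_sum fun i _ => ?_
  rw [← mul_sub]
  exact Dvd.dvd.mul_left (sub_dvd_pow_sub_pow _ _ _) _

lemma gcd_one_iff (x : ℤ) (q : ℕ) : Int.gcd x q = 1 ↔ ∀ p : ℕ, p.Prime → p ∣ q → ¬ (p : ℤ) ∣ x := by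
  unfold Int.gcd
  rw [Int.natAbs_natCast]
  constructor
  · intro h p hp hpq hpx
    exact Nat.not_coprime_of_dvd_of_dvd hp.one_lt (Int.natCast_dvd.1 hpx) hpq h
  · intro h
    by_contra h1
    obtain ⟨p, hp, h2, h3⟩ := Nat.Prime.not_coprime_iff_dvd.1 h1
    exact h p hp h3 (Int.natCast_dvd.2 h2)

lemma cond_iff {d : ℕ} {t : Fin 3 → ℕ} {τ : ℕ} (hτ : ∀ p : ℕ, p.Prime → ∀ a b : Fin 3, a ≠ b →
    (p : ℤ) ∣ (t a : ℤ) - t b → (p : ℤ) ∣ (τ : ℤ) - t a) (v : Fin (d + 1) → ℤ) :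
    (∀ a, Int.gcd (pv v (t a)) (mo 1 t a) = 1) ↔ Int.gcd (pv v τ) (DD (ip t)) = 1 := by
  simp only [gcd_one_iff]
  constructor
  · intro h p hp hpq hpx
    obtain ⟨a, b, hb, hd⟩ := (DD_dvd_iff hp).1 hpq
    refine h a p hp ((mo_dvd_iff hp a).2 ⟨b, hb, hd⟩) ?_
    have h1 := (hτ p hp a b hb.symm hd).trans (pv_sub_dvd v τ (t a))
    have h2 := dvd_sub hpx h1
    rwa [sub_sub_cancel] at h2
  · intro h a p hp hpq hpx
    obtain ⟨b, hb, hd⟩ := (mo_dvd_iff hp a).1 hpq
    refine h p hp ((DD_dvd_iff hp).2 ⟨a, b, hb, hd⟩) ?_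
    have h1 := (hτ p hp a b hb.symm hd).trans (pv_sub_dvd v τ (t a))
    have h2 := dvd_add hpx h1
    rwa [add_sub_cancel] at h2

lemma PB_eq {d : ℕ} {t : Fin 3 → ℕ} {τ : ℕ} (hτ : ∀ p : ℕ, p.Prime → ∀ a b : Fin 3, a ≠ b →
    (p : ℤ) ∣ (t a : ℤ) - t b → (p : ℤ) ∣ (τ : ℤ) - t a) (f : Fin 3 → ℤ → ℝ)
    (v : Fin (d + 1) → ℤ) : PB 1 t univ f (fun a => pv v (t a)) =
      if Int.gcd (pv v τ) (DD (ip t)) = 1 then ∏ a, rt (mo 1 t a) else 0 := by
  unfold PB
  simp only [mem_univ, if_true]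
  split_ifs with h
  · rw [← cond_iff hτ v] at h
    refine Finset.prod_congr rfl fun a _ => ?_
    unfold MM rt
    rw [if_pos (h a)]
  · rw [← cond_iff hτ v] at h
    push Not at h
    obtain ⟨a, ha⟩ := h
    refine Finset.prod_eq_zero (mem_univ a) ?_
    unfold MM
    rw [if_neg ha]

lemma pv_update {d : ℕ} (v : Fin (d + 1) → ℤ) (c : ℤ) (τ : ℕ) :
    pv (Function.update v 0 c) τ = c + (pv v τ - v 0) := by
  unfold pv
  rw [Fin.sum_univ_succ, Fin.sum_univ_succ, Function.update_self]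
  have h1 : ∀ i : Fin d, Function.update v 0 c i.succ = v i.succ := fun i =>
    Function.update_of_ne (Fin.succ_ne_zero i) _ _
  simp only [h1, Fin.val_zero, pow_zero]
  ring

lemma log_pow_le (B : ℕ) : ∃ H₀ : ℕ, ∀ H : ℕ, H₀ ≤ H → 4 * (Real.log H ^ B) ^ 6 ≤ 2 * H + 1 := by
  have h1 : (fun x : ℝ => Real.log x ^ (B * 6)) =o[Filter.atTop] fun x : ℝ => x :=
    Real.isLittleO_pow_log_id_atTop
  have h2 := h1.def (show (0 : ℝ) < 1 / 4 by norm_num)
  have h3 := tendsto_natCast_atTop_atTop (R := ℝ) |>.eventually h2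
  obtain ⟨H₀, h⟩ := Filter.eventually_atTop.1 h3
  refine ⟨H₀, fun H hH => ?_⟩
  have h4 := h H hH
  rw [Real.norm_eq_abs, Real.norm_eq_abs, abs_of_nonneg (a := (H : ℝ)) (Nat.cast_nonneg H)] at h4
  have h5 := (le_abs_self _).trans h4
  have h6 : (Real.log (H : ℝ) ^ B) ^ 6 = Real.log H ^ (B * 6) := by rw [← pow_mul]
  rw [h6]
  have h7 : (0 : ℝ) ≤ H := Nat.cast_nonneg _
  linarith

end PbeL

open PbeL in
theorem pbe : S_TAU → S_FUB → S_PBE := by
  intro hT hF d B hd
  obtain ⟨H₀, hH₀⟩ := log_pow_le B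
  refine ⟨max H₀ 3, fun H hH t hinj ht f => ?_⟩
  have hH1 : H₀ ≤ H := (le_max_left _ _).trans hH
  have hH2 : 3 ≤ H := (le_max_right _ _).trans hH
  obtain ⟨τ, hτ⟩ := hT t hinj
  set q := DD (ip t) with hq
  have hq1 : 1 ≤ q := DD_pos hinj
  have hL0 : 0 ≤ Real.log H := Real.log_natCast_nonneg H
  have hqX : (q : ℝ) ≤ (Real.log H ^ B) ^ 6 := DD_le (by positivity) fun a => (ht a).2
  have hN : (0 : ℝ) < 2 * H + 1 := by positivity
  have h4q : 4 * (q : ℝ) ≤ 2 * H + 1 := by linarith [hH₀ H hH1]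
  have hq0 : (0 : ℝ) < q := by exact_mod_cast hq1
  set R : ℝ := ∏ a, rt (mo 1 t a) with hR
  have hR0 : 0 ≤ R := Finset.prod_nonneg fun a _ => by unfold rt; positivity
  have hS : R * ((Nat.totient q : ℝ) / q) = SG (ip t) := sing hinj
  have e1 : ∑ v ∈ Bx d H, PB 1 t univ f (fun a => pv v (t a)) = (1 / (2 * (H : ℝ) + 1)) *
      ∑ v ∈ Bx d H, R * (((Icc (-(H : ℤ)) H).filter
        (fun c => Int.gcd (c + (pv v τ - v 0)) q = 1)).card : ℝ) := by
    rw [hF d H 0 (fun v => PB 1 t univ f (fun a => pv v (t a)))]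
    congr 1
    refine Finset.sum_congr rfl fun v _ => ?_
    have h9 : ∀ c : ℤ, PB 1 t univ f (fun a => pv (Function.update v 0 c) (t a)) =
        if Int.gcd (c + (pv v τ - v 0)) q = 1 then R else 0 := by
      intro c
      rw [PB_eq hτ, pv_update]
    simp only [h9]
    rw [← Finset.sum_filter, Finset.sum_const, nsmul_eq_mul, mul_comm]
  have hφ : (0 : ℝ) ≤ Nat.totient q := Nat.cast_nonneg _
  have hNq : (4 : ℝ) ≤ (2 * H + 1) / q := by
    rw [le_div_iff₀ hq0]
    exact h4q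
  have h5 : ∀ v ∈ Bx d H, R * ((Nat.totient q : ℝ) * ((3 / 4) * ((2 * H + 1) / q))) ≤
      R * (((Icc (-(H : ℤ)) H).filter
        (fun c => Int.gcd (c + (pv v τ - v 0)) q = 1)).card : ℝ) := by
    intro v _
    refine mul_le_mul_of_nonneg_left (le_trans ?_ (count_int q H _ hq1).1) hR0
    refine mul_le_mul_of_nonneg_left ?_ hφ
    linarith
  have h6 : ∀ v ∈ Bx d H, R * (((Icc (-(H : ℤ)) H).filter
        (fun c => Int.gcd (c + (pv v τ - v 0)) q = 1)).card : ℝ) ≤
      R * ((Nat.totient q : ℝ) * ((5 / 4) * ((2 * H + 1) / q))) := by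
    intro v _
    refine mul_le_mul_of_nonneg_left (le_trans (count_int q H _ hq1).2 ?_) hR0
    refine mul_le_mul_of_nonneg_left ?_ hφ
    linarith
  have h7 := Finset.sum_le_sum h5
  have h8 := Finset.sum_le_sum h6
  rw [Finset.sum_const, nsmul_eq_mul] at h7 h8
  rw [e1, one_div, ← hS]
  constructor
  · rw [← div_eq_inv_mul, le_div_iff₀ hN]
    refine le_trans (le_of_eq ?_) h7
    ring
  · rw [inv_mul_le_iff₀ hN]
    refine h8.trans (le_of_eq ?_)
    ring

end Pool.Agent.Helper32K9.QA
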