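import Pool.Agent.Helper32K9.QA.Stm

/-!
# The size of the `n`-th prime
-/

set_option autoImplicit false

namespace Pool.Agent.Helper32K9.QA

open Finset

/-- `p_n ≤ 10 n log p_n` -/
theorem pr_le_log (n : ℕ) (hn : 1 ≤ n) : (pr n : ℝ) ≤ 10 * n * Real.log (pr n) := by
  set x : ℕ := pr n with hx
  have hxp : x.Prime := Nat.prime_nth_prime _
  have h2 : (2 : ℝ) ≤ x := by exact_mod_cast hxp.two_le
  have h3 := Chebyshev.pi_ge x
  have hpi : Nat.primeCounting x = n := by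
    have h6 : Nat.primeCounting' x = n - 1 := Nat.primeCounting'_nth_eq (n - 1)
    unfold Nat.primeCounting
    unfold Nat.primeCounting' at h6 ⊢
    rw [Nat.count_succ, h6, if_pos hxp]
    omega
  rw [hpi] at h3
  have hl0 : 0 < Real.log x := Real.log_pos (by linarith)
  rw [div_le_iff₀ hl0] at h3
  have hl2 := Real.log_two_gt_d9
  have hl3 := Real.log_two_lt_d9
  have h8 : Real.log ((x : ℝ) + 1) ≤ 1.12 + ((x : ℝ) - 2) / 3 := by
    have e : (x : ℝ) + 1 = 3 * (((x : ℝ) + 1) / 3) := by ring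
    rw [e, Real.log_mul (by norm_num) (by positivity)]
    have h4 : Real.log (((x : ℝ) + 1) / 3) ≤ ((x : ℝ) + 1) / 3 - 1 := Real.log_le_sub_one_of_pos (by positivity)
    have h5 : Real.log 3 ≤ 1.12 := by
      have h10 : Real.log ((3 : ℝ) ^ 53) ≤ Real.log ((2 : ℝ) ^ 85) := Real.log_le_log (by norm_num) (by norm_num)
      rw [Real.log_pow, Real.log_pow] at h10
      push_cast at h10
      linarith
    linarith
  have h9 : (x : ℝ) * 0.693 ≤ x * Real.log 2 := by
    apply mul_le_mul_of_nonneg_left _ (by linarith)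
    linarith
  linarith

/-- `p_n ≤ 400 n²` -/
theorem pr_le_sq (n : ℕ) (hn : 1 ≤ n) : (pr n : ℝ) ≤ 400 * (n : ℝ) ^ 2 := by
  have h := pr_le_log n hn
  set x : ℕ := pr n with hx
  have hxp : x.Prime := Nat.prime_nth_prime _
  have h2 : (2 : ℝ) ≤ x := by exact_mod_cast hxp.two_le
  have hx0 : (0 : ℝ) < x := by linarith
  have hs : Real.sqrt x * Real.sqrt x = x := Real.mul_self_sqrt hx0.le
  have hs0 : 0 < Real.sqrt x := Real.sqrt_pos.2 hx0
  have h3 : Real.log x ≤ 2 * Real.sqrt x := by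
    have h4 : Real.log (Real.sqrt x) ≤ Real.sqrt x - 1 := Real.log_le_sub_one_of_pos hs0
    rw [Real.log_sqrt hx0.le] at h4
    linarith
  have hn0 : (0 : ℝ) < n := by exact_mod_cast hn
  have h5 : Real.sqrt x ≤ 20 * n := by
    have h6 : Real.sqrt x * Real.sqrt x ≤ (20 * n) * Real.sqrt x := by
      rw [hs]
      calc (x : ℝ) ≤ 10 * n * Real.log x := h
        _ ≤ 10 * n * (2 * Real.sqrt x) := by gcongr
        _ = _ := by ring
    exact le_of_mul_le_mul_right h6 hs0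
  calc (x : ℝ) = Real.sqrt x * Real.sqrt x := hs.symm
    _ ≤ (20 * n) * (20 * n) := by gcongr
    _ = _ := by ring

/-- `p_n ≤ n ^ 11` -/
theorem pr_le_pow (n : ℕ) (hn : 2 ≤ n) : pr n ≤ n ^ 11 := by
  have h := pr_le_sq n (by omega)
  have h2 : pr n ≤ 400 * n ^ 2 := by exact_mod_cast h
  refine h2.trans ?_
  have h3 : 2 ^ 9 ≤ n ^ 9 := Nat.pow_le_pow_left hn 9
  calc 400 * n ^ 2 ≤ n ^ 9 * n ^ 2 := Nat.mul_le_mul_right _ (by omega)
    _ = n ^ 11 := by ring

/-- `p_n ≤ 110 n log n` -/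
theorem pr_le_mul_log (n : ℕ) (hn : 2 ≤ n) : (pr n : ℝ) ≤ 110 * n * Real.log n := by
  have h := pr_le_log n (by omega)
  have h2 : ((pr n : ℕ) : ℝ) ≤ (n : ℝ) ^ 11 := by exact_mod_cast pr_le_pow n hn
  have hxp : (pr n).Prime := Nat.prime_nth_prime _
  have h3 : (0 : ℝ) < (pr n : ℝ) := by exact_mod_cast hxp.pos
  have h4 : Real.log (pr n) ≤ 11 * Real.log n := by
    have h5 := Real.log_le_log h3 h2
    rw [Real.log_pow] at h5
    push_cast at h5
    linarith
  calc (pr n : ℝ) ≤ 10 * n * Real.log (pr n) := h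
    _ ≤ 10 * n * (11 * Real.log n) := by gcongr
    _ = _ := by ring

theorem psz : S_PSZ := by
  refine ⟨121, fun n hn => ?_⟩
  have hp : (pr n).Prime := Nat.prime_nth_prime _
  calc pr (pr n) ≤ (pr n) ^ 11 := pr_le_pow _ hp.two_le
    _ ≤ (n ^ 11) ^ 11 := Nat.pow_le_pow_left (pr_le_pow n hn) 11
    _ = n ^ 121 := by rw [← pow_mul]

end Pool.Agent.Helper32K9.QA
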