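import Pool.Agent.Helper32K9.QA.Stm

/-!
# the rank inequality
-/

set_option autoImplicit false

namespace Pool.Agent.Helper32K9.QA

open Finset Pool.Agent.Helper82K9.PR

namespace RkL

/-- a set of representatives -/
theorem exists_rep {α β : Type} [DecidableEq α] [DecidableEq β] (s : Finset α) (x : α → β) :
    ∃ R ⊆ s, Set.InjOn x R ∧ R.card = (s.image x).card := by
  induction s using Finset.induction_on with
  | empty => exact ⟨∅, by simp, by simp, by simp⟩
  | insert a s ha ih =>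
    obtain ⟨R, h1, h2, h3⟩ := ih
    by_cases hx : x a ∈ s.image x
    · refine ⟨R, h1.trans (Finset.subset_insert _ _), h2, ?_⟩
      rw [Finset.image_insert, Finset.insert_eq_self.2 hx, h3]
    · have haR : a ∉ R := fun h => ha (h1 h)
      refine ⟨insert a R, Finset.insert_subset_insert _ h1, ?_, ?_⟩
      · rw [Finset.coe_insert, Set.injOn_insert (by simpa using haR)]
        refine ⟨h2, fun h => hx ?_⟩
        obtain ⟨b, hb, hb'⟩ := h
        exact Finset.mem_image.2 ⟨b, h1 (by simpa using hb), hb'⟩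
      · rw [Finset.card_insert_of_notMem haR, h3, Finset.image_insert,
          Finset.card_insert_of_notMem hx]

/-- a forest bound for the number of the coincidences -/
theorem rank_gen {α β : Type} [DecidableEq α] [DecidableEq β] (R : Finset α) (f : α → ℕ)
    (hf : Function.Injective f) (y : α → β) (E : Finset (α × α))
    (hE : ∀ a ∈ R, ∀ b ∈ R, f b < f a → y b = y a → (b, a) ∈ E) :
    R.card ≤ (R.image y).card + E.card := by
  classical
  set R1 := R.filter (fun a => ∀ b ∈ R, f b < f a → y b ≠ y a) with hR1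
  have h1 : R1.card ≤ (R.image y).card := by
    have h2 : Set.InjOn y R1 := by
      intro a ha b hb hab
      have ha' := Finset.mem_filter.1 (Finset.mem_coe.1 ha)
      have hb' := Finset.mem_filter.1 (Finset.mem_coe.1 hb)
      rcases lt_trichotomy (f a) (f b) with h | h | h
      · exact absurd hab (hb'.2 a ha'.1 h)
      · exact hf h
      · exact absurd hab.symm (ha'.2 b hb'.1 h)
    rw [← Finset.card_image_of_injOn h2]
    exact Finset.card_le_card (Finset.image_subset_image (Finset.filter_subset _ _))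
  have h3 : (R \ R1).card ≤ E.card := by
    have h4 : ∀ a ∈ R \ R1, ∃ b, (b, a) ∈ E := by
      intro a ha
      rw [Finset.mem_sdiff] at ha
      obtain ⟨haR, haR1⟩ := ha
      by_contra hcon
      push Not at hcon
      refine haR1 (Finset.mem_filter.2 ⟨haR, fun b hb hlt hy => hcon b (hE a haR b hb hlt hy)⟩)
    refine (Finset.card_le_card (t := E.image Prod.snd) fun a ha => ?_).trans Finset.card_image_le
    obtain ⟨b, hb⟩ := h4 a ha
    exact Finset.mem_image.2 ⟨(b, a), hb, rfl⟩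
  have h5 : R1 ⊆ R := Finset.filter_subset _ _
  have h6 := Finset.card_sdiff_add_card_eq_card h5
  omega

theorem cl_eq {ι : Type} [Fintype ι] [DecidableEq ι] (p : ℕ) (u : ι → ℤ) :
    cl p u = (univ.image (fun a => u a % (p : ℤ))).card := by
  unfold cl
  congr

theorem cl_le {ι : Type} [Fintype ι] (p : ℕ) (u : ι → ℤ) : cl p u ≤ Fintype.card ι := by
  classical
  rw [cl_eq]
  exact Finset.card_image_le

theorem DD_ne {ι : Type} [Fintype ι] (u : ι → ℤ) (hu : Function.Injective u) : DD u ≠ 0 := by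
  classical
  unfold DD
  refine Finset.prod_ne_zero_iff.2 fun a _ => Finset.prod_ne_zero_iff.2 fun b hb => ?_
  unfold dd
  rw [Int.natAbs_ne_zero, sub_ne_zero]
  exact fun h => (Finset.ne_of_mem_erase hb) (hu h).symm

theorem cl_full {ι : Type} [Fintype ι] (p : ℕ) (hp : p.Prime) (u : ι → ℤ)
    (hu : Function.Injective u) (h : p ∉ (DD u).primeFactors) : cl p u = Fintype.card ι := by
  classical
  rw [cl_eq, Finset.card_image_of_injective, Finset.card_univ]
  intro a b hab
  by_contra hne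
  apply h
  rw [Nat.mem_primeFactors]
  refine ⟨hp, ?_, DD_ne u hu⟩
  have h1 : (p : ℤ) ∣ u a - u b := Int.ModEq.dvd (a := u b) (b := u a) (n := p) (Eq.symm hab)
  unfold DD
  refine Dvd.dvd.trans ?_ (Finset.dvd_prod_of_mem _ (Finset.mem_univ a))
  refine Dvd.dvd.trans ?_ (Finset.dvd_prod_of_mem _ (Finset.mem_erase.2 ⟨Ne.symm hne, Finset.mem_univ b⟩))
  exact Int.natCast_dvd.1 h1

/-- the weight of a prime -/
theorem w_ge {p : ℕ} (hp : p.Prime) : (1 : ℝ) ≤ (1 - 1 / (p : ℝ))⁻¹ := by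
  have h2 : (2 : ℝ) ≤ p := by exact_mod_cast hp.two_le
  have h3 : 1 / (p : ℝ) ≤ 1 / 2 := by
    apply one_div_le_one_div_of_le <;> linarith
  have h4 : (0 : ℝ) < 1 / (p : ℝ) := by positivity
  exact (one_le_inv₀ (by linarith)).2 (by linarith)

theorem prod_le_SG {ι : Type} [Fintype ι] (u : ι → ℤ) (hu : Function.Injective u)
    (P : Finset ℕ) (hP : ∀ p ∈ P, p.Prime) :
    ∏ p ∈ P, ((1 - 1 / (p : ℝ))⁻¹) ^ (Fintype.card ι - cl p u) ≤ SG u := by
  classical
  unfold SG
  have h1 : ∏ p ∈ P, ((1 - 1 / (p : ℝ))⁻¹) ^ (Fintype.card ι - cl p u) =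
      ∏ p ∈ P.filter (fun p => p ∈ (DD u).primeFactors),
        ((1 - 1 / (p : ℝ))⁻¹) ^ (Fintype.card ι - cl p u) := by
    rw [Finset.prod_filter]
    refine Finset.prod_congr rfl fun p hp => ?_
    split_ifs with h
    · rfl
    · rw [cl_full p (hP p hp) u hu h, Nat.sub_self, pow_zero]
  rw [h1]
  refine Finset.prod_le_prod_of_subset_of_one_le (fun p hp => (Finset.mem_filter.1 hp).2) ?_ ?_
  · intro p hp
    have := w_ge (hP p (Finset.mem_filter.1 hp).1)
    positivity
  · intro p hp _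
    exact one_le_pow₀ (w_ge (Nat.prime_of_mem_primeFactors hp))

theorem rt_eq (D : ℕ) (hD : D ≠ 0) : rt D = ∏ p ∈ D.primeFactors, (1 - 1 / (p : ℝ))⁻¹ := by
  unfold rt
  have h1 := Nat.totient_eq_mul_prod_factors D
  have h2 : (Nat.totient D : ℝ) = D * ∏ p ∈ D.primeFactors, (1 - (p : ℝ)⁻¹) := by
    have := congrArg (fun q : ℚ => (q : ℝ)) h1
    push_cast at this
    exact this
  have hD' : (D : ℝ) ≠ 0 := by exact_mod_cast hD
  rw [h2, Finset.prod_inv_distrib]
  simp only [one_div]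
  rw [← div_div, div_self hD', one_div]

theorem prod_le_rt (D : ℕ) (hD : D ≠ 0) (P : Finset ℕ) (hP : ∀ p ∈ P, p.Prime) :
    ∏ p ∈ P, ((1 - 1 / (p : ℝ))⁻¹) ^ (if p ∣ D then 1 else 0) ≤ rt D := by
  classical
  rw [rt_eq D hD]
  have h1 : ∏ p ∈ P, ((1 - 1 / (p : ℝ))⁻¹) ^ (if p ∣ D then 1 else 0) =
      ∏ p ∈ P.filter (fun p => p ∣ D), (1 - 1 / (p : ℝ))⁻¹ := by
    rw [Finset.prod_filter]
    refine Finset.prod_congr rfl fun p _ => ?_
    split_ifs <;> simp
  rw [h1]
  refine Finset.prod_le_prod_of_subset_of_one_le (fun p hp => ?_) ?_ ?_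
  · have := Finset.mem_filter.1 hp
    exact Nat.mem_primeFactors.2 ⟨hP p this.1, this.2, hD⟩
  · intro p hp
    have := w_ge (hP p (Finset.mem_filter.1 hp).1)
    positivity
  · intro p hp _
    exact w_ge (Nat.prime_of_mem_primeFactors hp)

/-- the position of an index -/
def fi : Fin 3 ⊕ Fin 3 → ℕ := Sum.elim (fun i => (i : ℕ)) (fun j => 3 + (j : ℕ))

theorem fi_inj : Function.Injective fi := by
  rintro (i | i) (j | j) h
  · simp only [fi, Sum.elim_inl] at h
    rw [Fin.ext h]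
  · simp only [fi, Sum.elim_inl, Sum.elim_inr] at h
    omega
  · simp only [fi, Sum.elim_inl, Sum.elim_inr] at h
    omega
  · simp only [fi, Sum.elim_inr] at h
    have : (i : ℕ) = j := by omega
    rw [Fin.ext this]

theorem rank6 (p : ℕ) (hp : p.Prime) (t s : Fin 3 → ℕ) (u : Fin 3 ⊕ Fin 3 → ℤ)
    (g : Fin 3 ⊕ Fin 3 → Fin 3 ⊕ Fin 3 → ℤ)
    (hu : ∀ a b, u a - u b = ((six t s a : ℤ) - six t s b) * g a b) :
    cl p (ip t) + cl p (ip s) ≤ cl p u +
      ∑ i : Fin 3, ∑ j : Fin 3, (if p ∣ dd (t i) (s j) then 1 else 0) +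
      ∑ a : Fin 3 ⊕ Fin 3, ∑ b ∈ univ.erase a, (if p ∣ (g a b).natAbs then 1 else 0) := by
  classical
  obtain ⟨R1, -, i1, c1⟩ := exists_rep (univ : Finset (Fin 3)) (fun a => ip t a % (p : ℤ))
  obtain ⟨R2, -, i2, c2⟩ := exists_rep (univ : Finset (Fin 3)) (fun a => ip s a % (p : ℤ))
  rw [← cl_eq] at c1 c2
  set R : Finset (Fin 3 ⊕ Fin 3) := R1.disjSum R2 with hR
  have hRc : R.card = cl p (ip t) + cl p (ip s) := by
    rw [hR, Finset.card_disjSum, c1, c2]
  set E1 : Finset ((Fin 3 ⊕ Fin 3) × (Fin 3 ⊕ Fin 3)) :=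
    ((univ : Finset (Fin 3 × Fin 3)).filter (fun x => p ∣ dd (t x.1) (s x.2))).image
      (fun x => (Sum.inl x.1, Sum.inr x.2)) with hE1
  set E2 : Finset ((Fin 3 ⊕ Fin 3) × (Fin 3 ⊕ Fin 3)) :=
    ((univ : Finset ((Fin 3 ⊕ Fin 3) × (Fin 3 ⊕ Fin 3))).filter
      (fun x => x.2 ≠ x.1 ∧ p ∣ (g x.1 x.2).natAbs)) with hE2
  have h1 := rank_gen R fi fi_inj (fun a => u a % (p : ℤ)) (E1 ∪ E2) (by
    intro a ha b hb hlt hy
    have hne : b ≠ a := fun h => by rw [h] at hlt; exact lt_irrefl _ hlt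
    have h2 : (p : ℤ) ∣ u b - u a := Int.ModEq.dvd (a := u a) (b := u b) (n := p) (Eq.symm hy)
    rw [hu b a] at h2
    rw [Finset.mem_union]
    rcases (Nat.prime_iff_prime_int.1 hp).dvd_or_dvd h2 with h3 | h3
    · left
      have h4 : (six t s a : ℤ) % p = (six t s b : ℤ) % p := by
        have := (Int.modEq_iff_dvd (a := (six t s a : ℤ)) (b := (six t s b : ℤ)) (n := p)).2 h3
        exact this
      rcases a with a | a <;> rcases b with b | b
      · exfalso
        apply hne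
        rw [hR, Finset.inl_mem_disjSum] at ha hb
        exact congrArg Sum.inl (i1 (Finset.mem_coe.2 hb) (Finset.mem_coe.2 ha) h4.symm)
      · exfalso
        simp only [fi, Sum.elim_inl, Sum.elim_inr] at hlt
        omega
      · rw [hE1, Finset.mem_image]
        refine ⟨(b, a), Finset.mem_filter.2 ⟨Finset.mem_univ _, ?_⟩, rfl⟩
        unfold dd
        exact Int.natCast_dvd.1 h3
      · exfalso
        apply hne
        rw [hR, Finset.inr_mem_disjSum] at ha hb
        exact congrArg Sum.inr (i2 (Finset.mem_coe.2 hb) (Finset.mem_coe.2 ha) h4.symm)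
    · right
      exact Finset.mem_filter.2 ⟨Finset.mem_univ _, hne.symm, Int.natCast_dvd.1 h3⟩)
  have h2 : (R.image (fun a => u a % (p : ℤ))).card ≤ cl p u := by
    rw [cl_eq]
    exact Finset.card_le_card (Finset.image_subset_image (Finset.subset_univ _))
  have h3 : E1.card ≤ ∑ i : Fin 3, ∑ j : Fin 3, (if p ∣ dd (t i) (s j) then 1 else 0) := by
    rw [hE1]
    refine Finset.card_image_le.trans ?_
    rw [Finset.card_filter, ← Finset.univ_product_univ, Finset.sum_product]
  have h4 : E2.card ≤ ∑ a : Fin 3 ⊕ Fin 3, ∑ b ∈ univ.erase a,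
      (if p ∣ (g a b).natAbs then 1 else 0) := by
    rw [hE2, Finset.card_filter, ← Finset.univ_product_univ, Finset.sum_product]
    refine Finset.sum_le_sum fun a _ => ?_
    rw [← Finset.filter_ne' univ a, Finset.sum_filter]
    refine Finset.sum_le_sum fun b _ => ?_
    by_cases hb : b ≠ a
    · simp [hb]
    · simp [hb]
  have h5 := Finset.card_union_le E1 E2
  omega

end RkL

open RkL in
theorem rk : S_RK := by
  intro d t s hinj v hv
  classical
  set u : Fin 3 ⊕ Fin 3 → ℤ := fun a => pv v (six t s a) with hu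
  have hfac : ∀ a b, u a - u b = ((six t s a : ℤ) - six t s b) * hh v (six t s a) (six t s b) := by
    intro a b
    have h : ∀ x y : ℕ, pv v x - pv v y = ((x : ℤ) - y) * hh v x y := by
      intro x y
      unfold pv hh
      rw [← Finset.sum_sub_distrib, Finset.mul_sum]
      refine Finset.sum_congr rfl fun k _ => ?_
      have h := (Commute.all (x : ℤ) (y : ℤ)).mul_geom_sum₂ (k : ℕ)
      rw [← mul_sub, ← h]
      ring
    exact h _ _
  have hinjt : Function.Injective (ip t) := by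
    intro i j h
    have h1 : six t s (Sum.inl i) = six t s (Sum.inl j) := by
      unfold ip at h
      exact_mod_cast h
    exact Sum.inl_injective (hinj h1)
  have hinjs : Function.Injective (ip s) := by
    intro i j h
    have h1 : six t s (Sum.inr i) = six t s (Sum.inr j) := by
      unfold ip at h
      exact_mod_cast h
    exact Sum.inr_injective (hinj h1)
  have hdd : ∀ i j, dd (t i) (s j) ≠ 0 := by
    intro i j
    unfold dd
    rw [Int.natAbs_ne_zero, sub_ne_zero]
    intro h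
    have h1 : six t s (Sum.inl i) = six t s (Sum.inr j) := by exact_mod_cast h
    exact absurd (hinj h1) (by simp)
  set P := (DD u).primeFactors with hP
  have hPp : ∀ p ∈ P, p.Prime := fun p hp => Nat.prime_of_mem_primeFactors hp
  set w : ℕ → ℝ := fun p => (1 - 1 / (p : ℝ))⁻¹ with hw
  have hw1 : ∀ p ∈ P, 1 ≤ w p := fun p hp => w_ge (hPp p hp)
  have hw0 : ∀ p ∈ P, 0 ≤ w p := fun p hp => zero_le_one.trans (hw1 p hp)
  have hL : SG u = ∏ p ∈ P, w p ^ (6 - cl p u) := by
    unfold SG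
    rfl
  have b1 : ∏ p ∈ P, w p ^ (3 - cl p (ip t)) ≤ SG (ip t) := prod_le_SG (ip t) hinjt P hPp
  have b2 : ∏ p ∈ P, w p ^ (3 - cl p (ip s)) ≤ SG (ip s) := prod_le_SG (ip s) hinjs P hPp
  have b3 : ∏ p ∈ P, w p ^ (∑ i : Fin 3, ∑ j : Fin 3, (if p ∣ dd (t i) (s j) then 1 else 0)) ≤
      X9 t s := by
    unfold X9
    have e : ∏ p ∈ P, w p ^ (∑ i : Fin 3, ∑ j : Fin 3, (if p ∣ dd (t i) (s j) then 1 else 0)) =
        ∏ i : Fin 3, ∏ j : Fin 3, ∏ p ∈ P, w p ^ (if p ∣ dd (t i) (s j) then 1 else 0) := by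
      rw [Finset.prod_congr rfl fun p _ => Finset.prod_pow_eq_pow_sum .. |>.symm, Finset.prod_comm]
      refine Finset.prod_congr rfl fun i _ => ?_
      rw [Finset.prod_congr rfl fun p _ => Finset.prod_pow_eq_pow_sum .. |>.symm, Finset.prod_comm]
    rw [e]
    refine Finset.prod_le_prod (fun i _ => Finset.prod_nonneg fun j _ =>
      Finset.prod_nonneg fun p hp => pow_nonneg (hw0 p hp) _) fun i _ => ?_
    refine Finset.prod_le_prod (fun j _ => Finset.prod_nonneg fun p hp =>
      pow_nonneg (hw0 p hp) _) fun j _ => ?_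
    exact prod_le_rt _ (hdd i j) P hPp
  have b4 : ∏ p ∈ P, w p ^ (∑ a : Fin 3 ⊕ Fin 3, ∑ b ∈ univ.erase a,
      (if p ∣ (hh v (six t s a) (six t s b)).natAbs then 1 else 0)) ≤
      ∏ a : Fin 3 ⊕ Fin 3, ∏ b ∈ univ.erase a, rt (hh v (six t s a) (six t s b)).natAbs := by
    have e : ∏ p ∈ P, w p ^ (∑ a : Fin 3 ⊕ Fin 3, ∑ b ∈ univ.erase a,
        (if p ∣ (hh v (six t s a) (six t s b)).natAbs then 1 else 0)) =
        ∏ a : Fin 3 ⊕ Fin 3, ∏ b ∈ univ.erase a, ∏ p ∈ P,
          w p ^ (if p ∣ (hh v (six t s a) (six t s b)).natAbs then 1 else 0) := by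
      rw [Finset.prod_congr rfl fun p _ => Finset.prod_pow_eq_pow_sum .. |>.symm, Finset.prod_comm]
      refine Finset.prod_congr rfl fun i _ => ?_
      rw [Finset.prod_congr rfl fun p _ => Finset.prod_pow_eq_pow_sum .. |>.symm, Finset.prod_comm]
    rw [e]
    refine Finset.prod_le_prod (fun i _ => Finset.prod_nonneg fun j _ =>
      Finset.prod_nonneg fun p hp => pow_nonneg (hw0 p hp) _) fun a _ => ?_
    refine Finset.prod_le_prod (fun j _ => Finset.prod_nonneg fun p hp =>
      pow_nonneg (hw0 p hp) _) fun b hb => ?_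
    exact prod_le_rt _ (Int.natAbs_ne_zero.2 (hv a b (Finset.ne_of_mem_erase hb).symm)) P hPp
  have hn : ∀ (f : ℕ → ℕ), 0 ≤ ∏ p ∈ P, w p ^ f p := fun f =>
    Finset.prod_nonneg fun p hp => pow_nonneg (hw0 p hp) _
  have hS1 : 0 ≤ SG (ip t) := (hn _).trans b1
  have hS2 : 0 ≤ SG (ip s) := (hn _).trans b2
  have hS3 : 0 ≤ X9 t s := (hn _).trans b3
  calc SG u = ∏ p ∈ P, w p ^ (6 - cl p u) := hL
    _ ≤ ∏ p ∈ P, (w p ^ (3 - cl p (ip t)) * w p ^ (3 - cl p (ip s)) *
        w p ^ (∑ i : Fin 3, ∑ j : Fin 3, (if p ∣ dd (t i) (s j) then 1 else 0)) *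
        w p ^ (∑ a : Fin 3 ⊕ Fin 3, ∑ b ∈ univ.erase a,
          (if p ∣ (hh v (six t s a) (six t s b)).natAbs then 1 else 0))) := by
        refine Finset.prod_le_prod (fun p hp => pow_nonneg (hw0 p hp) _) fun p hp => ?_
        rw [← pow_add, ← pow_add, ← pow_add]
        refine pow_le_pow_right₀ (hw1 p hp) ?_
        have h1 := rank6 p (hPp p hp) t s u (fun a b => hh v (six t s a) (six t s b)) hfac
        have h2 := cl_le p (ip t)
        have h3 := cl_le p (ip s)
        rw [Fintype.card_fin] at h2 h3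
        beta_reduce at h1
        omega
    _ = (∏ p ∈ P, w p ^ (3 - cl p (ip t))) * (∏ p ∈ P, w p ^ (3 - cl p (ip s))) *
        (∏ p ∈ P, w p ^ (∑ i : Fin 3, ∑ j : Fin 3, (if p ∣ dd (t i) (s j) then 1 else 0))) *
        (∏ p ∈ P, w p ^ (∑ a : Fin 3 ⊕ Fin 3, ∑ b ∈ univ.erase a,
          (if p ∣ (hh v (six t s a) (six t s b)).natAbs then 1 else 0))) := by
        rw [Finset.prod_mul_distrib, Finset.prod_mul_distrib, Finset.prod_mul_distrib]
    _ ≤ _ := mul_le_mul (mul_le_mul (mul_le_mul b1 b2 (hn _) hS1) b3 (hn _)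
        (mul_nonneg hS1 hS2)) b4 (hn _) (mul_nonneg (mul_nonneg hS1 hS2) hS3)

end Pool.Agent.Helper32K9.QA
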