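import Pool.Agent.Helper32K9.QA.Stm
import Pool.Agent.Helper36K9.QA.RtL

/-!
# [RT]
-/

set_option autoImplicit false

namespace Pool.Agent.Helper32K9.QA

open Finset

theorem rt_ok : S_RT := fun k E =>
  ⟨(Real.exp (32 * E)) ^ k, 2 ^ (k + 1), by positivity, by positivity, fun X hX D hD hDX =>
    Pool.Agent.Helper36K9.QA.rt_le k E X hX D hD hDX⟩

end Pool.Agent.Helper32K9.QA
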