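import Pool.Agent.Helper32K9.QA.Stm
import Pool.Agent.Helper36K9.QA.RtM

/-!
# [RTI]
-/

set_option autoImplicit false

namespace Pool.Agent.Helper32K9.QA

open Finset

theorem rti : S_RTI := fun k => Pool.Agent.Helper36K9.QA.rti_le k

end Pool.Agent.Helper32K9.QA
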