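import Pool.Agent.Helper32K9.QA.Stm

/-!
# the mean value over the differences of the primes
-/

set_option autoImplicit false

namespace Pool.Agent.Helper32K9.QA

open Finset Pool.Agent.Helper82K9.PR

theorem rtp : S_RT → S_RTS → S_BT → S_PSZ → S_RTP := by
  intro hRT hRTS hBT hPSZ k E
  obtain ⟨E1, hE1⟩ := hPSZ
  obtain ⟨C1, K, hC1, hK, h1⟩ := hRT k (max E E1)
  obtain ⟨C2, hC2, h2⟩ := hRTS.1 K hK
  obtain ⟨C3, hC3, h3⟩ := hBT
  refine ⟨C1 * (C3 * C2), by positivity, fun n hn y hy => ?_⟩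
  classical
  set U := Nat.divisors (primorial ⌊Real.log n / 8⌋₊) with hU
  have hmono : ∀ {i j : ℕ}, i ≤ j → pr i ≤ pr j := by
    intro i j h
    unfold pr
    exact Nat.nth_monotone Nat.infinite_setOfPred_prime (by omega)
  have hge : ∀ j : ℕ, j ≤ pr j := by
    intro j
    unfold pr
    have := Nat.add_two_le_nth_prime (j - 1)
    omega
  have hD : ∀ j ∈ (Icc 1 n).filter (fun j => pr j ≠ y), rt (dd (pr j) y) ^ k ≤
      C1 * ∑ u ∈ U.filter (fun u => u ∣ dd (pr j) y), K ^ u.primeFactors.card / (u : ℝ) := by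
    intro j hj
    rw [Finset.mem_filter, Finset.mem_Icc] at hj
    refine h1 n hn _ ?_ ?_
    · unfold dd
      have := hj.2
      omega
    · have e1 : pr j ≤ n ^ max E E1 := by
        refine (hmono hj.1.2).trans ((hge _).trans ((hE1 n hn).trans ?_))
        exact Nat.pow_le_pow_right (by omega) (le_max_right _ _)
      have e2 : y ≤ n ^ max E E1 := hy.trans (Nat.pow_le_pow_right (by omega) (le_max_left _ _))
      unfold dd
      omega
  refine (Finset.sum_le_sum hD).trans ?_
  rw [← Finset.mul_sum, mul_assoc]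
  refine mul_le_mul_of_nonneg_left ?_ hC1.le
  have hsw : ∑ j ∈ (Icc 1 n).filter (fun j => pr j ≠ y),
      ∑ u ∈ U.filter (fun u => u ∣ dd (pr j) y), K ^ u.primeFactors.card / (u : ℝ) =
      ∑ u ∈ U, (((Icc 1 n).filter (fun j => pr j ≠ y)).filter (fun j => u ∣ dd (pr j) y)).card *
        (K ^ u.primeFactors.card / (u : ℝ)) := by
    simp only [Finset.sum_filter (s := U)]
    rw [Finset.sum_comm]
    refine Finset.sum_congr rfl fun u _ => ?_
    rw [← Finset.sum_filter, Finset.sum_const, nsmul_eq_mul]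
  rw [hsw]
  have hu : ∀ u ∈ U, ((((Icc 1 n).filter (fun j => pr j ≠ y)).filter
      (fun j => u ∣ dd (pr j) y)).card : ℝ) * (K ^ u.primeFactors.card / (u : ℝ)) ≤
      (C3 * n) * (K ^ u.primeFactors.card / ((u : ℝ) * Nat.totient u)) := by
    intro u hu
    have hu1 : 1 ≤ u := Nat.pos_of_mem_divisors hu
    have e1 := h3 n u hu1 (hRTS.2 n hn u hu) (y : ℤ)
    have e2 : ((((Icc 1 n).filter (fun j => pr j ≠ y)).filter
        (fun j => u ∣ dd (pr j) y)).card : ℝ) ≤ C3 * n / Nat.totient u := by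
      refine le_trans ?_ e1
      have : ((Icc 1 n).filter (fun j => pr j ≠ y)).filter (fun j => u ∣ dd (pr j) y) ⊆
          (Icc 1 n).filter (fun k => (u : ℤ) ∣ (pr k : ℤ) - y) := by
        intro j hj
        rw [Finset.mem_filter, Finset.mem_filter] at hj
        rw [Finset.mem_filter]
        exact ⟨hj.1.1, Int.natCast_dvd.2 hj.2⟩
      exact_mod_cast Finset.card_le_card this
    have hu0 : (0 : ℝ) < u := by exact_mod_cast hu1
    have ht0 : (0 : ℝ) < Nat.totient u := by exact_mod_cast Nat.totient_pos.2 hu1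
    calc _ ≤ C3 * n / Nat.totient u * (K ^ u.primeFactors.card / (u : ℝ)) :=
          mul_le_mul_of_nonneg_right e2 (by positivity)
      _ = _ := by
        field_simp
  refine (Finset.sum_le_sum hu).trans ?_
  rw [← Finset.mul_sum]
  calc C3 * n * ∑ u ∈ U, K ^ u.primeFactors.card / ((u : ℝ) * Nat.totient u) ≤ C3 * n * C2 :=
        mul_le_mul_of_nonneg_left (h2 _) (by positivity)
    _ = C3 * C2 * n := by ring

end Pool.Agent.Helper32K9.QA
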