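import Pool.Agent.Helper32K9.QA.Stm
import Pool.Agent.Helper36K9.QA.RtL

/-!
# [RTS]
-/

set_option autoImplicit false

namespace Pool.Agent.Helper32K9.QA

open Finset

theorem rts : S_RTS :=
  ⟨fun K hK => ⟨Real.exp K, Real.exp_pos K, fun z => Pool.Agent.Helper36K9.QA.sum_pri hK z⟩,
    fun X hX u hu => Pool.Agent.Helper36K9.QA.div_small X hX u hu⟩

end Pool.Agent.Helper32K9.QA
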