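import Pool.Agent.Helper32K9.QA.SmL

/-!
# The second moment
-/

set_option autoImplicit false

namespace Pool.Agent.Helper32K9.QA

open Finset Filter Pool.Agent.Helper82K9.PR Pool.Agent.Helper32K9.QA.SmL

theorem sm : S_FM → S_PAIR → S_BAD → S_CRS → S_PSZ → S_SM := by
  intro hFM hPAIR hBAD hCRS hPSZ d B hd
  obtain ⟨E, hE⟩ := hPSZ
  obtain ⟨H1, hFM⟩ := hFM d (B * E) hd
  obtain ⟨C1, hC1, H2, hP⟩ := hPAIR d (B * E) hd
  obtain ⟨C2, hC2, H3, hC⟩ := hCRS B
  have hlog : Tendsto (fun n : ℕ => Real.log n) atTop atTop := Real.tendsto_log_atTop.comp tendsto_natCast_atTop_atTop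
  have hlll : Tendsto (fun n : ℕ => Real.log (Real.log (Real.log n))) atTop atTop :=
    Real.tendsto_log_atTop.comp (Real.tendsto_log_atTop.comp hlog)
  obtain ⟨H4, h4⟩ := ((hlll.eventually_ge_atTop 1).and (hlog.eventually_ge_atTop 1)).exists_forall_of_atTop
  refine ⟨C1 * C2 + 18, by positivity, max (max H1 H2) (max H3 H4), fun H hH n hn hnB => ?_⟩
  have g1 : H1 ≤ H := (le_max_left _ _).trans ((le_max_left _ _).trans hH)
  have g2 : H2 ≤ H := (le_max_right _ _).trans ((le_max_left _ _).trans hH)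
  have g3 : H3 ≤ H := (le_max_left _ _).trans ((le_max_right _ _).trans hH)
  have g4 : H4 ≤ H := (le_max_right _ _).trans ((le_max_right _ _).trans hH)
  obtain ⟨h5, h6⟩ := h4 H g4
  obtain ⟨hB1, hB2, hB3⟩ := hBAD
  have hEn := hE n (by omega)
  set L := Real.log H with hL
  have hL0 : 0 ≤ L := by linarith
  set N : ℝ := ((Bx d H).card : ℝ) with hN
  have hN0 : 0 ≤ N := Nat.cast_nonneg _
  set w : ℕ → ℝ := fun m => (SG (ip (T n m)))⁻¹ with hw
  have hw0 : ∀ m, 0 < w m := fun m => inv_pos.2 (lt_of_lt_of_le one_pos (one_le_SG _))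
  have hw1 : ∀ m, w m ≤ 1 := fun m => inv_le_one_of_one_le₀ (one_le_SG _)
  have hwS : ∀ m, w m * SG (ip (T n m)) = 1 := fun m => inv_mul_cancel₀ (lt_of_lt_of_le one_pos (one_le_SG _)).ne'
  -- expand
  have e1 : ∑ v ∈ Bx d H, (∑ m ∈ Ms n, w m * F3 L (T n m) v) ^ 2 =
      ∑ m ∈ Ms n, ∑ m' ∈ Ms n, w m * w m' * ∑ v ∈ Bx d H, F3 L (T n m) v * F3 L (T n m') v := by
    have : ∀ v ∈ Bx d H, (∑ m ∈ Ms n, w m * F3 L (T n m) v) ^ 2 =
        ∑ m ∈ Ms n, ∑ m' ∈ Ms n, w m * w m' * (F3 L (T n m) v * F3 L (T n m') v) := by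
      intro v _
      rw [sq, sum_mul_sum]
      exact sum_congr rfl fun m _ => sum_congr rfl fun m' _ => by ring
    rw [sum_congr rfl this, sum_comm]
    apply sum_congr rfl
    intro m _
    rw [sum_comm]
    apply sum_congr rfl
    intro m' _
    rw [mul_sum]
  rw [e1]
  -- good pairs
  have hgood : ∀ m ∈ Ms n, ∀ m' ∈ (Ms n).filter (fun m' => Good n m m'),
      w m * w m' * ∑ v ∈ Bx d H, F3 L (T n m) v * F3 L (T n m') v ≤ C1 * N * X9 (T n m) (T n m') := by
    intro m hm m' hm'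
    rw [mem_filter] at hm'
    have h7 := hP H g2 (T n m) (T n m') (hB3 n m m' hm hm'.1 hm'.2) (by
      intro a
      rcases a with a | a
      · exact T_log hEn hnB hm a
      · exact T_log hEn hnB hm'.1 a)
    calc w m * w m' * ∑ v ∈ Bx d H, F3 L (T n m) v * F3 L (T n m') v
        ≤ w m * w m' * (C1 * N * (SG (ip (T n m)) * SG (ip (T n m')) * X9 (T n m) (T n m'))) := by
          apply mul_le_mul_of_nonneg_left h7
          have := hw0 m
          have := hw0 m'
          positivity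
      _ = (w m * SG (ip (T n m))) * (w m' * SG (ip (T n m'))) * (C1 * N * X9 (T n m) (T n m')) := by ring
      _ = C1 * N * X9 (T n m) (T n m') := by rw [hwS, hwS]; ring
  -- bad pairs
  have hbad : ∀ m ∈ Ms n, ∀ m' ∈ (Ms n).filter (fun m' => ¬ Good n m m'),
      w m * w m' * ∑ v ∈ Bx d H, F3 L (T n m) v * F3 L (T n m') v ≤ 2 * N * L ^ 3 := by
    intro m hm m' _
    have h7 := (hFM H g1 (T n m) (hB1 n m hm).1 (fun a => T_log hEn hnB hm a)).2
    have h8 : ∑ v ∈ Bx d H, F3 L (T n m) v * F3 L (T n m') v ≤ (2 * SG (ip (T n m)) * N) * L ^ 3 := by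
      calc ∑ v ∈ Bx d H, F3 L (T n m) v * F3 L (T n m') v ≤ ∑ v ∈ Bx d H, F3 L (T n m) v * L ^ 3 :=
            sum_le_sum fun v _ => mul_le_mul_of_nonneg_left (F3_le hL0 _ _) (F3_nonneg hL0 _ _)
        _ = (∑ v ∈ Bx d H, F3 L (T n m) v) * L ^ 3 := by rw [sum_mul]
        _ ≤ _ := by
          apply mul_le_mul_of_nonneg_right h7
          positivity
    have hSG := one_le_SG (ip (T n m))
    have hS0 : 0 ≤ ∑ v ∈ Bx d H, F3 L (T n m) v * F3 L (T n m') v :=
      sum_nonneg fun v _ => mul_nonneg (F3_nonneg hL0 _ _) (F3_nonneg hL0 _ _)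
    calc w m * w m' * ∑ v ∈ Bx d H, F3 L (T n m) v * F3 L (T n m') v
        ≤ w m * 1 * ∑ v ∈ Bx d H, F3 L (T n m) v * F3 L (T n m') v := by
          apply mul_le_mul_of_nonneg_right _ hS0
          exact mul_le_mul_of_nonneg_left (hw1 m') (hw0 m).le
      _ ≤ w m * 1 * ((2 * SG (ip (T n m)) * N) * L ^ 3) := by
          apply mul_le_mul_of_nonneg_left h8
          rw [mul_one]
          exact (hw0 m).le
      _ = (w m * SG (ip (T n m))) * (2 * N * L ^ 3) := by ring
      _ = 2 * N * L ^ 3 := by rw [hwS, one_mul]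
  have hsplit : ∀ m ∈ Ms n, ∑ m' ∈ Ms n, w m * w m' * ∑ v ∈ Bx d H, F3 L (T n m) v * F3 L (T n m') v ≤
      C1 * N * ∑ m' ∈ (Ms n).filter (fun m' => Good n m m'), X9 (T n m) (T n m') + 18 * N * L ^ 3 := by
    intro m hm
    rw [← sum_filter_add_sum_filter_not (Ms n) (fun m' => Good n m m')]
    apply add_le_add
    · rw [mul_sum]
      exact sum_le_sum (hgood m hm)
    · calc ∑ m' ∈ (Ms n).filter (fun m' => ¬ Good n m m'),
            w m * w m' * ∑ v ∈ Bx d H, F3 L (T n m) v * F3 L (T n m') v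
          ≤ ∑ m' ∈ (Ms n).filter (fun m' => ¬ Good n m m'), 2 * N * L ^ 3 := sum_le_sum (hbad m hm)
        _ = (((Ms n).filter (fun m' => ¬ Good n m m')).card : ℝ) * (2 * N * L ^ 3) := by
          rw [sum_const, nsmul_eq_mul]
        _ ≤ 9 * (2 * N * L ^ 3) := by
          apply mul_le_mul_of_nonneg_right _ (by positivity)
          exact_mod_cast (hB1 n m hm).2
        _ = 18 * N * L ^ 3 := by ring
  have hcardM : ((Ms n).card : ℝ) ≤ n := by
    have : (Ms n).card ≤ (Ico 1 n).card := card_filter_le _ _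
    rw [Nat.card_Ico] at this
    exact_mod_cast this.trans (Nat.sub_le _ _)
  have hcrs := hC H g3 n hn hnB
  calc ∑ m ∈ Ms n, ∑ m' ∈ Ms n, w m * w m' * ∑ v ∈ Bx d H, F3 L (T n m) v * F3 L (T n m') v
      ≤ ∑ m ∈ Ms n, (C1 * N * ∑ m' ∈ (Ms n).filter (fun m' => Good n m m'), X9 (T n m) (T n m') + 18 * N * L ^ 3) :=
        sum_le_sum hsplit
    _ = C1 * N * ∑ m ∈ Ms n, ∑ m' ∈ (Ms n).filter (fun m' => Good n m m'), X9 (T n m) (T n m') +
        ((Ms n).card : ℝ) * (18 * N * L ^ 3) := by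
        rw [sum_add_distrib, ← mul_sum, sum_const, nsmul_eq_mul]
    _ ≤ C1 * N * (C2 * (n : ℝ) ^ 2 * Real.log (Real.log L)) + n * (18 * N * L ^ 3) := by
        apply add_le_add
        · exact mul_le_mul_of_nonneg_left hcrs (by positivity)
        · apply mul_le_mul_of_nonneg_right hcardM (by positivity)
    _ ≤ (C1 * C2 + 18) * N * ((n : ℝ) ^ 2 * Real.log (Real.log L) + n * L ^ 3) := by
        have a1 : 0 ≤ N * ((n : ℝ) ^ 2 * Real.log (Real.log L)) := by
          apply mul_nonneg hN0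
          apply mul_nonneg (by positivity)
          linarith
        have a2 : 0 ≤ C1 * C2 * (N * (n * L ^ 3)) := by positivity
        nlinarith

end Pool.Agent.Helper32K9.QA
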