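import Pool.Agent.Helper32K9.QA.Stm

/-!
# Elementary facts on the points and the weights
-/

set_option autoImplicit false

namespace Pool.Agent.Helper32K9.QA.SmL

open Finset Pool.Agent.Helper82K9.PR Pool.Agent.Helper32K9.QA

lemma pr_prime (j : ℕ) : (pr j).Prime := Nat.prime_nth_prime _

lemma pr_mono {i j : ℕ} (h : i ≤ j) : pr i ≤ pr j := by
  unfold pr
  exact Nat.nth_monotone Nat.infinite_setOfPred_prime (by omega)

lemma pr_ge (j : ℕ) : j ≤ pr j := by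
  unfold pr
  have := Nat.add_two_le_nth_prime (j - 1)
  omega

lemma T_bd {n m : ℕ} (hm : m ∈ Ms n) (a : Fin 3) : 1 ≤ T n m a ∧ T n m a ≤ pr (pr n) := by
  unfold Ms at hm
  rw [mem_filter, mem_Ico] at hm
  have h1 : pr n ≤ pr (pr n) := pr_mono (pr_ge n)
  have h2 : pr (n - m) ≤ pr n := pr_mono (by omega)
  have h3 : pr m ≤ pr n := pr_mono (by omega)
  have h4 : pr (pr m) ≤ pr (pr n) := pr_mono h3
  unfold T
  fin_cases a
  · exact ⟨(pr_prime _).one_lt.le, h2.trans h1⟩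
  · exact ⟨(pr_prime _).one_lt.le, h3.trans h1⟩
  · exact ⟨(pr_prime _).one_lt.le, h4⟩

lemma one_le_SG {ι : Type} [Fintype ι] (u : ι → ℤ) : 1 ≤ SG u := by
  unfold SG
  have h : ∀ p ∈ (DD u).primeFactors, (1 : ℝ) ≤ ((1 - 1 / (p : ℝ))⁻¹) ^ (Fintype.card ι - cl p u) := by
    intro p hp
    have hp2 : (2 : ℝ) ≤ p := by exact_mod_cast (Nat.prime_of_mem_primeFactors hp).two_le
    have h1 : (1 : ℝ) / p ≤ 1 / 2 := by apply one_div_le_one_div_of_le <;> linarith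
    have h2 : (0 : ℝ) < 1 / p := by positivity
    apply one_le_pow₀
    rw [one_le_inv₀ (by linarith)]
    linarith
  calc (1 : ℝ) = ∏ p ∈ (DD u).primeFactors, (1 : ℝ) := by simp
    _ ≤ _ := prod_le_prod (fun _ _ => zero_le_one) h

lemma F3_nonneg {d : ℕ} {L : ℝ} (hL : 0 ≤ L) (t : Fin 3 → ℕ) (v : Fin (d + 1) → ℤ) : 0 ≤ F3 L t v := by
  unfold F3
  exact prod_nonneg fun a _ => om_nonneg hL _

lemma F3_le {d : ℕ} {L : ℝ} (hL : 0 ≤ L) (t : Fin 3 → ℕ) (v : Fin (d + 1) → ℤ) : F3 L t v ≤ L ^ 3 := by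
  unfold F3
  calc ∏ a, om L (pv v (t a)) ≤ ∏ _a : Fin 3, L := prod_le_prod (fun a _ => om_nonneg hL _) (fun a _ => om_le hL _)
    _ = L ^ 3 := by simp

lemma F3_eq {d : ℕ} (L : ℝ) (t : Fin 3 → ℕ) (v : Fin (d + 1) → ℤ) [Decidable (∀ i, (pv v (t i)).natAbs.Prime)] :
    F3 L t v = if (∀ i, (pv v (t i)).natAbs.Prime) then L ^ 3 else 0 := by
  unfold F3 om
  by_cases h : ∀ i, (pv v (t i)).natAbs.Prime
  · rw [if_pos h]
    have : ∀ a ∈ (univ : Finset (Fin 3)), (if (pv v (t a)).natAbs.Prime then L else 0) = L := fun a _ => if_pos (h a)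
    rw [prod_congr rfl this]
    simp
  · rw [if_neg h]
    push Not at h
    obtain ⟨i, hi⟩ := h
    exact prod_eq_zero (mem_univ i) (if_neg hi)

/-- the size of the points in terms of the logarithm -/
lemma T_log {B E n : ℕ} {L : ℝ} (hE : pr (pr n) ≤ n ^ E) (hn : (n : ℝ) ≤ L ^ B) {m : ℕ} (hm : m ∈ Ms n) (a : Fin 3) :
    1 ≤ T n m a ∧ (T n m a : ℝ) ≤ L ^ (B * E) := by
  obtain ⟨h1, h2⟩ := T_bd hm a
  refine ⟨h1, ?_⟩
  have h3 : (T n m a : ℝ) ≤ (n : ℝ) ^ E := by exact_mod_cast h2.trans hE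
  refine h3.trans ?_
  rw [pow_mul]
  exact pow_le_pow_left₀ (Nat.cast_nonneg _) hn _

end Pool.Agent.Helper32K9.QA.SmL
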