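import Pool.Agent.Helper82K9.PR.PR9

/-!
# Prime values of almost all polynomials at the points of the problem: definitions and statements

Blueprint (MP_04ff0f_nt). For `H` large, `L = log H`, `n ≤ L ^ B`, polynomials `v` of degree at most `d`, `d ≥ 2`, with
coefficients at most `H` (`Bx d H`, value `pv v t`). For each `m` we have three points `p_(n-m), p_m, p_(p_m)`. The mean
value over `v` of `L ^ 3` times the indicator function of three prime values is about `SG` of the three points (Siegel -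
Walfisz, from `PR3.multi`), and the mean value for six points is at most a constant times the product of the two `SG` and
of the `D / φ(D)` of the nine differences (sieve in the constant coefficient).
-/

set_option autoImplicit false

namespace Pool.Agent.Helper32K9.QA

open Finset Pool.Agent.Helper82K9.PR

/-- `D / φ(D)` -/
noncomputable def rt (D : ℕ) : ℝ := (D : ℝ) / Nat.totient D

/-- the distance of two numbers -/
def dd (a b : ℤ) : ℕ := (a - b).natAbs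

/-- the number of residue classes modulo `p` which contain one of the `u a` -/
noncomputable def cl {ι : Type} [Fintype ι] (p : ℕ) (u : ι → ℤ) : ℕ := by
  classical
  exact (univ.image (fun a => u a % (p : ℤ))).card

/-- the product of the differences -/
noncomputable def DD {ι : Type} [Fintype ι] (u : ι → ℤ) : ℕ := by
  classical
  exact ∏ a : ι, ∏ b ∈ univ.erase a, dd (u a) (u b)

/-- the product over all primes of `(1 - 1 / p) ^ (ν - k)`, `ν` the number of the residue classes of the `k` numbers -/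
noncomputable def SG {ι : Type} [Fintype ι] (u : ι → ℤ) : ℝ :=
  ∏ p ∈ (DD u).primeFactors, ((1 - 1 / (p : ℝ))⁻¹) ^ (Fintype.card ι - cl p u)

/-- the points as integers -/
def ip {ι : Type} (t : ι → ℕ) : ι → ℤ := fun a => (t a : ℤ)

/-- the quotient of the difference of the values by the difference of the points -/
def hh {d : ℕ} (v : Fin (d + 1) → ℤ) (x y : ℕ) : ℤ :=
  ∑ k : Fin (d + 1), v k * ∑ l ∈ range (k : ℕ), (x : ℤ) ^ l * (y : ℤ) ^ ((k : ℕ) - 1 - l)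

/-- the six points -/
def six (t s : Fin 3 → ℕ) : Fin 3 ⊕ Fin 3 → ℕ := Sum.elim t s

/-- the product of `L` times the indicator functions of prime values at three points -/
noncomputable def F3 {d : ℕ} (L : ℝ) (t : Fin 3 → ℕ) (v : Fin (d + 1) → ℤ) : ℝ := ∏ a, om L (pv v (t a))

/-- the `j`-th prime, the first one is `2` -/
noncomputable def pr (j : ℕ) : ℕ := Nat.nth Nat.Prime (j - 1)

/-- the three points of the problem -/
noncomputable def T (n m : ℕ) : Fin 3 → ℕ := ![pr (n - m), pr m, pr (pr m)]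

/-- the `m` for which the points are different -/
noncomputable def Ms (n : ℕ) : Finset ℕ := (Ico 1 n).filter (fun m => 2 * m ≠ n ∧ m + pr m ≠ n)

/-- six different points -/
def Good (n m m' : ℕ) : Prop := ∀ i j : Fin 3, T n m i ≠ T n m' j

noncomputable instance (n m m' : ℕ) : Decidable (Good n m m') := by
  unfold Good
  infer_instance

/-- the product of `D / φ(D)` over the nine differences -/
noncomputable def X9 (t s : Fin 3 → ℕ) : ℝ := ∏ i, ∏ j, rt (dd (t i) (s j))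

/-! ## Statements -/

/-- [FUB] averaging over one coefficient. -/
def S_FUB : Prop := ∀ (d H : ℕ) (i : Fin (d + 1)) (F : (Fin (d + 1) → ℤ) → ℝ),
  ∑ v ∈ Bx d H, F v = (1 / (2 * (H : ℝ) + 1)) * ∑ v ∈ Bx d H, ∑ c ∈ Icc (-(H : ℤ)) H, F (Function.update v i c)

/-- [TAU] For three different points there is a `τ` which lies modulo every prime in the class in which two of the points
are, if there is one (for three points there is at most one such class). Chinese remainder theorem over the prime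
factors of `DD`. -/
def S_TAU : Prop := ∀ t : Fin 3 → ℕ, Function.Injective t → ∃ τ : ℕ, ∀ p : ℕ, p.Prime → ∀ a b : Fin 3, a ≠ b →
  (p : ℤ) ∣ (t a : ℤ) - t b → (p : ℤ) ∣ (τ : ℤ) - t a

/-- [PBE] From [TAU]: the mean value of `PB` (with modulus `1`, i.e. `mo 1 t a` = product of the distances of the point `a` from the
others). We have `PB = ∏ rt (mo 1 t a)` if `P(τ)` is coprime to `DD` and `0` otherwise; use [FUB] with `i = 0`: the number of the `c`
with `c + u` coprime to `q` is `φ(q)/q (2H+1)` up to `q`. Note `∏ rt (mo 1 t a) φ(DD)/DD = SG`: at a prime `p` with exactly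
two points in one class both are `(1-1/p)^(-1)`, with all three in one class both are `(1-1/p)^(-2)`. -/
def S_PBE : Prop := ∀ d B : ℕ, 2 ≤ d → ∃ H₀ : ℕ, ∀ H : ℕ, H₀ ≤ H → ∀ t : Fin 3 → ℕ, Function.Injective t →
  (∀ a, 1 ≤ t a ∧ (t a : ℝ) ≤ Real.log H ^ B) → ∀ f : Fin 3 → ℤ → ℝ,
  (3 / 4) * SG (ip t) * (Bx d H).card ≤ ∑ v ∈ Bx d H, PB 1 t univ f (fun a => pv v (t a)) ∧
  ∑ v ∈ Bx d H, PB 1 t univ f (fun a => pv v (t a)) ≤ (5 / 4) * SG (ip t) * (Bx d H).card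

/-- [FM] From [PBE] and `multi`: the first moment. -/
def S_FM : Prop := ∀ d B : ℕ, 2 ≤ d → ∃ H₀ : ℕ, ∀ H : ℕ, H₀ ≤ H → ∀ t : Fin 3 → ℕ, Function.Injective t →
  (∀ a, 1 ≤ t a ∧ (t a : ℝ) ≤ Real.log H ^ B) →
  (1 / 2) * SG (ip t) * (Bx d H).card ≤ ∑ v ∈ Bx d H, F3 (Real.log H) t v ∧
  ∑ v ∈ Bx d H, F3 (Real.log H) t v ≤ 2 * SG (ip t) * (Bx d H).card

/-- [SV] The upper bound sieve for `k` shifts (`Pool.Agent.Helper32K9.Mark.fund_int` with `Q p m = ∃ a, p ∣ m - (H+1) + u a`,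
`y = ` a small power of `H`; the `c` with some `|c + u a| ≤ y` are few; `1 - ν / p ≤ (1 - 1 / p) ^ ν`; Mertens). -/
def S_SV : Prop := ∀ (ι : Type) [Fintype ι] [DecidableEq ι], ∃ C : ℝ, 0 < C ∧ ∃ H₀ : ℕ, ∀ H : ℕ, H₀ ≤ H → ∀ u : ι → ℤ,
  Function.Injective u →
  (((Icc (-(H : ℤ)) H).filter (fun c => ∀ a, (c + u a).natAbs.Prime)).card : ℝ) * Real.log H ^ (Fintype.card ι) ≤
    C * (2 * H + 1) * SG u

/-- [RK] The collisions of the six values come from collisions of the points or from the `hh`. At a prime `p`: remove from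
each triple of points as many as there are superfluous ones, then for every other pair of points which coincides modulo
`p` and every pair with `p ∣ hh` one of the two: the remaining values are different modulo `p`. -/
def S_RK : Prop := ∀ (d : ℕ) (t s : Fin 3 → ℕ), Function.Injective (six t s) → ∀ v : Fin (d + 1) → ℤ,
  (∀ a b, a ≠ b → hh v (six t s a) (six t s b) ≠ 0) →
  SG (fun a => pv v (six t s a)) ≤ SG (ip t) * SG (ip s) * X9 t s *
    ∏ a : Fin 3 ⊕ Fin 3, ∏ b ∈ univ.erase a, rt (hh v (six t s a) (six t s b)).natAbs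

/-- [HIJ] The elementary properties of `hh`. -/
def S_HIJ : Prop := (∀ (d : ℕ) (v : Fin (d + 1) → ℤ) (x y : ℕ), pv v x - pv v y = ((x : ℤ) - y) * hh v x y) ∧
  (∀ (d : ℕ) (v : Fin (d + 1) → ℤ) (x y : ℕ) (c : ℤ), hh (Function.update v 0 c) x y = hh v x y) ∧
  (∀ (d : ℕ) (v : Fin (d + 1) → ℤ) (i : Fin (d + 1)), (i : ℕ) = 1 → ∀ (x y : ℕ) (c : ℤ),
    hh (Function.update v i c) x y = hh v x y + (c - v i)) ∧
  (∀ (d B : ℕ), ∃ H₀ : ℕ, ∀ H : ℕ, H₀ ≤ H → ∀ v ∈ Bx d H, ∀ x y : ℕ, (x : ℝ) ≤ Real.log H ^ B → (y : ℝ) ≤ Real.log H ^ B →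
    |hh v x y| ≤ (H : ℤ) ^ 2)

/-- [RT] `D / φ(D)` is essentially a sum over small divisors. With `P0 = ⌊log X / 8⌋`: the primes `> P0` contribute a bounded factor,
and `(1 - 1/p)^(-k) ≤ 1 + K / p`. The bounded `X` are trivial. -/
def S_RT : Prop := ∀ k E : ℕ, ∃ C K : ℝ, 0 < C ∧ 0 < K ∧ ∀ X : ℕ, 2 ≤ X → ∀ D : ℕ, 1 ≤ D → D ≤ X ^ E →
  rt D ^ k ≤ C * ∑ u ∈ (Nat.divisors (primorial ⌊Real.log X / 8⌋₊)).filter (fun u => u ∣ D),
    K ^ u.primeFactors.card / (u : ℝ)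

/-- [RTS] The sum over the divisors; and the divisors are at most `√X` (`primorial z ≤ 4 ^ z`). -/
def S_RTS : Prop := (∀ K : ℝ, 0 < K → ∃ C : ℝ, 0 < C ∧ ∀ z : ℕ,
  ∑ u ∈ Nat.divisors (primorial z), K ^ u.primeFactors.card / ((u : ℝ) * Nat.totient u) ≤ C) ∧
  ∀ X : ℕ, 2 ≤ X → ∀ u ∈ Nat.divisors (primorial ⌊Real.log X / 8⌋₊), u * u ≤ X

/-- [RTI] From [RT], [RTS]: the mean value of `(D / φ(D)) ^ k` over an interval. -/
def S_RTI : Prop := ∀ k : ℕ, ∃ C : ℝ, 0 < C ∧ ∀ H : ℕ, 2 ≤ H → ∀ s : ℤ, |s| ≤ 2 * (H : ℤ) ^ 2 →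
  ∑ a ∈ (Icc (-(H : ℤ)) H).filter (fun a => a + s ≠ 0), rt (a + s).natAbs ^ k ≤ C * (2 * H + 1)

/-- [A1] From [FUB], [HIJ], [RTI]: average over the coefficient `v 1` (arithmetic - geometric mean inequality for the `30`
factors). -/
def S_A1 : Prop := ∀ d B : ℕ, 2 ≤ d → ∃ C : ℝ, 0 < C ∧ ∃ H₀ : ℕ, ∀ H : ℕ, H₀ ≤ H → ∀ t : Fin 3 ⊕ Fin 3 → ℕ,
  Function.Injective t → (∀ a, (t a : ℝ) ≤ Real.log H ^ B) →
  ∑ v ∈ (Bx d H).filter (fun v => ∀ a b, a ≠ b → hh v (t a) (t b) ≠ 0),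
    ∏ a : Fin 3 ⊕ Fin 3, ∏ b ∈ univ.erase a, rt (hh v (t a) (t b)).natAbs ≤ C * (Bx d H).card

/-- [A0] From [FUB], [HIJ]: the polynomials with a coincidence of values are few. -/
def S_A0 : Prop := ∀ d : ℕ, 2 ≤ d → ∀ H : ℕ, ∀ t : Fin 3 ⊕ Fin 3 → ℕ, Function.Injective t →
  (((Bx d H).filter (fun v => ¬ ∀ a b, a ≠ b → hh v (t a) (t b) ≠ 0)).card : ℝ) * (2 * H + 1) ≤ 36 * (Bx d H).card

/-- [PAIR] From [FUB], [SV], [RK], [HIJ], [A1], [A0]: the second moment for two triples. -/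
def S_PAIR : Prop := ∀ d B : ℕ, 2 ≤ d → ∃ C : ℝ, 0 < C ∧ ∃ H₀ : ℕ, ∀ H : ℕ, H₀ ≤ H → ∀ t s : Fin 3 → ℕ,
  Function.Injective (six t s) → (∀ a, 1 ≤ six t s a ∧ (six t s a : ℝ) ≤ Real.log H ^ B) →
  ∑ v ∈ Bx d H, F3 (Real.log H) t v * F3 (Real.log H) s v ≤
    C * (Bx d H).card * (SG (ip t) * SG (ip s) * X9 t s)

/-- [BT] Brun - Titchmarsh for the first `n` primes (if `y` is not coprime to `u` there is at most one such prime). -/
def S_BT : Prop := ∃ C : ℝ, 0 < C ∧ ∀ n u : ℕ, 1 ≤ u → u * u ≤ n → ∀ y : ℤ,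
  (((Icc 1 n).filter (fun k => (u : ℤ) ∣ (pr k : ℤ) - y)).card : ℝ) ≤ C * n / Nat.totient u

/-- [PSZ] The size of the points: `pr (pr n) ≤ n ^ E`. -/
def S_PSZ : Prop := ∃ E : ℕ, ∀ n : ℕ, 2 ≤ n → pr (pr n) ≤ n ^ E

/-- [RTP] From [RT], [RTS], [BT], [PSZ]: the mean value of `(D / φ(D)) ^ k` over the differences of the primes from `y`. -/
def S_RTP : Prop := ∀ k E : ℕ, ∃ C : ℝ, 0 < C ∧ ∀ n : ℕ, 2 ≤ n → ∀ y : ℕ, y ≤ n ^ E →
  ∑ j ∈ (Icc 1 n).filter (fun j => pr j ≠ y), rt (dd (pr j) y) ^ k ≤ C * n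

/-- [RTL] `D / φ(D) ≤ C log log D`. -/
def S_RTL : Prop := ∀ B : ℕ, ∃ C : ℝ, 0 < C ∧ ∃ H₀ : ℕ, ∀ H : ℕ, H₀ ≤ H → ∀ D : ℕ, 1 ≤ D → (D : ℝ) ≤ Real.log H ^ B →
  rt D ≤ C * Real.log (Real.log (Real.log H))

/-- [BAD] There are at most nine `m'` with a coincidence, and the cardinality of `Ms n`. -/
def S_BAD : Prop := (∀ n m : ℕ, m ∈ Ms n → Function.Injective (T n m) ∧
    (((Ms n).filter (fun m' => ¬ Good n m m')).card ≤ 9)) ∧
  (∀ n : ℕ, 4 ≤ n → (n : ℝ) / 4 ≤ (Ms n).card) ∧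
  (∀ n m m' : ℕ, m ∈ Ms n → m' ∈ Ms n → Good n m m' → Function.Injective (six (T n m) (T n m')))

/-- [CRS] From [RTP], [RTL], [PSZ]: the sum over the pairs of the products of the nine factors. The factor of
`p_(p_m) - p_(p_m')` is bounded by [RTL], the others by the arithmetic - geometric mean inequality and [RTP] (in the
variable of a point which runs through the primes). -/
def S_CRS : Prop := ∀ B : ℕ, ∃ C : ℝ, 0 < C ∧ ∃ H₀ : ℕ, ∀ H : ℕ, H₀ ≤ H → ∀ n : ℕ, 4 ≤ n → (n : ℝ) ≤ Real.log H ^ B →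
  ∑ m ∈ Ms n, ∑ m' ∈ (Ms n).filter (fun m' => Good n m m'), X9 (T n m) (T n m') ≤
    C * (n : ℝ) ^ 2 * Real.log (Real.log (Real.log H))

/-- [SM] From [FM], [PAIR], [BAD], [CRS], [PSZ]: the second moment. -/
def S_SM : Prop := ∀ d B : ℕ, 2 ≤ d → ∃ C : ℝ, 0 < C ∧ ∃ H₀ : ℕ, ∀ H : ℕ, H₀ ≤ H → ∀ n : ℕ, 4 ≤ n →
  (n : ℝ) ≤ Real.log H ^ B →
  ∑ v ∈ Bx d H, (∑ m ∈ Ms n, (SG (ip (T n m)))⁻¹ * F3 (Real.log H) (T n m) v) ^ 2 ≤
    C * (Bx d H).card * ((n : ℝ) ^ 2 * Real.log (Real.log (Real.log H)) + n * Real.log H ^ 3)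

/-- [FIN] From [FM], [SM], [BAD], [PSZ]: the theorem (Cauchy - Schwarz). -/
def S_FIN : Prop := ∀ d B : ℕ, 2 ≤ d → ∃ κ : ℝ, 0 < κ ∧ ∃ H₀ : ℕ, ∀ H : ℕ, H₀ ≤ H → ∀ n : ℕ, 4 ≤ n →
  (n : ℝ) ≤ Real.log H ^ B →
  κ * min (n / Real.log H ^ 3) (1 / Real.log (Real.log (Real.log H))) * (Bx d H).card ≤
    (((Bx d H).filter (fun v => κ * n / Real.log H ^ 3 ≤
        (((Ico 1 n).filter (fun m => ∀ i, (pv v (T n m i)).natAbs.Prime)).card : ℝ) ∧
        1 ≤ ((Ico 1 n).filter (fun m => ∀ i, (pv v (T n m i)).natAbs.Prime)).card)).card : ℝ)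

end Pool.Agent.Helper32K9.QA
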