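import Pool.Agent.Helper32K9.QA.Stm
import Pool.Agent.Helper32K9.Mark.Fund
import Pool.Agent.Helper601.Mertens

/-!
# The upper bound sieve for `k` shifts
-/

set_option autoImplicit false

namespace Pool.Agent.Helper32K9.QA

open Finset
open Pool.Agent.W123.RP (Vq)
open Pool.Agent.H373R2.T7 (nuB PerB pz mem_pz)
open Pool.Agent.TH464.PO (Sf)

variable {ι : Type} [Fintype ι]

/-- `p` divides one of the shifts of `c = m - (H + 1)` -/
def Qs (H : ℕ) (u : ι → ℤ) (p m : ℕ) : Prop := ∃ a, (p : ℤ) ∣ (m : ℤ) - (H + 1) + u a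

theorem nuB_Qs (H : ℕ) (u : ι → ℤ) (p : ℕ) (hp : p.Prime) : nuB (Qs H u) p = cl p u := by
  classical
  have hp0 : (0 : ℤ) < p := by exact_mod_cast hp.pos
  unfold nuB cl
  refine Finset.card_bij (fun r _ => ((H : ℤ) + 1 - r) % p) ?_ ?_ ?_
  · intro r hr
    rw [mem_filter] at hr
    obtain ⟨_, a, ha⟩ := hr
    rw [mem_image]
    refine ⟨a, mem_univ _, ?_⟩
    apply Int.ModEq.eq
    rw [Int.modEq_iff_dvd]
    rw [← dvd_neg]
    have e : -((H : ℤ) + 1 - r - u a) = (r : ℤ) - (H + 1) + u a := by ring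
    rw [e]
    exact ha
  · intro r hr s hs h
    rw [mem_filter, mem_range] at hr hs
    have h1 : (H : ℤ) + 1 - r ≡ (H : ℤ) + 1 - s [ZMOD p] := h
    rw [Int.modEq_iff_dvd] at h1
    have e : (H : ℤ) + 1 - s - ((H : ℤ) + 1 - r) = (r : ℤ) - s := by ring
    rw [e] at h1
    have h2 : (s : ℤ) ≡ r [ZMOD p] := Int.modEq_iff_dvd.2 h1
    have h3 : s ≡ r [MOD p] := (Int.natCast_modEq_iff).1 h2
    have h4 : s % p = r % p := h3
    rw [Nat.mod_eq_of_lt hs.1, Nat.mod_eq_of_lt hr.1] at h4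
    exact h4.symm
  · intro z hz
    rw [mem_image] at hz
    obtain ⟨a, _, rfl⟩ := hz
    have h0 : 0 ≤ ((H : ℤ) + 1 - u a) % p := Int.emod_nonneg _ hp0.ne'
    have h1 : ((((H : ℤ) + 1 - u a) % p).toNat : ℤ) = ((H : ℤ) + 1 - u a) % p := Int.toNat_of_nonneg h0
    refine ⟨(((H : ℤ) + 1 - u a) % p).toNat, ?_, ?_⟩
    · rw [mem_filter, mem_range]
      refine ⟨?_, a, ?_⟩
      · have h2 : ((((H : ℤ) + 1 - u a) % p).toNat : ℤ) < p := by
          rw [h1]
          exact Int.emod_lt_of_pos _ hp0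
        exact_mod_cast h2
      · rw [h1]
        have e : ((H : ℤ) + 1 - u a) % p - (H + 1) + u a = -(((H : ℤ) + 1 - u a) - ((H : ℤ) + 1 - u a) % p) := by ring
        rw [e, dvd_neg]
        exact Int.dvd_self_sub_emod
    · rw [h1]
      apply Int.ModEq.eq
      rw [Int.modEq_iff_dvd]
      have e : u a - ((H : ℤ) + 1 - ((H : ℤ) + 1 - u a) % p) =
        -(((H : ℤ) + 1 - u a) - ((H : ℤ) + 1 - u a) % p) := by ring
      rw [e, dvd_neg]
      exact Int.dvd_self_sub_emod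

theorem cl_le (u : ι → ℤ) (p : ℕ) : cl p u ≤ Fintype.card ι := by
  classical
  unfold cl
  exact card_image_le

theorem perB_Qs (H : ℕ) (u : ι → ℤ) : PerB (Qs H u) (Fintype.card ι + 1) := by
  refine ⟨fun p n => ?_, fun p hp => ?_⟩
  · unfold Qs
    refine exists_congr fun a => ?_
    have e : ((n : ℤ) - (H + 1) + u a) = (((n % p : ℕ) : ℤ) - (H + 1) + u a) + ((n : ℤ) - ((n % p : ℕ) : ℤ)) := by ring
    have h : (p : ℤ) ∣ (n : ℤ) - ((n % p : ℕ) : ℤ) := by
      rw [Int.natCast_mod]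
      exact Int.dvd_self_sub_emod
    rw [e]
    exact (dvd_add_left h)
  · rw [nuB_Qs H u p hp]
    have := cl_le u p
    omega

/-- at the primes which do not divide the product of the differences the classes are different -/
theorem cl_eq (u : ι → ℤ) (hu : Function.Injective u) (p : ℕ) (hp : p.Prime) (h : p ∉ (DD u).primeFactors) :
    cl p u = Fintype.card ι := by
  classical
  have h0 : DD u ≠ 0 := by
    unfold DD
    rw [Finset.prod_ne_zero_iff]
    intro a _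
    rw [Finset.prod_ne_zero_iff]
    intro b hb
    have hab : b ≠ a := (mem_erase.1 hb).1
    unfold dd
    intro h1
    rw [Int.natAbs_eq_zero] at h1
    exact hab (hu (by linarith))
  have h1 : ¬ p ∣ DD u := fun h2 => h (Nat.mem_primeFactors.2 ⟨hp, h2, h0⟩)
  unfold cl
  rw [← card_univ]
  apply card_image_of_injective
  intro a b hab
  by_contra hne
  apply h1
  unfold DD
  have h2 : (p : ℤ) ∣ u a - u b := by
    have h3 : u b ≡ u a [ZMOD p] := hab.symm
    exact Int.modEq_iff_dvd.1 h3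
  have h3 : p ∣ dd (u a) (u b) := Int.natCast_dvd.1 h2
  have h4 : b ∈ univ.erase a := mem_erase.2 ⟨fun h => hne h.symm, mem_univ b⟩
  have h5 : dd (u a) (u b) ∣ ∏ b ∈ univ.erase a, dd (u a) (u b) :=
    Finset.dvd_prod_of_mem (fun b => dd (u a) (u b)) h4
  exact h3.trans (h5.trans (Finset.dvd_prod_of_mem (fun a => ∏ b ∈ univ.erase a, dd (u a) (u b)) (mem_univ a)))

theorem inv_ge_one (p : ℕ) (hp : p.Prime) : 1 ≤ (1 - 1 / (p : ℝ))⁻¹ := by
  have h2 : (2 : ℝ) ≤ p := by exact_mod_cast hp.two_le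
  have h3 : 1 / (p : ℝ) ≤ 1 / 2 := one_div_le_one_div_of_le (by norm_num) h2
  have h4 : 0 < 1 / (p : ℝ) := by positivity
  rw [one_le_inv₀ (by linarith)]
  linarith

theorem SG_ge_one (u : ι → ℤ) : 1 ≤ SG u := by
  unfold SG
  have h : ∏ p ∈ (DD u).primeFactors, (1 : ℝ) ≤
      ∏ p ∈ (DD u).primeFactors, ((1 - 1 / (p : ℝ))⁻¹) ^ (Fintype.card ι - cl p u) := by
    apply Finset.prod_le_prod
    · intro p _
      norm_num
    · intro p hp
      exact one_le_pow₀ (inv_ge_one p (Nat.prime_of_mem_primeFactors hp))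
  simpa using h

open Classical in
/-- the sieve product -/
theorem Vq_le (H : ℕ) (u : ι → ℤ) (hu : Function.Injective u) (y : ℕ) :
    Vq (Qs H u) y ≤ (∏ p ∈ pz y, (1 - 1 / (p : ℝ))) ^ (Fintype.card ι) * SG u := by
  set k := Fintype.card ι with hk
  have h1 : Vq (Qs H u) y ≤ ∏ p ∈ pz y, ((1 - 1 / (p : ℝ)) ^ k * ((1 - 1 / (p : ℝ))⁻¹) ^ (k - cl p u)) := by
    unfold Vq
    apply Finset.prod_le_prod
    · intro p hp
      exact Pool.Agent.W123.RP.one_sub_nonneg _ p (mem_pz.1 hp).2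
    · intro p hp
      have hpp := (mem_pz.1 hp).2
      rw [nuB_Qs H u p hpp]
      have hp2 : (2 : ℝ) ≤ p := by exact_mod_cast hpp.two_le
      have h3 : 1 / (p : ℝ) ≤ 1 / 2 := one_div_le_one_div_of_le (by norm_num) hp2
      have h4 : 0 < 1 / (p : ℝ) := by positivity
      have h5 : 1 + (cl p u : ℝ) * (-(1 / (p : ℝ))) ≤ (1 + -(1 / (p : ℝ))) ^ (cl p u) :=
        one_add_mul_le_pow (by linarith) _
      have h6 : 1 - 1 / (p : ℝ) ≠ 0 := by linarith
      have h7 : (1 - 1 / (p : ℝ)) ^ k * ((1 - 1 / (p : ℝ))⁻¹) ^ (k - cl p u) = (1 - 1 / (p : ℝ)) ^ (cl p u) := by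
        have h8 : (1 - 1 / (p : ℝ)) ^ k = (1 - 1 / (p : ℝ)) ^ (cl p u) * (1 - 1 / (p : ℝ)) ^ (k - cl p u) := by
          rw [← pow_add, Nat.add_sub_cancel' (cl_le u p)]
        rw [h8, mul_assoc, ← mul_pow, mul_inv_cancel₀ h6, one_pow, mul_one]
      rw [h7]
      have e : 1 - (cl p u : ℝ) / p = 1 + (cl p u : ℝ) * (-(1 / (p : ℝ))) := by ring
      rw [e]
      have e2 : 1 - 1 / (p : ℝ) = 1 + -(1 / (p : ℝ)) := by ring
      rw [e2]
      exact h5
  refine h1.trans ?_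
  rw [Finset.prod_mul_distrib, Finset.prod_pow]
  have hA : 0 ≤ (∏ p ∈ pz y, (1 - 1 / (p : ℝ))) ^ k := by
    apply pow_nonneg
    apply Finset.prod_nonneg
    intro p hp
    have hp2 : (2 : ℝ) ≤ p := by exact_mod_cast (mem_pz.1 hp).2.two_le
    have h3 : 1 / (p : ℝ) ≤ 1 / 2 := one_div_le_one_div_of_le (by norm_num) hp2
    linarith
  apply mul_le_mul_of_nonneg_left _ hA
  set g : ℕ → ℝ := fun p => ((1 - 1 / (p : ℝ))⁻¹) ^ (k - cl p u) with hg
  have h2 : ∏ p ∈ pz y, g p = ∏ p ∈ (DD u).primeFactors ∩ pz y, g p := by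
    symm
    apply Finset.prod_subset inter_subset_right
    intro p hp hnp
    have h3 : p ∉ (DD u).primeFactors := fun h => hnp (mem_inter.2 ⟨h, hp⟩)
    rw [hg]
    simp only
    rw [cl_eq u hu p (mem_pz.1 hp).2 h3, hk, Nat.sub_self, pow_zero]
  have h3 : SG u = (∏ p ∈ (DD u).primeFactors ∩ pz y, g p) * ∏ p ∈ (DD u).primeFactors \ pz y, g p :=
    (Finset.prod_inter_mul_prod_sdiff _ _ _).symm
  rw [h2, h3]
  have h4 : 0 ≤ ∏ p ∈ (DD u).primeFactors ∩ pz y, g p := by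
    apply Finset.prod_nonneg
    intro p hp
    exact pow_nonneg (zero_le_one.trans (inv_ge_one p (Nat.prime_of_mem_primeFactors (mem_inter.1 hp).1))) _
  have h5 : 1 ≤ ∏ p ∈ (DD u).primeFactors \ pz y, g p := by
    have h : ∏ p ∈ (DD u).primeFactors \ pz y, (1 : ℝ) ≤ ∏ p ∈ (DD u).primeFactors \ pz y, g p := by
      apply Finset.prod_le_prod
      · intro p _
        norm_num
      · intro p hp
        exact one_le_pow₀ (inv_ge_one p (Nat.prime_of_mem_primeFactors (mem_sdiff.1 hp).1))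
    simpa using h
  exact le_mul_of_one_le_right h4 h5

theorem mert : ∃ C : ℝ, 0 < C ∧ ∀ y : ℕ, 3 ≤ y → ∏ p ∈ pz y, (1 - 1 / (p : ℝ)) ≤ C / Real.log y := by
  obtain ⟨C, hC⟩ := Pool.Agent.Helper601.Mertens.mertens_inv
  refine ⟨Real.exp C, Real.exp_pos _, fun y hy => ?_⟩
  have h1 := (abs_le.1 (hC y hy)).1
  have hl : 0 < Real.log y := Real.log_pos (by exact_mod_cast (by omega : 1 < y))
  have h2 : ∏ p ∈ pz y, (1 - 1 / (p : ℝ)) ≤ ∏ p ∈ pz y, Real.exp (-(1 / (p : ℝ))) := by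
    apply Finset.prod_le_prod
    · intro p hp
      have hp2 : (2 : ℝ) ≤ p := by exact_mod_cast (mem_pz.1 hp).2.two_le
      have h3 : 1 / (p : ℝ) ≤ 1 / 2 := one_div_le_one_div_of_le (by norm_num) hp2
      linarith
    · intro p _
      have := Real.add_one_le_exp (-(1 / (p : ℝ)))
      linarith
  refine h2.trans ?_
  rw [← Real.exp_sum, Finset.sum_neg_distrib]
  have e : Real.exp C / Real.log y = Real.exp (C - Real.log (Real.log y)) := by
    rw [Real.exp_sub, Real.exp_log hl]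
  rw [e]
  apply Real.exp_le_exp.2
  have h3 : ∑ p ∈ pz y, 1 / (p : ℝ) = ∑ p ∈ (Finset.Icc 1 y).filter Nat.Prime, (1 : ℝ) / p := rfl
  rw [h3]
  linarith

/-- the choice of `y` -/
theorem choice_y (K y₀ : ℕ) (hK : 1 ≤ K) : ∃ H₀ : ℕ, ∀ H : ℕ, H₀ ≤ H → ∃ y : ℕ, y₀ ≤ y ∧ 3 ≤ y ∧ y ^ (2 * K) ≤ H ∧
    Real.log H ≤ 4 * K * Real.log y := by
  refine ⟨(max y₀ 3) ^ (2 * K), fun H hH => ?_⟩
  set P : ℕ → Prop := fun y => y ^ (2 * K) ≤ H with hP
  classical
  set y := Nat.findGreatest P H with hy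
  have hM : max y₀ 3 ≤ H := by
    refine le_trans ?_ hH
    calc max y₀ 3 = (max y₀ 3) ^ 1 := (pow_one _).symm
      _ ≤ _ := Nat.pow_le_pow_right (by omega) (by omega)
  have h1 : max y₀ 3 ≤ y := Nat.le_findGreatest hM hH
  have h2 : P y := Nat.findGreatest_spec hM hH
  have h2' : y ^ (2 * K) ≤ H := h2
  have hyy : y * y ≤ H := by
    refine le_trans ?_ h2'
    rw [← sq]
    exact Nat.pow_le_pow_right (by omega) (by omega)
  have hy3 : 3 ≤ y := by omega
  have h3 : ¬ P (y + 1) := by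
    apply Nat.findGreatest_is_greatest (Nat.lt_succ_self _)
    nlinarith
  have h3' : H < (y + 1) ^ (2 * K) := not_le.1 h3
  refine ⟨y, by omega, hy3, h2, ?_⟩
  have h4 : H ≤ y ^ (4 * K) := by
    calc H ≤ (y + 1) ^ (2 * K) := h3'.le
      _ ≤ (y ^ 2) ^ (2 * K) := Nat.pow_le_pow_left (by nlinarith) _
      _ = y ^ (4 * K) := by rw [← pow_mul]; congr 1; ring
  have h5 : (H : ℝ) ≤ (y : ℝ) ^ (4 * K) := by exact_mod_cast h4
  have h6 : (0 : ℝ) < H := by
    have : 0 < H := by omega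
    exact_mod_cast this
  have h7 := Real.log_le_log h6 h5
  rw [Real.log_pow] at h7
  push_cast at h7
  exact h7

/-- powers of the logarithm are small -/
theorem logpow_small (k : ℕ) : ∃ H₀ : ℕ, ∀ H : ℕ, H₀ ≤ H → Real.log H ^ k ≤ √(H : ℝ) / 3 := by
  have h := (isLittleO_log_rpow_rpow_atTop ((k : ℕ) : ℝ) (show (0 : ℝ) < 1 / 2 by norm_num)).bound
    (c := 1 / 3) (by norm_num)
  obtain ⟨x₀, hx₀⟩ := Filter.eventually_atTop.1 (h.and (Filter.eventually_ge_atTop 1))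
  refine ⟨⌈x₀⌉₊, fun H hH => ?_⟩
  obtain ⟨h1, h2⟩ := hx₀ H ((Nat.le_ceil _).trans (by exact_mod_cast hH))
  have hl : 0 ≤ Real.log H := Real.log_nonneg h2
  rw [Real.rpow_natCast, Real.norm_of_nonneg (by positivity), Real.norm_of_nonneg (by positivity),
    ← Real.sqrt_eq_rpow] at h1
  linarith

open Classical in
/-- the upper bound for the number of the `c` -/
theorem count_le (H y : ℕ) (u : ι → ℤ) :
    ((Icc (-(H : ℤ)) H).filter (fun c => ∀ a, (c + u a).natAbs.Prime)).card ≤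
      ((Ioc 0 (0 + (2 * H + 1))).filter (Sf (Qs H u) y)).card + Fintype.card ι * (2 * y + 1) := by
  have h1 : (Icc (-(H : ℤ)) H).filter (fun c => ∀ a, (c + u a).natAbs.Prime) ⊆
      ((Ioc 0 (0 + (2 * H + 1))).filter (Sf (Qs H u) y)).image (fun m : ℕ => (m : ℤ) - (H + 1)) ∪
      univ.biUnion (fun a : ι => Icc (-u a - y) (-u a + y)) := by
    intro c hc
    rw [mem_filter, mem_Icc] at hc
    obtain ⟨⟨hc1, hc2⟩, hc3⟩ := hc
    rw [mem_union]
    by_cases h : ∃ a, (c + u a).natAbs ≤ y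
    · right
      obtain ⟨a, ha⟩ := h
      rw [mem_biUnion]
      refine ⟨a, mem_univ _, ?_⟩
      rw [mem_Icc]
      omega
    · left
      push Not at h
      rw [mem_image]
      refine ⟨(c + (H + 1)).toNat, ?_, ?_⟩
      · rw [mem_filter, mem_Ioc]
        refine ⟨by omega, ?_⟩
        intro p hp hQ
        obtain ⟨a, ha⟩ := hQ
        have e : (((c + (H + 1)).toNat : ℕ) : ℤ) - (H + 1) + u a = c + u a := by
          rw [Int.toNat_of_nonneg (by omega)]
          ring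
        rw [e] at ha
        have h2 : p ∣ (c + u a).natAbs := Int.natCast_dvd.1 ha
        have h3 := (mem_pz.1 hp)
        have h4 := (Nat.prime_dvd_prime_iff_eq h3.2 (hc3 a)).1 h2
        have h5 := h a
        omega
      · rw [Int.toNat_of_nonneg (by omega)]
        ring
  refine (card_le_card h1).trans ((card_union_le _ _).trans (Nat.add_le_add card_image_le ?_))
  refine card_biUnion_le.trans ?_
  rw [Finset.sum_const_nat (m := 2 * y + 1)]
  · rw [card_univ]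
  · intro a _
    rw [Int.card_Icc]
    omega

theorem sv : S_SV := by
  intro ι _ _
  classical
  set k := Fintype.card ι with hk
  obtain ⟨K, y₀, hK, hF⟩ := Pool.Agent.Helper32K9.Mark.fund_int (k + 1) (by omega) (1 / 4) (by norm_num)
  obtain ⟨C0, hC0, hM⟩ := mert
  obtain ⟨H1, h1⟩ := choice_y K y₀ hK
  obtain ⟨H2, h2⟩ := logpow_small k
  refine ⟨5 / 4 * (4 * K * C0) ^ k + 1 + k, by positivity, max (max H1 H2) 1, fun H hH u hu => ?_⟩
  obtain ⟨y, hy0, hy3, hyH, hly⟩ := h1 H (by omega)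
  have hL := h2 H (by omega)
  have hH1 : 1 ≤ H := by omega
  have hHr : (1 : ℝ) ≤ H := by exact_mod_cast hH1
  set L := Real.log H with hLdef
  have hL0 : 0 ≤ L := Real.log_nonneg hHr
  have hsq : √(H : ℝ) * √(H : ℝ) = H := Real.mul_self_sqrt (by linarith)
  have hs0 : 0 ≤ √(H : ℝ) := Real.sqrt_nonneg _
  have hyK : y ^ K ≤ 2 * H + 1 := by
    have : y ^ K ≤ y ^ (2 * K) := Nat.pow_le_pow_right (by omega) (by omega)
    omega
  have hF' := (abs_le.1 (hF y hy0 0 (2 * H + 1) hyK (Qs H u) (perB_Qs H u))).2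
  have hV := Vq_le H u hu y
  have hcount := count_le H y u
  have hSG := SG_ge_one u
  have hly0 : 0 < Real.log y := Real.log_pos (by exact_mod_cast (by omega : 1 < y))
  have hK0 : (0 : ℝ) < K := by exact_mod_cast hK
  have hM' := hM y hy3
  have hprod0 : 0 ≤ ∏ p ∈ pz y, (1 - 1 / (p : ℝ)) := by
    apply Finset.prod_nonneg
    intro p hp
    have hp2 : (2 : ℝ) ≤ p := by exact_mod_cast (mem_pz.1 hp).2.two_le
    have h3 : 1 / (p : ℝ) ≤ 1 / 2 := one_div_le_one_div_of_le (by norm_num) hp2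
    linarith
  have hV2 : Vq (Qs H u) y * L ^ k ≤ (4 * K * C0) ^ k * SG u := by
    have h3 : (∏ p ∈ pz y, (1 - 1 / (p : ℝ))) * L ≤ 4 * K * C0 := by
      calc (∏ p ∈ pz y, (1 - 1 / (p : ℝ))) * L ≤ (C0 / Real.log y) * (4 * K * Real.log y) := by gcongr
        _ = _ := by field_simp
    calc Vq (Qs H u) y * L ^ k ≤ ((∏ p ∈ pz y, (1 - 1 / (p : ℝ))) ^ k * SG u) * L ^ k := by gcongr
      _ = ((∏ p ∈ pz y, (1 - 1 / (p : ℝ))) * L) ^ k * SG u := by rw [mul_pow]; ring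
      _ ≤ (4 * K * C0) ^ k * SG u := by gcongr
  have hy2 : (y : ℝ) ≤ √(H : ℝ) := by
    apply Real.le_sqrt_of_sq_le
    have h3 : y ^ 2 ≤ y ^ (2 * K) := Nat.pow_le_pow_right (by omega) (by omega)
    exact_mod_cast h3.trans hyH
  have hyr : (3 : ℝ) ≤ y := by exact_mod_cast hy3
  have hE1 : √((2 * H + 1 : ℕ) : ℝ) * L ^ k ≤ 2 * H + 1 := by
    have h3 : √((2 * H + 1 : ℕ) : ℝ) ≤ 2 * √(H : ℝ) := by
      rw [Real.sqrt_le_left (by positivity)]
      push_cast
      nlinarith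
    calc √((2 * H + 1 : ℕ) : ℝ) * L ^ k ≤ (2 * √(H : ℝ)) * (√(H : ℝ) / 3) := by gcongr
      _ = 2 / 3 * (√(H : ℝ) * √(H : ℝ)) := by ring
      _ ≤ _ := by rw [hsq]; linarith
  have hE2 : ((k : ℝ) * (2 * y + 1)) * L ^ k ≤ k * (2 * H + 1) := by
    have h3 : (2 * (y : ℝ) + 1) ≤ 3 * √(H : ℝ) := by linarith
    calc ((k : ℝ) * (2 * y + 1)) * L ^ k ≤ (k * (3 * √(H : ℝ))) * (√(H : ℝ) / 3) := by gcongr
      _ = k * (√(H : ℝ) * √(H : ℝ)) := by ring
      _ ≤ _ := by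
        rw [hsq]
        gcongr
        linarith
  have hcount' : (((Icc (-(H : ℤ)) H).filter (fun c => ∀ a, (c + u a).natAbs.Prime)).card : ℝ) ≤
      (((Ioc 0 (0 + (2 * H + 1))).filter (Sf (Qs H u) y)).card : ℝ) + k * (2 * y + 1) := by
    exact_mod_cast hcount
  have hcV : (((Ioc 0 (0 + (2 * H + 1))).filter (Sf (Qs H u) y)).card : ℝ) ≤
      5 / 4 * ((2 * H + 1) * Vq (Qs H u) y) + √((2 * H + 1 : ℕ) : ℝ) := by
    push_cast at hF' ⊢
    linarith
  have hLk : 0 ≤ L ^ k := by positivity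
  have hV0 : 0 ≤ (4 * K * C0) ^ k := by positivity
  calc (((Icc (-(H : ℤ)) H).filter (fun c => ∀ a, (c + u a).natAbs.Prime)).card : ℝ) * L ^ k
      ≤ (5 / 4 * ((2 * H + 1) * Vq (Qs H u) y) + √((2 * H + 1 : ℕ) : ℝ) + k * (2 * y + 1)) * L ^ k := by
        apply mul_le_mul_of_nonneg_right _ hLk
        linarith
    _ = 5 / 4 * (2 * H + 1) * (Vq (Qs H u) y * L ^ k) + √((2 * H + 1 : ℕ) : ℝ) * L ^ k +
        ((k : ℝ) * (2 * y + 1)) * L ^ k := by ring
    _ ≤ 5 / 4 * (2 * H + 1) * ((4 * K * C0) ^ k * SG u) + (2 * H + 1) + k * (2 * H + 1) := by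
        gcongr
    _ ≤ 5 / 4 * (2 * H + 1) * ((4 * K * C0) ^ k * SG u) + (2 * H + 1) * SG u + k * (2 * H + 1) * SG u := by
        have h3 : (2 * (H : ℝ) + 1) ≤ (2 * H + 1) * SG u := le_mul_of_one_le_right (by positivity) hSG
        have h4 : (k : ℝ) * (2 * (H : ℝ) + 1) ≤ k * (2 * H + 1) * SG u := le_mul_of_one_le_right (by positivity) hSG
        linarith
    _ = _ := by ring

end Pool.Agent.Helper32K9.QA
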