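import Pool.Agent.Helper32K9.QA.Stm

/-!
# CRT for three points
-/

set_option autoImplicit false

namespace Pool.Agent.Helper32K9.QA

open Finset Pool.Agent.Helper82K9.PR

theorem tau : S_TAU := by
  intro t ht
  have h01 : (t 0 : ℤ) - t 1 ≠ 0 := by
    intro h
    have : t 0 = t 1 := by omega
    exact absurd (ht this) (by decide)
  have h02 : (t 0 : ℤ) - t 2 ≠ 0 := by
    intro h
    have : t 0 = t 2 := by omega
    exact absurd (ht this) (by decide)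
  have h12 : (t 1 : ℤ) - t 2 ≠ 0 := by
    intro h
    have : t 1 = t 2 := by omega
    exact absurd (ht this) (by decide)
  classical
  set Q : ℤ := ((t 0 : ℤ) - t 1) * ((t 0 : ℤ) - t 2) * ((t 1 : ℤ) - t 2) with hQ
  have hQ0 : Q ≠ 0 := mul_ne_zero (mul_ne_zero h01 h02) h12
  set c : ℕ → ℕ := fun p => if (p : ℤ) ∣ (t 0 : ℤ) - t 1 then t 0 else
    if (p : ℤ) ∣ (t 0 : ℤ) - t 2 then t 0 else t 1 with hc
  obtain ⟨τ, hτ⟩ := Nat.chineseRemainderOfFinset c (fun p => p) Q.natAbs.primeFactors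
    (fun p hp => (Nat.prime_of_mem_primeFactors hp).ne_zero)
    (fun p hp q hq hpq => (Nat.coprime_primes (Nat.prime_of_mem_primeFactors hp)
      (Nat.prime_of_mem_primeFactors hq)).2 hpq)
  refine ⟨τ, fun p hp a b hab hd => ?_⟩
  have hdQ : (p : ℤ) ∣ Q := by
    rw [hQ]
    fin_cases a <;> fin_cases b <;> simp only [ne_eq, not_true_eq_false] at hab
    · exact (hd.mul_right _).mul_right _
    · exact (hd.mul_left _).mul_right _
    · exact (((dvd_sub_comm).1 hd).mul_right _).mul_right _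
    · exact hd.mul_left _
    · exact (((dvd_sub_comm).1 hd).mul_left _).mul_right _
    · exact ((dvd_sub_comm).1 hd).mul_left _
  have hmem : p ∈ Q.natAbs.primeFactors := by
    rw [Nat.mem_primeFactors]
    exact ⟨hp, Int.natCast_dvd.1 hdQ, Int.natAbs_ne_zero.2 hQ0⟩
  have h1 : (p : ℤ) ∣ (τ : ℤ) - c p := (dvd_sub_comm).1 ((Nat.modEq_iff_dvd).1 (hτ p hmem))
  have h2 : (p : ℤ) ∣ (c p : ℤ) - t a := by
    have key : ((p : ℤ) ∣ (t 0 : ℤ) - t 1 → (p : ℤ) ∣ (c p : ℤ) - t 0 ∧ (p : ℤ) ∣ (c p : ℤ) - t 1) ∧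
        ((p : ℤ) ∣ (t 0 : ℤ) - t 2 → (p : ℤ) ∣ (c p : ℤ) - t 0 ∧ (p : ℤ) ∣ (c p : ℤ) - t 2) ∧
        ((p : ℤ) ∣ (t 1 : ℤ) - t 2 → (p : ℤ) ∣ (c p : ℤ) - t 1 ∧ (p : ℤ) ∣ (c p : ℤ) - t 2) := by
      simp only [hc]
      split_ifs with g1 g2
      · refine ⟨fun h => ⟨by simp, h⟩, fun h => ⟨by simp, h⟩, fun h => ⟨g1, ?_⟩⟩
        have := dvd_add g1 h
        rwa [show (t 0 : ℤ) - t 1 + ((t 1 : ℤ) - t 2) = (t 0 : ℤ) - t 2 by ring] at this
      · refine ⟨fun h => ⟨by simp, h⟩, fun h => ⟨by simp, h⟩, fun h => ⟨?_, g2⟩⟩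
        have := dvd_sub g2 h
        rwa [show (t 0 : ℤ) - t 2 - ((t 1 : ℤ) - t 2) = (t 0 : ℤ) - t 1 by ring] at this
      · exact ⟨fun h => absurd h g1, fun h => absurd h g2, fun h => ⟨by simp, h⟩⟩
    obtain ⟨k1, k2, k3⟩ := key
    fin_cases a <;> fin_cases b <;> simp only [ne_eq, not_true_eq_false] at hab
    · exact (k1 hd).1
    · exact (k2 hd).1
    · exact (k1 ((dvd_sub_comm).1 hd)).2
    · exact (k3 hd).1
    · exact (k2 ((dvd_sub_comm).1 hd)).2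
    · exact (k3 ((dvd_sub_comm).1 hd)).2
  have := dvd_add h1 h2
  simpa using this

end Pool.Agent.Helper32K9.QA
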