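import Pool.Agent.Helper32K9.QA.Th1

/-!
# Averages of products of prime weights with a periodic weight: comparison with the rough weights
-/

set_option autoImplicit false

namespace Pool.Agent.Helper32K9.QA

open Finset Filter Pool.Agent.Helper82K9.PR

lemma prod_model' {ι : Type} [Fintype ι] [DecidableEq ι] (z : ℕ) (t : ι → ℕ) (ht : Function.Injective t) (s : Finset ι)
    (u : ι → ℤ) :
    |PB (primorial z) t s (fun _ => MM (primorial z)) u - ∏ a, MM (primorial z) (u a)| ≤
      (∏ a, MM (primorial z) (u a)) * ((∏ a, GG z (wd t a) - 1) + ∑ a, ∑ p ∈ LP z (wd t a), dv p (u a)) := by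
  classical
  set x : ℝ := ∏ a, (if a ∈ s then GG z (wd t a) * JJ z (wd t a) (u a) else 1) with hx
  have e1 : PB (primorial z) t s (fun _ => MM (primorial z)) u = (∏ a, MM (primorial z) (u a)) * x := by
    unfold PB
    rw [hx, ← prod_mul_distrib]
    apply prod_congr rfl
    intro a _
    by_cases ha : a ∈ s
    · rw [if_pos ha, if_pos ha]
      exact mm_eq z (wd t a) (wd_ne t ht a) (u a)
    · rw [if_neg ha, if_neg ha, mul_one]
  have hP0 : 0 ≤ ∏ a, MM (primorial z) (u a) := prod_nonneg fun a _ => MM_nonneg _ _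
  have hG1 : 1 ≤ ∏ a, GG z (wd t a) := by
    calc (1 : ℝ) = ∏ a : ι, 1 := by rw [prod_const_one]
      _ ≤ _ := Finset.prod_le_prod (fun _ _ => by norm_num) (fun a _ => one_le_GG z _)
  have hS0 : ∀ a : ι, 0 ≤ ∑ p ∈ LP z (wd t a), dv p (u a) := fun a => sum_nonneg fun p _ => dv_nonneg p _
  have hS1 : 0 ≤ ∑ a, ∑ p ∈ LP z (wd t a), dv p (u a) := sum_nonneg fun a _ => hS0 a
  have key : |x - 1| ≤ (∏ a, GG z (wd t a) - 1) + ∑ a, ∑ p ∈ LP z (wd t a), dv p (u a) := by
    by_cases h : ∀ a ∈ s, ∀ p ∈ LP z (wd t a), ¬ (p : ℤ) ∣ u a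
    · have h1 : 1 ≤ x := by
        rw [hx]
        calc (1 : ℝ) = ∏ a : ι, 1 := by rw [prod_const_one]
          _ ≤ _ := by
            apply Finset.prod_le_prod (fun _ _ => by norm_num)
            intro a _
            split_ifs with ha
            · unfold JJ
              rw [if_pos (h a ha), mul_one]
              exact one_le_GG z _
            · exact le_rfl
      have h2 : x ≤ ∏ a, GG z (wd t a) := by
        rw [hx]
        apply Finset.prod_le_prod
        · intro a _
          split_ifs with ha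
          · unfold JJ
            rw [if_pos (h a ha), mul_one]
            exact zero_le_one.trans (one_le_GG z _)
          · norm_num
        · intro a _
          split_ifs with ha
          · unfold JJ
            rw [if_pos (h a ha), mul_one]
          · exact one_le_GG z _
      rw [abs_of_nonneg (by linarith)]
      linarith
    · push Not at h
      obtain ⟨a, ha, p, hp, hpu⟩ := h
      have h1 : x = 0 := by
        rw [hx]
        apply prod_eq_zero (mem_univ a)
        rw [if_pos ha]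
        unfold JJ
        rw [if_neg (fun h => h p hp hpu), mul_zero]
      have h2 : 1 ≤ ∑ a, ∑ p ∈ LP z (wd t a), dv p (u a) := by
        calc (1 : ℝ) = dv p (u a) := by unfold dv; rw [if_pos hpu]
          _ ≤ ∑ p ∈ LP z (wd t a), dv p (u a) := single_le_sum (f := fun p => dv p (u a)) (fun p _ => dv_nonneg p _) hp
          _ ≤ _ := single_le_sum (f := fun a => ∑ p ∈ LP z (wd t a), dv p (u a)) (fun a _ => hS0 a) (mem_univ a)
      rw [h1, zero_sub, abs_neg, abs_one]
      linarith
  have e2 : PB (primorial z) t s (fun _ => MM (primorial z)) u - ∏ a, MM (primorial z) (u a) =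
      (∏ a, MM (primorial z) (u a)) * (x - 1) := by rw [e1]; ring
  rw [e2, abs_mul, abs_of_nonneg hP0]
  exact mul_le_mul_of_nonneg_left key hP0


/-- the average over the polynomials with a value divisible by `p` -/
lemma cnt' (d H p W : ℕ) (hp : p.Prime) (hpW : ¬ p ∣ W) (K : ℝ) (hK : 0 < K) (Ξ : (Fin (d + 1) → ℤ) → ℝ)
    (h0 : ∀ v, 0 ≤ Ξ v) (h1 : ∀ v, Ξ v ≤ K) (hi : ∀ v ρ, Ξ (v + (W : ℤ) • ρ) = Ξ v) (t : ℕ) (g : ℤ) :
    ∑ v ∈ Bx d H, Ξ v * dv p (pv v t + g) ≤ (1 / p) * ∑ v ∈ Bx d H, Ξ v +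
      K * (2 * ((d + 1) * ((W : ℝ) * p) * (2 * H + 1) ^ d)) := by
  classical
  have hpr : (0 : ℝ) < p := by exact_mod_cast hp.pos
  have hpz : (0 : ℤ) < p := by exact_mod_cast hp.pos
  set S := ∑ v ∈ Bx d H, Ξ v * dv p (pv v t + g) with hS
  have hdv1 : ∀ u : ℤ, dv p u ≤ 1 := by intro u; unfold dv; split_ifs <;> norm_num
  have hsh : ∀ c ∈ Icc 1 p, S ≤ ∑ v ∈ Bx d H, Ξ v * dv p (pv v t + g + W * c) +
      K * (2 * ((d + 1) * ((W : ℝ) * p) * (2 * H + 1) ^ d)) := by
    intro c hc
    rw [mem_Icc] at hc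
    have h1 := box_shift d H (fun v => (((Ξ v * dv p (pv v t + g)) / K : ℝ) : ℂ)) (by
      intro v
      rw [Complex.norm_real, Real.norm_of_nonneg (div_nonneg (mul_nonneg (h0 v) (dv_nonneg _ _)) hK.le), div_le_one hK]
      exact (mul_le_of_le_one_right (h0 v) (hdv1 _)).trans (h1 v)) ((W : ℤ) • Pi.single 0 (c : ℤ)) ((W : ℝ) * p) (by
      intro i
      rw [Pi.smul_apply, smul_eq_mul]
      push_cast
      by_cases hi : i = 0
      · subst hi
        rw [Pi.single_eq_same, Int.cast_natCast, abs_of_nonneg (by positivity)]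
        apply mul_le_mul_of_nonneg_left _ (by positivity)
        exact_mod_cast hc.2
      · rw [Pi.single_eq_of_ne hi, Int.cast_zero, mul_zero, abs_zero]
        positivity)
    have e1 : ∀ v : Fin (d + 1) → ℤ, pv (v + (W : ℤ) • Pi.single 0 (c : ℤ)) t = pv v t + W * c := by
      intro v
      rw [pv_smul]
      congr 2
      unfold pv
      rw [sum_eq_single 0]
      · simp
      · intro i _ hi
        rw [Pi.single_eq_of_ne hi, zero_mul]
      · intro h; exact absurd (mem_univ _) h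
    have e3 : ∑ v ∈ Bx d H, (((Ξ v * dv p (pv v t + g)) / K : ℝ) : ℂ) -
        ∑ v ∈ Bx d H, (((Ξ (v + (W : ℤ) • Pi.single 0 (c : ℤ)) * dv p (pv (v + (W : ℤ) • Pi.single 0 (c : ℤ)) t + g)) / K : ℝ) : ℂ) =
        (((S - ∑ v ∈ Bx d H, Ξ v * dv p (pv v t + g + W * c)) / K : ℝ) : ℂ) := by
      rw [← Complex.ofReal_sum, ← Complex.ofReal_sum, ← Complex.ofReal_sub, ← sum_div, ← sum_div, ← sub_div]
      congr 3
      apply sum_congr rfl
      intro v _
      rw [e1, hi]
      congr 2
      ring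
    rw [e3, Complex.norm_real, Real.norm_eq_abs, abs_div, abs_of_pos hK, div_le_iff₀ hK] at h1
    have := (abs_le.1 h1).2
    linarith
  have h2 : p * S ≤ ∑ c ∈ Icc 1 p, ∑ v ∈ Bx d H, Ξ v * dv p (pv v t + g + W * c) +
      p * (K * (2 * ((d + 1) * ((W : ℝ) * p) * (2 * H + 1) ^ d))) := by
    have := sum_le_sum hsh
    rw [sum_const, Nat.card_Icc, Nat.add_sub_cancel, nsmul_eq_mul, sum_add_distrib, sum_const, Nat.card_Icc,
      Nat.add_sub_cancel, nsmul_eq_mul] at this
    exact this
  have h3 : ∑ c ∈ Icc 1 p, ∑ v ∈ Bx d H, Ξ v * dv p (pv v t + g + W * c) ≤ ∑ v ∈ Bx d H, Ξ v := by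
    rw [sum_comm]
    apply sum_le_sum
    intro v _
    rw [← mul_sum]
    apply mul_le_of_le_one_right (h0 v)
    unfold dv
    rw [← sum_filter, sum_const, nsmul_eq_mul, mul_one]
    have : ((Icc 1 p).filter (fun c : ℕ => (p : ℤ) ∣ pv v t + g + W * c)).card ≤ 1 := by
      apply card_le_one.2
      intro a ha b hb
      rw [mem_filter, mem_Icc] at ha hb
      have h4 := dvd_sub ha.2 hb.2
      have h5 : (pv v t + g + (W : ℤ) * a) - (pv v t + g + W * b) = (W : ℤ) * ((a : ℤ) - b) := by ring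
      rw [h5] at h4
      have hpp : Prime (p : ℤ) := Nat.prime_iff_prime_int.1 hp
      rcases hpp.dvd_or_dvd h4 with h4 | h4
      · exact absurd (Int.natCast_dvd_natCast.1 h4) hpW
      · by_contra hab
        have h6 := Int.le_of_dvd (a := (p : ℤ)) (b := |(a : ℤ) - b|) (abs_pos.2 (by omega)) ((dvd_abs _ _).2 h4)
        have h7 : |(a : ℤ) - b| < p := by
          rw [abs_lt]; omega
        omega
    exact_mod_cast this
  have h5 : p * S ≤ p * ((1 / p) * ∑ v ∈ Bx d H, Ξ v + K * (2 * ((d + 1) * ((W : ℝ) * p) * (2 * H + 1) ^ d))) := by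
    rw [mul_add, ← mul_assoc (p : ℝ) (1 / p), mul_one_div, div_self hpr.ne', one_mul]
    linarith
  exact le_of_mul_le_mul_left h5 hpr

end Pool.Agent.Helper32K9.QA
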