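import Pool.Agent.Helper32K9.QA.Th2

/-!
# Averages of products of prime weights and rough weights with a periodic weight
-/

set_option autoImplicit false

namespace Pool.Agent.Helper32K9.QA

open Finset Filter Pool.Agent.Helper82K9.PR

lemma small_delta (d : ℕ) (η : ℝ) (hη : 0 < η) : ∃ δ : ℝ, 0 < δ ∧ δ ≤ 1 ∧ (1 + δ) ^ (d + 1) - 1 ≤ min η (1 / 2) := by
  have h1 : Tendsto (fun δ : ℝ => (1 + δ) ^ (d + 1) - 1) (nhds 0) (nhds 0) := by
    have : ContinuousAt (fun δ : ℝ => (1 + δ) ^ (d + 1) - 1) 0 := by fun_prop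
    have h2 := this.tendsto
    simp only [add_zero, one_pow, sub_self] at h2
    exact h2
  have h2 := (h1.eventually (gt_mem_nhds (lt_min hη (by norm_num : (0 : ℝ) < 1 / 2))))
  have h3 := h2.filter_mono (nhdsWithin_le_nhds (s := Set.Ioi 0))
  have h4 : ∀ᶠ δ : ℝ in nhdsWithin 0 (Set.Ioi 0), δ ∈ Set.Ioo (0:ℝ) 1 := Ioo_mem_nhdsGT one_pos
  obtain ⟨δ, h5, h6⟩ := (h3.and h4).exists
  exact ⟨δ, h6.1, h6.2.le, h5.le⟩

theorem comb' (d B0 W0 A : ℕ) (C η : ℝ) (hη : 0 < η) : ∃ H0 : ℕ, 3 ≤ H0 ∧ ∀ H : ℕ, H0 ≤ H →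
    ∀ (ι : Type) [Fintype ι] [DecidableEq ι], Fintype.card ι ≤ d + 1 → ∀ z X : ℕ, (primorial z : ℝ) ≤ Real.log H ^ W0 →
    1 ≤ X → (X : ℝ) ≤ Real.log H ^ B0 → ∀ t : ι → ℕ, Function.Injective t → (∀ a, 1 ≤ t a ∧ t a ≤ X) →
    ∀ g : ι → ℤ, (∀ a, |(g a : ℝ)| ≤ C * H * (t a : ℝ) ^ d) → ∀ θ : (Fin (d + 1) → ℤ) → ℝ, (∀ v, 0 ≤ θ v) →
    (∀ v, θ v ≤ 1) → (∀ v ρ, θ (v + ((primorial z : ℕ) : ℤ) • ρ) = θ v) → ∀ s : Finset ι,
    |∑ v ∈ Bx d H, PA (Real.log H) s (fun _ => MM (primorial z)) (fun a => pv v (t a) + g a) * θ v -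
      ∑ v ∈ Bx d H, (∏ a, MM (primorial z) (pv v (t a) + g a)) * θ v| ≤
      (η + 3 * (Real.exp (2 * Sg z t) - 1)) * ∑ v ∈ Bx d H, (∏ a, MM (primorial z) (pv v (t a) + g a)) * θ v +
      (Bx d H).card / Real.log H ^ A := by
  obtain ⟨δ, hδ0, hδ1, hδη⟩ := small_delta d η hη
  obtain ⟨H1, hH1, hmul⟩ := multi' d B0 W0 (A + 2) C δ hδ0 hδ1
  have hlog : Tendsto (fun n : ℕ => Real.log n) atTop atTop := Real.tendsto_log_atTop.comp tendsto_natCast_atTop_atTop
  set M : ℕ := 2 + 3 * (B0 * d) + W0 * (d + 2) + A + 2 with hM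
  have e5 := hlog.eventually_ge_atTop (max (2 ^ (d + 1)) (max 4 (2 * ((d : ℝ) + 1))))
  have e6 := (tendsto_natCast_atTop_atTop (R := ℝ)).eventually
    ((Real.isLittleO_pow_log_id_atTop (n := M)).def (show (0 : ℝ) < 1 by norm_num))
  obtain ⟨H2, h0⟩ := (e5.and e6).exists_forall_of_atTop
  refine ⟨max H1 H2, hH1.trans (le_max_left _ _), fun H hH ι _ _ hcard z X hzL hX1 hXH t hinj ht g hg θ hθ0 hθ1 hθi s => ?_⟩
  obtain ⟨h1, h2⟩ := h0 H ((le_max_right _ _).trans hH)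
  have hW := primorial_pos z
  have hH3 : 3 ≤ H := hH1.trans ((le_max_left _ _).trans hH)
  set L := Real.log H with hL
  have hL2 : (2 : ℝ) ^ (d + 1) ≤ L := (le_max_left _ _).trans h1
  have hL4 : 4 ≤ L := (le_max_left _ _).trans ((le_max_right _ _).trans h1)
  have hLd : 2 * ((d : ℝ) + 1) ≤ L := (le_max_right _ _).trans ((le_max_right _ _).trans h1)
  have hL1 : 1 ≤ L := by linarith
  have hL0 : 0 < L := by linarith
  have hHr : (0 : ℝ) < H := by exact_mod_cast (by omega : 0 < H)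
  have hLH : L ^ M ≤ H := by
    simp only [id, Real.norm_eq_abs] at h2
    rw [abs_of_nonneg (by positivity), abs_of_nonneg hHr.le] at h2
    linarith
  have hm := hmul H ((le_max_left _ _).trans hH) ι hcard (primorial z) X hW hzL hX1 hXH t hinj ht
    g hg θ hθ0 hθ1 hθi s (fun _ => MM (primorial z)) (fun _ u => MM_nonneg _ _) (by
      intro _ u
      exact (MM_le _ _).trans (hzL.trans (pow_le_pow_right₀ hL1 (by omega))))
  set N : ℝ := ((Bx d H).card : ℝ) with hN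
  have hN0 : 0 ≤ N := Nat.cast_nonneg _
  set S := Sg z t with hS
  have hS0 : 0 ≤ S := sum_nonneg fun a _ => sg_nonneg z _
  set W := primorial z with hWd
  set Ξ : (Fin (d + 1) → ℤ) → ℝ := fun v => (∏ a, MM W (pv v (t a) + g a)) * θ v with hΞ
  have hΞ0 : ∀ v, 0 ≤ Ξ v := fun v => mul_nonneg (prod_nonneg fun a _ => MM_nonneg _ _) (hθ0 v)
  have hΞ1 : ∀ v, Ξ v ≤ L ^ (W0 * (d + 1)) := by
    intro v
    calc Ξ v ≤ ∏ a, MM W (pv v (t a) + g a) := mul_le_of_le_one_right (prod_nonneg fun a _ => MM_nonneg _ _) (hθ1 v)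
      _ ≤ ∏ _a : ι, L ^ W0 := Finset.prod_le_prod (fun a _ => MM_nonneg _ _) (fun a _ => (MM_le _ _).trans hzL)
      _ = (L ^ W0) ^ Fintype.card ι := by rw [prod_const, card_univ]
      _ ≤ (L ^ W0) ^ (d + 1) := pow_le_pow_right₀ (one_le_pow₀ hL1) hcard
      _ = _ := by rw [← pow_mul]
  have hΞi : ∀ v ρ, Ξ (v + (W : ℤ) • ρ) = Ξ v := by
    intro v ρ
    rw [hΞ]
    simp only
    rw [hθi]
    congr 1
    apply prod_congr rfl
    intro a _
    rw [pv_smul]
    unfold MM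
    have e1 : pv v (t a) + (W : ℤ) * pv ρ (t a) + g a = (pv v (t a) + g a) + pv ρ (t a) * (W : ℤ) := by ring
    rw [e1, Int.gcd_add_mul_right_left]
  have hwdX : ∀ a, wd t a ≤ X ^ d := by
    intro a
    have := mo_le d 1 X t (fun a => (ht a).2) hX1 hcard a
    unfold mo at this
    rw [one_mul, one_mul] at this
    exact this
  have hXL : ((X ^ d : ℕ) : ℝ) ≤ L ^ (B0 * d) := by
    push_cast
    rw [pow_mul]
    exact pow_le_pow_left₀ (by positivity) hXH d
  -- comparison of the models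
  set T0 := ∑ v ∈ Bx d H, Ξ v with hT0
  set T1 := ∑ v ∈ Bx d H, PB W t s (fun _ => MM W) (fun a => pv v (t a) + g a) * θ v with hT1
  have hT00 : 0 ≤ T0 := sum_nonneg fun v _ => hΞ0 v
  set E1 : ℝ := L ^ (W0 * (d + 1)) * (2 * ((d + 1) * ((W : ℝ) * (X ^ d : ℕ)) * (2 * H + 1) ^ d)) with hE1
  have hE10 : 0 ≤ E1 := by positivity
  have hGG : ∏ a, GG z (wd t a) - 1 ≤ Real.exp (2 * S) - 1 := by
    have := prod_GG_le z t
    rw [← hS] at this
    linarith
  have hGG0 : 0 ≤ ∏ a, GG z (wd t a) - 1 := by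
    have : 1 ≤ ∏ a, GG z (wd t a) := by
      calc (1 : ℝ) = ∏ a : ι, 1 := by rw [prod_const_one]
        _ ≤ _ := Finset.prod_le_prod (fun _ _ => by norm_num) (fun a _ => one_le_GG z _)
    linarith
  have hmodel : |T1 - T0| ≤ 2 * (Real.exp (2 * S) - 1) * T0 + ((d + 1) * (X ^ d : ℕ)) * E1 := by
    have hp1 : |T1 - T0| ≤ ∑ v ∈ Bx d H, Ξ v * ((∏ a, GG z (wd t a) - 1) +
        ∑ a, ∑ p ∈ LP z (wd t a), dv p (pv v (t a) + g a)) := by
      rw [hT1, hT0, ← sum_sub_distrib]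
      refine (abs_sum_le_sum_abs _ _).trans (sum_le_sum fun v _ => ?_)
      rw [hΞ]
      simp only
      rw [← sub_mul, abs_mul, abs_of_nonneg (hθ0 v)]
      have := mul_le_mul_of_nonneg_right (prod_model' z t hinj s (fun a => pv v (t a) + g a)) (hθ0 v)
      refine this.trans (le_of_eq ?_)
      ring
    have hp2 : ∑ v ∈ Bx d H, Ξ v * ((∏ a, GG z (wd t a) - 1) + ∑ a, ∑ p ∈ LP z (wd t a), dv p (pv v (t a) + g a)) =
        T0 * (∏ a, GG z (wd t a) - 1) + ∑ a, ∑ p ∈ LP z (wd t a), ∑ v ∈ Bx d H, Ξ v * dv p (pv v (t a) + g a) := by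
      simp only [mul_add, sum_add_distrib]
      rw [← sum_mul]
      congr 1
      simp only [mul_sum]
      rw [sum_comm]
      apply sum_congr rfl
      intro a _
      rw [sum_comm]
    have hp3 : ∀ a, ∀ p ∈ LP z (wd t a), ∑ v ∈ Bx d H, Ξ v * dv p (pv v (t a) + g a) ≤ (1 / p) * T0 + E1 := by
      intro a p hp
      unfold LP at hp
      rw [mem_filter] at hp
      have hpp := Nat.prime_of_mem_primeFactors hp.1
      have h3 := Nat.le_of_mem_primeFactors hp.1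
      have hpX : p ≤ X ^ d := h3.trans (hwdX a)
      refine (cnt' d H p W hpp (by
        intro h
        have := hpp.dvd_primorial_iff.1 h
        omega) (L ^ (W0 * (d + 1))) (by positivity) Ξ hΞ0 hΞ1 hΞi (t a) (g a)).trans ?_
      apply add_le_add_right
      rw [hE1]
      have : (p : ℝ) ≤ ((X ^ d : ℕ) : ℝ) := by exact_mod_cast hpX
      gcongr
    have hp4 : ∑ a, ∑ p ∈ LP z (wd t a), ∑ v ∈ Bx d H, Ξ v * dv p (pv v (t a) + g a) ≤
        S * T0 + ((d + 1) * (X ^ d : ℕ)) * E1 := by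
      calc ∑ a, ∑ p ∈ LP z (wd t a), ∑ v ∈ Bx d H, Ξ v * dv p (pv v (t a) + g a)
          ≤ ∑ a, ∑ p ∈ LP z (wd t a), ((1 / p) * T0 + E1) := sum_le_sum fun a _ => sum_le_sum fun p hp => hp3 a p hp
        _ = S * T0 + ∑ a, ((LP z (wd t a)).card : ℝ) * E1 := by
            simp only [sum_add_distrib, sum_const, nsmul_eq_mul, ← sum_mul]
            rw [hS]
            rfl
        _ ≤ S * T0 + ∑ _a : ι, ((X ^ d : ℕ) : ℝ) * E1 := by
            apply add_le_add_right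
            apply sum_le_sum
            intro a _
            apply mul_le_mul_of_nonneg_right _ hE10
            have h7 : (LP z (wd t a)).card ≤ wd t a := by
              unfold LP
              refine (card_filter_le _ _).trans ?_
              have : (wd t a).primeFactors ⊆ Icc 1 (wd t a) := by
                intro p hp
                rw [mem_Icc]
                exact ⟨(Nat.prime_of_mem_primeFactors hp).one_le, Nat.le_of_mem_primeFactors hp⟩
              have h8 := card_le_card this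
              rw [Nat.card_Icc, Nat.add_sub_cancel] at h8
              exact h8
            exact_mod_cast h7.trans (hwdX a)
        _ = S * T0 + (Fintype.card ι : ℝ) * (((X ^ d : ℕ) : ℝ) * E1) := by
            rw [sum_const, card_univ, nsmul_eq_mul]
        _ ≤ S * T0 + ((d : ℝ) + 1) * (((X ^ d : ℕ) : ℝ) * E1) := by
            apply add_le_add_right
            apply mul_le_mul_of_nonneg_right _ (by positivity)
            exact_mod_cast hcard
        _ = _ := by ring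
    have hSe : S ≤ Real.exp (2 * S) - 1 := by
      have := Real.add_one_le_exp (2 * S)
      linarith
    calc |T1 - T0| ≤ T0 * (∏ a, GG z (wd t a) - 1) + (S * T0 + ((d + 1) * (X ^ d : ℕ)) * E1) := by
          refine hp1.trans ?_
          rw [hp2]
          linarith
      _ ≤ T0 * (Real.exp (2 * S) - 1) + ((Real.exp (2 * S) - 1) * T0 + ((d + 1) * (X ^ d : ℕ)) * E1) := by
          gcongr
      _ = _ := by ring
  -- the boundary terms
  have hE : ((d + 1) * (X ^ d : ℕ)) * E1 ≤ N / L ^ (A + 2) := by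
    rw [hE1, hN, card_Bx, le_div_iff₀ (by positivity), pow_succ (2 * (H : ℝ) + 1) d]
    have h10 : ((d : ℝ) + 1) * ((X ^ d : ℕ) : ℝ) * (L ^ (W0 * (d + 1)) * (2 * ((d + 1) * ((W : ℝ) * (X ^ d : ℕ))))) *
        L ^ (A + 2) ≤ 2 * H + 1 := by
      calc ((d : ℝ) + 1) * ((X ^ d : ℕ) : ℝ) * (L ^ (W0 * (d + 1)) * (2 * ((d + 1) * ((W : ℝ) * (X ^ d : ℕ))))) *
            L ^ (A + 2)
          ≤ L * L ^ (B0 * d) * (L ^ (W0 * (d + 1)) * (2 * (L * (L ^ W0 * L ^ (B0 * d))))) * L ^ (A + 2) := by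
            have hd1 : (d : ℝ) + 1 ≤ L := by
              have : (0 : ℝ) ≤ (d : ℝ) + 1 := by positivity
              linarith
            gcongr
        _ = 2 * L ^ (2 + 2 * (B0 * d) + W0 * (d + 2) + A + 2) := by ring
        _ ≤ 2 * L ^ M := by
            apply mul_le_mul_of_nonneg_left _ (by norm_num)
            exact pow_le_pow_right₀ hL1 (by rw [hM]; omega)
        _ ≤ 2 * H + 1 := by linarith
    calc ((d : ℝ) + 1) * ((X ^ d : ℕ) : ℝ) * (L ^ (W0 * (d + 1)) * (2 * ((d + 1) * ((W : ℝ) * (X ^ d : ℕ)) *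
          (2 * H + 1) ^ d))) * L ^ (A + 2)
        = (((d : ℝ) + 1) * ((X ^ d : ℕ) : ℝ) * (L ^ (W0 * (d + 1)) * (2 * ((d + 1) * ((W : ℝ) * (X ^ d : ℕ))))) *
          L ^ (A + 2)) * (2 * H + 1) ^ d := by ring
      _ ≤ (2 * H + 1) * (2 * H + 1) ^ d := by gcongr
      _ = _ := by ring
  set E2 := N / L ^ (A + 2) with hE2
  have hE20 : 0 ≤ E2 := by positivity
  have h10 : |T1 - T0| ≤ 2 * (Real.exp (2 * S) - 1) * T0 + E2 := hmodel.trans (by linarith)
  have hsc : s.card ≤ d + 1 := (card_le_univ s).trans hcard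
  have hpow1 : (1 + δ) ^ s.card - 1 ≤ min η (1 / 2) := by
    refine le_trans ?_ hδη
    have : (1 + δ) ^ s.card ≤ (1 + δ) ^ (d + 1) := pow_le_pow_right₀ (by linarith) hsc
    linarith
  have hT10 : 0 ≤ T1 := by
    apply sum_nonneg
    intro v _
    apply mul_nonneg _ (hθ0 v)
    unfold PB
    apply prod_nonneg
    intro a _
    split_ifs <;> exact MM_nonneg _ _
  have hex0 : 0 ≤ Real.exp (2 * S) - 1 := by
    have := Real.add_one_le_exp (2 * S)
    linarith
  have h11 : ((1 + δ) ^ s.card - 1) * T1 ≤ η * T0 + (Real.exp (2 * S) - 1) * T0 + E2 := by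
    have hT1' : T1 ≤ T0 + (2 * (Real.exp (2 * S) - 1) * T0 + E2) := by
      have := (abs_le.1 h10).2
      linarith
    have hmin0 : 0 ≤ min η (1 / 2) := le_min hη.le (by norm_num)
    calc ((1 + δ) ^ s.card - 1) * T1 ≤ min η (1 / 2) * T1 := mul_le_mul_of_nonneg_right hpow1 hT10
      _ ≤ min η (1 / 2) * (T0 + (2 * (Real.exp (2 * S) - 1) * T0 + E2)) := mul_le_mul_of_nonneg_left hT1' hmin0
      _ = min η (1 / 2) * T0 + min η (1 / 2) * (2 * (Real.exp (2 * S) - 1) * T0 + E2) := by ring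
      _ ≤ η * T0 + (1 / 2) * (2 * (Real.exp (2 * S) - 1) * T0 + E2) := by
          have a1 : 0 ≤ 2 * (Real.exp (2 * S) - 1) * T0 + E2 := by positivity
          exact add_le_add (mul_le_mul_of_nonneg_right (min_le_left _ _) hT00)
            (mul_le_mul_of_nonneg_right (min_le_right _ _) a1)
      _ ≤ _ := by linarith
  have h12 : ((2 : ℝ) ^ s.card - 1) * E2 ≤ L * E2 := by
    apply mul_le_mul_of_nonneg_right _ hE20
    have : (2 : ℝ) ^ s.card ≤ 2 ^ (d + 1) := pow_le_pow_right₀ (by norm_num) hsc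
    linarith
  have h13 : 2 * E2 + L * E2 ≤ N / L ^ A := by
    have h14 : N / L ^ A = L ^ 2 * E2 := by
      rw [hE2, pow_add]
      field_simp
    rw [h14]
    have : 2 + L ≤ L ^ 2 := by nlinarith
    nlinarith
  calc _ ≤ |_ - T1| + |T1 - T0| := abs_sub_le _ _ _
    _ ≤ (((1 + δ) ^ s.card - 1) * T1 + (2 ^ s.card - 1) * E2) + (2 * (Real.exp (2 * S) - 1) * T0 + E2) :=
        add_le_add hm h10
    _ ≤ (η + 3 * (Real.exp (2 * S) - 1)) * T0 + N / L ^ A := by linarith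

end Pool.Agent.Helper32K9.QA
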