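import Pool.Agent.Helper32K9.QA.Th3
import Pool.Agent.Helper82K9.PR.PR8

/-!
# The parameter `z`
-/

set_option autoImplicit false

namespace Pool.Agent.Helper32K9.QA

open Finset Filter Pool.Agent.Helper82K9.PR

/-- few prime factors are larger than `z` -/
lemma sg_log (z w : ℕ) (hz : 3 ≤ z) (hw : w ≠ 0) : sg z w ≤ Real.log w / z := by
  have hzr : (3 : ℝ) ≤ z := by exact_mod_cast hz
  have hlz : 1 ≤ Real.log z := by
    rw [← Real.log_exp 1]
    apply Real.log_le_log (Real.exp_pos _)
    have := Real.exp_one_lt_d9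
    linarith
  have h1 : z ^ (LP z w).card ≤ w := by
    calc z ^ (LP z w).card = ∏ _p ∈ LP z w, z := by rw [prod_const]
      _ ≤ ∏ p ∈ LP z w, p := by
          apply prod_le_prod' 
          intro p hp
          unfold LP at hp
          rw [mem_filter] at hp
          exact hp.2.le
      _ ≤ ∏ p ∈ w.primeFactors, p := by
          apply prod_le_prod_of_subset_of_one_le'
          · unfold LP
            exact filter_subset _ _
          · intro p hp _
            exact (Nat.prime_of_mem_primeFactors hp).one_le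
      _ ≤ w := Nat.le_of_dvd (Nat.pos_of_ne_zero hw) (Nat.prod_primeFactors_dvd w)
  have h2 : ((LP z w).card : ℝ) ≤ Real.log w := by
    have h3 : ((z : ℝ) ^ (LP z w).card) ≤ w := by exact_mod_cast h1
    have h4 := Real.log_le_log (by positivity) h3
    rw [Real.log_pow] at h4
    nlinarith [Nat.cast_nonneg (α := ℝ) (LP z w).card]
  unfold sg
  calc ∑ p ∈ LP z w, 1 / (p : ℝ) ≤ ∑ p ∈ LP z w, 1 / (z : ℝ) := by
        apply sum_le_sum
        intro p hp
        unfold LP at hp
        rw [mem_filter] at hp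
        apply one_div_le_one_div_of_le (by linarith)
        exact_mod_cast hp.2.le
    _ = (LP z w).card * (1 / (z : ℝ)) := by rw [sum_const, nsmul_eq_mul]
    _ = (LP z w).card / (z : ℝ) := by ring
    _ ≤ _ := by gcongr

/-- the sum over the points -/
lemma Sg_log {ι : Type} [Fintype ι] [DecidableEq ι] (B : ℕ) (L : ℝ) (hL : 1 ≤ L) (z : ℕ) (hz : 3 ≤ z)
    (t : ι → ℕ) (ht : Function.Injective t) (h : ∀ a, (t a : ℝ) ≤ L ^ B) :
    Sg z t ≤ (Fintype.card ι : ℝ) ^ 2 * B * Real.log L / z := by
  have hzr : (3 : ℝ) ≤ z := by exact_mod_cast hz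
  have hl : 0 ≤ Real.log L := Real.log_nonneg hL
  have key : ∀ a, sg z (wd t a) ≤ (Fintype.card ι : ℝ) * B * Real.log L / z := by
    intro a
    refine (sg_log z _ hz (wd_ne t ht a)).trans ?_
    apply div_le_div_of_nonneg_right _ (by linarith)
    have h1 : ((wd t a : ℕ) : ℝ) ≤ (L ^ B) ^ (Fintype.card ι) := by
      unfold wd
      rw [Nat.cast_natAbs, Int.cast_abs]
      push_cast
      rw [abs_prod]
      calc ∏ b ∈ univ.erase a, |(t a : ℝ) - t b| ≤ ∏ b ∈ univ.erase a, L ^ B := by
            apply Finset.prod_le_prod (fun _ _ => abs_nonneg _)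
            intro b _
            rw [abs_le]
            have h2 := h a
            have h3 := h b
            have h4 : (0 : ℝ) ≤ t a := Nat.cast_nonneg _
            have h5 : (0 : ℝ) ≤ t b := Nat.cast_nonneg _
            constructor <;> linarith
        _ = (L ^ B) ^ (univ.erase a).card := by rw [prod_const]
        _ ≤ _ := by
            apply pow_le_pow_right₀ (one_le_pow₀ hL)
            rw [card_erase_of_mem (mem_univ _), card_univ]
            omega
    have h6 : (0 : ℝ) < (wd t a : ℕ) := by exact_mod_cast Nat.pos_of_ne_zero (wd_ne t ht a)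
    calc Real.log (wd t a : ℕ) ≤ Real.log ((L ^ B) ^ (Fintype.card ι)) := Real.log_le_log h6 h1
      _ = (Fintype.card ι : ℝ) * B * Real.log L := by rw [Real.log_pow, Real.log_pow]; ring
  unfold Sg
  calc ∑ a, sg z (wd t a) ≤ ∑ _a : ι, (Fintype.card ι : ℝ) * B * Real.log L / z := sum_le_sum fun a _ => key a
    _ = _ := by rw [sum_const, card_univ, nsmul_eq_mul]; ring

/-- `Cz z ≤ z` -/
lemma Cz_le_z (z : ℕ) (hz : 1 ≤ z) : Cz z ≤ z := by
  rw [Cz_eq]
  have h1 : ∀ z : ℕ, 1 ≤ z → ∏ k ∈ Icc 2 z, (1 - 1 / (k : ℝ))⁻¹ = z := by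
    intro z hz
    induction z, hz using Nat.le_induction with
    | base => simp
    | succ z hz ih =>
      rw [prod_Icc_succ_top (by omega : 2 ≤ z + 1), ih]
      have : (0 : ℝ) < z := by exact_mod_cast hz
      push_cast
      have h2 : (1 : ℝ) - 1 / (z + 1) = z / (z + 1) := by field_simp; ring
      rw [h2]
      field_simp
  have hge : ∀ k : ℕ, 2 ≤ k → (1 : ℝ) ≤ (1 - 1 / (k : ℝ))⁻¹ := by
    intro k hk
    have hk2 : (2 : ℝ) ≤ k := by exact_mod_cast hk
    have h2 : (1 : ℝ) / k ≤ 1 / 2 := by apply one_div_le_one_div_of_le <;> linarith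
    have h3 : (0 : ℝ) < 1 / k := by positivity
    rw [one_le_inv₀ (by linarith)]
    linarith
  have hsub : (Icc 1 z).filter Nat.Prime ⊆ Icc 2 z := by
    intro p hp
    rw [mem_filter, mem_Icc] at hp
    rw [mem_Icc]
    exact ⟨hp.2.two_le, hp.1.2⟩
  rw [← h1 z hz, ← prod_sdiff hsub]
  apply le_mul_of_one_le_left
  · apply prod_nonneg
    intro p hp
    rw [mem_filter] at hp
    exact zero_le_one.trans (hge p hp.2.two_le)
  · calc (1 : ℝ) = ∏ _k ∈ Icc 2 z \ (Icc 1 z).filter Nat.Prime, (1 : ℝ) := by simp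
      _ ≤ _ := by
        apply Finset.prod_le_prod (fun _ _ => zero_le_one)
        intro k hk
        have hk1 : k ∈ Icc 2 z := sdiff_subset hk
        rw [mem_Icc] at hk1
        exact hge k hk1.1

end Pool.Agent.Helper32K9.QA
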