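import Pool.Agent.Helper32K9.QA.SmL
import Pool.Agent.Helper32K9.QA.Th4

/-!
# The asymptotic formula for almost all polynomials of degree at least five
-/

set_option autoImplicit false

namespace Pool.Agent.Helper32K9.QA

open Finset Filter Pool.Agent.Helper82K9.PR Pool.Agent.Helper32K9.QA.SmL

/-- the rough weight of three values -/
noncomputable def R3 {d : ℕ} (z : ℕ) (t : Fin 3 → ℕ) (v : Fin (d + 1) → ℤ) : ℝ := ∏ a, MM (primorial z) (pv v (t a))

/-- the parameter -/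
noncomputable def zz (T H : ℕ) : ℕ := T * ⌈Real.log (Real.log H)⌉₊

/-- [ASY] The asymptotic formula for almost all polynomials. -/
def S_ASY : Prop := ∀ d B : ℕ, 5 ≤ d → ∀ ε : ℝ, 0 < ε → ∃ T₀ : ℕ, ∀ T' : ℕ, T₀ ≤ T' → ∃ A : ℕ, ∀ H : ℕ, A ≤ H →
  ∀ n : ℕ, A * Real.log H ^ 3 ≤ n → (n : ℝ) ≤ Real.log H ^ B → ∀ c : ℕ → ℝ, (∀ m, |c m| ≤ 1) →
  (((Bx d H).filter (fun v => ¬ |∑ m ∈ Ms n, c m * (SG (ip (T n m)))⁻¹ *
      (F3 (Real.log H) (T n m) v - R3 (zz T' H) (T n m) v)| ≤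
      ε * (n + ∑ m ∈ Ms n, (SG (ip (T n m)))⁻¹ * R3 (zz T' H) (T n m) v))).card : ℝ) ≤ ε * (Bx d H).card

lemma R3_nonneg {d : ℕ} (z : ℕ) (t : Fin 3 → ℕ) (v : Fin (d + 1) → ℤ) : 0 ≤ R3 z t v :=
  prod_nonneg fun _ _ => MM_nonneg _ _

lemma R3_le {d : ℕ} (z : ℕ) (hz : 1 ≤ z) (t : Fin 3 → ℕ) (v : Fin (d + 1) → ℤ) : R3 z t v ≤ (z : ℝ) ^ 3 := by
  unfold R3
  calc ∏ a, MM (primorial z) (pv v (t a)) ≤ ∏ _a : Fin 3, (z : ℝ) :=
        Finset.prod_le_prod (fun _ _ => MM_nonneg _ _) (fun a _ => (MM_le_Cz z _).trans (Cz_le_z z hz))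
    _ = _ := by simp

lemma R3_per {d : ℕ} (z : ℕ) (t : Fin 3 → ℕ) (v ρ : Fin (d + 1) → ℤ) :
    R3 z t (v + ((primorial z : ℕ) : ℤ) • ρ) = R3 z t v := by
  unfold R3
  apply prod_congr rfl
  intro a _
  rw [pv_smul]
  unfold MM
  have e1 : pv v (t a) + ((primorial z : ℕ) : ℤ) * pv ρ (t a) = pv v (t a) + pv ρ (t a) * ((primorial z : ℕ) : ℤ) := by
    ring
  rw [e1, Int.gcd_add_mul_right_left]

/-- the products over the six points -/
lemma six_prod {d : ℕ} (L : ℝ) (z : ℕ) (t s : Fin 3 → ℕ) (v : Fin (d + 1) → ℤ) (P Q : Prop) [Decidable P] [Decidable Q] :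
    ∏ a : Fin 3 ⊕ Fin 3, (if a ∈ (univ.filter (fun a : Fin 3 ⊕ Fin 3 => (a.isLeft ∧ P) ∨ (¬ a.isLeft ∧ Q)))
      then om L (pv v (six t s a)) else MM (primorial z) (pv v (six t s a))) =
    (if P then F3 L t v else R3 z t v) * (if Q then F3 L s v else R3 z s v) := by
  rw [Fintype.prod_sum_type]
  congr 1
  · by_cases hP : P
    · rw [if_pos hP]
      unfold F3
      apply prod_congr rfl
      intro a _
      rw [if_pos (by simp [hP])]
      rfl
    · rw [if_neg hP]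
      unfold R3
      apply prod_congr rfl
      intro a _
      rw [if_neg (by simp [hP])]
      rfl
  · by_cases hQ : Q
    · rw [if_pos hQ]
      unfold F3
      apply prod_congr rfl
      intro a _
      rw [if_pos (by simp [hQ])]
      rfl
    · rw [if_neg hQ]
      unfold R3
      apply prod_congr rfl
      intro a _
      rw [if_neg (by simp [hQ])]
      rfl

/-- the size of the parameters -/
lemma params (T' : ℕ) (hT : 3 ≤ T') : ∃ H₀ : ℕ, ∀ H : ℕ, H₀ ≤ H → 1 ≤ Real.log H ∧ 1 ≤ Real.log (Real.log H) ∧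
    3 ≤ zz T' H ∧ (T' : ℝ) * Real.log (Real.log H) ≤ zz T' H ∧ (zz T' H : ℝ) ≤ Real.log H ∧
    (primorial (zz T' H) : ℝ) ≤ Real.log H ^ (4 * T') := by
  have hlog : Tendsto (fun n : ℕ => Real.log n) atTop atTop := Real.tendsto_log_atTop.comp tendsto_natCast_atTop_atTop
  have hll : Tendsto (fun n : ℕ => Real.log (Real.log n)) atTop atTop := Real.tendsto_log_atTop.comp hlog
  have e1 := hlog.eventually (Real.isLittleO_log_id_atTop.def (show (0 : ℝ) < 1 / (2 * T') by positivity))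
  obtain ⟨H₀, h0⟩ := ((hll.eventually_ge_atTop 1).and ((hlog.eventually_ge_atTop 1).and e1)).exists_forall_of_atTop
  refine ⟨H₀, fun H hH => ?_⟩
  obtain ⟨h1, h2, h3⟩ := h0 H hH
  set L := Real.log H with hL
  have hL0 : 0 < L := by linarith
  simp only [id, Real.norm_eq_abs] at h3
  rw [abs_of_nonneg (by linarith), abs_of_nonneg hL0.le] at h3
  have hTr : (3 : ℝ) ≤ T' := by exact_mod_cast hT
  have hc1 := Nat.le_ceil (Real.log L)
  have hc2 : ((⌈Real.log L⌉₊ : ℕ) : ℝ) ≤ 2 * Real.log L := by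
    have := (Nat.ceil_lt_add_one (by linarith : 0 ≤ Real.log L)).le
    linarith
  have hcn : 1 ≤ ⌈Real.log L⌉₊ := Nat.one_le_ceil_iff.2 (by linarith)
  have hz : ((zz T' H : ℕ) : ℝ) = T' * (⌈Real.log L⌉₊ : ℕ) := by
    unfold zz; rw [← hL]; push_cast; ring
  refine ⟨h2, h1, ?_, ?_, ?_, ?_⟩
  · unfold zz
    rw [← hL]
    calc 3 = 3 * 1 := rfl
      _ ≤ T' * ⌈Real.log L⌉₊ := Nat.mul_le_mul hT hcn
  · rw [hz]
    gcongr
  · rw [hz]
    calc (T' : ℝ) * (⌈Real.log L⌉₊ : ℕ) ≤ T' * (2 * Real.log L) := by gcongr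
      _ ≤ T' * (2 * (1 / (2 * T') * L)) := by gcongr
      _ = L := by field_simp
  · have h4 : (primorial (zz T' H) : ℝ) ≤ 4 ^ (zz T' H) := by exact_mod_cast primorial_le_four_pow (zz T' H)
    refine h4.trans ?_
    have h5 : (4 : ℝ) ≤ Real.exp 2 := by
      have := Real.exp_one_gt_d9
      have h6 : Real.exp 2 = Real.exp 1 * Real.exp 1 := by rw [← Real.exp_add]; norm_num
      rw [h6]
      nlinarith
    calc (4 : ℝ) ^ (zz T' H) ≤ (Real.exp 2) ^ (zz T' H) := pow_le_pow_left₀ (by norm_num) h5 _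
      _ = Real.exp (2 * (zz T' H : ℕ)) := by rw [← Real.exp_nat_mul]; congr 1; ring
      _ ≤ Real.exp (4 * T' * Real.log L) := by
          apply Real.exp_le_exp.2
          rw [hz]
          have : (T' : ℝ) * (⌈Real.log L⌉₊ : ℕ) ≤ T' * (2 * Real.log L) := by gcongr
          linarith
      _ = L ^ (4 * T') := by
          rw [← Real.exp_log hL0, ← Real.exp_nat_mul, Real.exp_log hL0]
          congr 1
          push_cast
          ring

end Pool.Agent.Helper32K9.QA
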