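import Pool.Agent.Helper32K9.QA.Th5

/-!
# The asymptotic formula for almost all polynomials of degree at least five: proof
-/

set_option autoImplicit false

namespace Pool.Agent.Helper32K9.QA

open Finset Filter Pool.Agent.Helper82K9.PR Pool.Agent.Helper32K9.QA.SmL

/-- the comparison for six points -/
lemma cmp6 (d B T' : ℕ) (hd : 5 ≤ d) (hT : 3 ≤ T') (ρ : ℝ) (hρ0 : 0 < ρ) (hρ1 : ρ ≤ 1 / 2)
    (hTρ : 36 * 24 * (B : ℝ) / ρ ≤ T') : ∃ H₀ : ℕ, ∀ H : ℕ, H₀ ≤ H →
    ∀ (ι : Type) [Fintype ι] [DecidableEq ι], Fintype.card ι ≤ 6 → ∀ t : ι → ℕ, Function.Injective t →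
    (∀ a, 1 ≤ t a ∧ (t a : ℝ) ≤ Real.log H ^ B) → ∀ θ : (Fin (d + 1) → ℤ) → ℝ, (∀ v, 0 ≤ θ v) →
    (∀ v, θ v ≤ 1) → (∀ v ρ, θ (v + ((primorial (zz T' H) : ℕ) : ℤ) • ρ) = θ v) → ∀ s : Finset ι,
    |∑ v ∈ Bx d H, (∏ a, if a ∈ s then om (Real.log H) (pv v (t a)) else MM (primorial (zz T' H)) (pv v (t a))) * θ v -
      ∑ v ∈ Bx d H, (∏ a, MM (primorial (zz T' H)) (pv v (t a))) * θ v| ≤
      ρ * ∑ v ∈ Bx d H, (∏ a, MM (primorial (zz T' H)) (pv v (t a))) * θ v + (Bx d H).card / Real.log H := by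
  obtain ⟨H2, hH2, hcomb⟩ := comb' d B (4 * T') 1 0 (ρ / 2) (by positivity)
  obtain ⟨H3, hpar⟩ := params T' hT
  refine ⟨max H2 H3, fun H hH ι _ _ hcard t hinj ht θ hθ0 hθ1 hθi s => ?_⟩
  obtain ⟨hL1, hll, hz3, hzT, hzL, hW⟩ := hpar H ((le_max_right _ _).trans hH)
  set L := Real.log H with hL
  set z := zz T' H with hz
  have hX1 : 1 ≤ ⌊L ^ B⌋₊ := by
    rw [Nat.one_le_floor_iff]
    exact one_le_pow₀ hL1
  have h := hcomb H ((le_max_left _ _).trans hH) ι (hcard.trans (by omega)) z ⌊L ^ B⌋₊ hW hX1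
    (Nat.floor_le (by positivity)) t hinj (fun a => ⟨(ht a).1, Nat.le_floor (ht a).2⟩) (fun _ => 0) (by
      intro a
      simp) θ hθ0 hθ1 hθi s
  simp only [add_zero, pow_one] at h
  unfold PA at h
  have hT00 : 0 ≤ ∑ v ∈ Bx d H, (∏ a, MM (primorial z) (pv v (t a))) * θ v :=
    sum_nonneg fun v _ => mul_nonneg (prod_nonneg fun a _ => MM_nonneg _ _) (hθ0 v)
  have hSg : Sg z t ≤ ρ / 24 := by
    have h1 := Sg_log B L hL1 z hz3 t hinj (fun a => (ht a).2)
    refine h1.trans ?_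
    have hTr : (3 : ℝ) ≤ T' := by exact_mod_cast hT
    have hzr : (0 : ℝ) < z := by
      have : (3 : ℝ) ≤ z := by exact_mod_cast hz3
      linarith
    rw [div_le_iff₀ hzr]
    have hc6 : (Fintype.card ι : ℝ) ≤ 6 := by exact_mod_cast hcard
    have hc2 : (Fintype.card ι : ℝ) ^ 2 ≤ 36 := by
      have : (0 : ℝ) ≤ Fintype.card ι := Nat.cast_nonneg _
      nlinarith
    have hB' : 36 * (B : ℝ) ≤ ρ / 24 * T' := by
      rw [div_le_iff₀ hρ0] at hTρ
      linarith
    calc (Fintype.card ι : ℝ) ^ 2 * B * Real.log L ≤ 36 * B * Real.log L := by gcongr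
      _ ≤ ρ / 24 * T' * Real.log L := by gcongr
      _ = ρ / 24 * (T' * Real.log L) := by ring
      _ ≤ ρ / 24 * z := by gcongr
  have hSg0 : 0 ≤ Sg z t := sum_nonneg fun a _ => sg_nonneg z _
  have hexp : Real.exp (2 * Sg z t) - 1 ≤ ρ / 6 := by
    have h2 := Real.abs_exp_sub_one_le (x := 2 * Sg z t) (by
      rw [abs_of_nonneg (by positivity)]
      linarith)
    rw [abs_of_nonneg (by positivity : 0 ≤ 2 * Sg z t)] at h2
    have := le_abs_self (Real.exp (2 * Sg z t) - 1)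
    linarith
  refine h.trans ?_
  apply add_le_add_left
  apply mul_le_mul_of_nonneg_right _ hT00
  linarith

theorem asy : S_FM → S_BAD → S_PSZ → S_ASY := by
  intro hFM hBAD hPSZ d B hd ε hε
  obtain ⟨E, hE⟩ := hPSZ
  obtain ⟨hB1, hB2, hB3⟩ := hBAD
  obtain ⟨H1, hFM⟩ := hFM d (B * E) (by omega)
  set ρ : ℝ := min (ε ^ 3 / 12) (1 / 2) with hρ
  have hρ0 : 0 < ρ := lt_min (by positivity) (by norm_num)
  have hρ1 : ρ ≤ 1 / 2 := min_le_right _ _
  have hρ2 : ρ ≤ ε ^ 3 / 12 := min_le_left _ _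
  obtain ⟨T1, hT1⟩ := exists_nat_ge (36 * 24 * ((B * E : ℕ) : ℝ) / ρ)
  refine ⟨max T1 3, fun T' hT' => ?_⟩
  have hT3 : 3 ≤ T' := (le_max_right _ _).trans hT'
  obtain ⟨H2, hcmp⟩ := cmp6 d (B * E) T' hd hT3 ρ hρ0 hρ1 (hT1.trans (by exact_mod_cast (le_max_left _ _).trans hT'))
  obtain ⟨H3, hpar⟩ := params T' hT3
  have hlog : Tendsto (fun n : ℕ => Real.log n) atTop atTop := Real.tendsto_log_atTop.comp tendsto_natCast_atTop_atTop
  obtain ⟨H4, h4⟩ := (hlog.eventually_ge_atTop (12 / ε ^ 3)).exists_forall_of_atTop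
  obtain ⟨A1, hA1⟩ := exists_nat_ge (576 / ε ^ 3)
  refine ⟨max (max (max H1 H2) (max H3 H4)) (max A1 4), fun H hH n hn hnB c hc => ?_⟩
  have g0 : max (max H1 H2) (max H3 H4) ≤ H := (le_max_left _ _).trans hH
  have g1 : H1 ≤ H := (le_max_left _ _).trans ((le_max_left _ _).trans g0)
  have g2 : H2 ≤ H := (le_max_right _ _).trans ((le_max_left _ _).trans g0)
  have g3 : H3 ≤ H := (le_max_left _ _).trans ((le_max_right _ _).trans g0)
  have g4 : H4 ≤ H := (le_max_right _ _).trans ((le_max_right _ _).trans g0)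
  obtain ⟨hL1, hll, hz3, hzT, hzL, hW⟩ := hpar H g3
  have hLε := h4 H g4
  have hcmp' := hcmp H g2
  have hFM' := hFM H g1
  set L := Real.log H with hL
  have hL0 : 0 < L := by linarith
  set z := zz T' H with hz
  set N : ℝ := ((Bx d H).card : ℝ) with hN
  have hN0 : 0 ≤ N := Nat.cast_nonneg _
  -- the size of `n`
  have hAn : (576 / ε ^ 3) * L ^ 3 ≤ n := by
    refine le_trans ?_ hn
    apply mul_le_mul_of_nonneg_right _ (by positivity)
    refine hA1.trans ?_
    exact_mod_cast (le_max_left _ _).trans (le_max_right _ _)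
  have hn4r : (4 : ℝ) ≤ n := by
    refine le_trans ?_ hn
    have a1 : (4 : ℝ) ≤ ((max (max (max H1 H2) (max H3 H4)) (max A1 4) : ℕ) : ℝ) := by
      exact_mod_cast (le_max_right _ _).trans (le_max_right _ _)
    have a2 : 1 ≤ L ^ 3 := one_le_pow₀ hL1
    nlinarith
  have hn4 : 4 ≤ n := by exact_mod_cast hn4r
  have hn0 : (0 : ℝ) < n := by linarith
  have hEn := hE n (by omega)
  set w : ℕ → ℝ := fun m => (SG (ip (T n m)))⁻¹ with hw
  have hw0 : ∀ m, 0 < w m := fun m => inv_pos.2 (lt_of_lt_of_le one_pos (one_le_SG _))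
  have hw1 : ∀ m, w m ≤ 1 := fun m => inv_le_one_of_one_le₀ (one_le_SG _)
  have hwS : ∀ m, w m * SG (ip (T n m)) = 1 := fun m => inv_mul_cancel₀ (lt_of_lt_of_le one_pos (one_le_SG _)).ne'
  set F : ℕ → (Fin (d + 1) → ℤ) → ℝ := fun m v => F3 L (T n m) v with hF
  set R : ℕ → (Fin (d + 1) → ℤ) → ℝ := fun m v => R3 z (T n m) v with hR
  have hF0 : ∀ m v, 0 ≤ F m v := fun m v => F3_nonneg hL0.le _ _
  have hR0 : ∀ m v, 0 ≤ R m v := fun m v => R3_nonneg _ _ _
  have hF3 : ∀ m v, F m v ≤ L ^ 3 := fun m v => F3_le hL0.le _ _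
  have hR3 : ∀ m v, R m v ≤ L ^ 3 := fun m v => (R3_le z (by omega) _ _).trans
    (pow_le_pow_left₀ (Nat.cast_nonneg _) hzL 3)
  set Q : (Fin (d + 1) → ℤ) → ℝ := fun v => ∑ m ∈ Ms n, w m * R m v with hQ
  have hQ0 : ∀ v, 0 ≤ Q v := fun v => sum_nonneg fun m _ => mul_nonneg (hw0 m).le (hR0 m v)
  set θ : (Fin (d + 1) → ℤ) → ℝ := fun v => (n / (n + Q v)) ^ 2 with hθ
  have hnQ : ∀ v, 0 < n + Q v := fun v => by have := hQ0 v; linarith
  have hθ0 : ∀ v, 0 ≤ θ v := fun v => sq_nonneg _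
  have hθ1 : ∀ v, θ v ≤ 1 := fun v => by
    have h1 : 0 ≤ n / (n + Q v) := div_nonneg hn0.le (hnQ v).le
    have h2 : n / (n + Q v) ≤ 1 := by
      rw [div_le_one (hnQ v)]
      have := hQ0 v
      linarith
    exact pow_le_one₀ h1 h2
  have hθQ : ∀ v, θ v * Q v ^ 2 ≤ (n : ℝ) ^ 2 := fun v => by
    have h2 : n / (n + Q v) * Q v ≤ n := by
      rw [div_mul_eq_mul_div, div_le_iff₀ (hnQ v)]
      have := hQ0 v
      nlinarith
    have h3 : 0 ≤ n / (n + Q v) * Q v := mul_nonneg (div_nonneg hn0.le (hnQ v).le) (hQ0 v)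
    calc θ v * Q v ^ 2 = (n / (n + Q v) * Q v) ^ 2 := by rw [hθ]; ring
      _ ≤ (n : ℝ) ^ 2 := pow_le_pow_left₀ h3 h2 2
  have hθi : ∀ v ρ, θ (v + ((primorial z : ℕ) : ℤ) • ρ) = θ v := by
    intro v r
    have h1 : Q (v + ((primorial z : ℕ) : ℤ) • r) = Q v := by
      apply sum_congr rfl
      intro m _
      show w m * R3 z (T n m) (v + ((primorial z : ℕ) : ℤ) • r) = w m * R3 z (T n m) v
      rw [R3_per]
    show (n / (n + Q (v + ((primorial z : ℕ) : ℤ) • r))) ^ 2 = _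
    rw [h1]
  -- the pairs
  set Y : ℕ → ℕ → ℝ := fun m m' => ∑ v ∈ Bx d H, θ v * ((F m v - R m v) * (F m' v - R m' v)) with hY
  set X0 : ℕ → ℕ → ℝ := fun m m' => ∑ v ∈ Bx d H, R m v * R m' v * θ v with hX0
  have hX00 : ∀ m m', 0 ≤ X0 m m' := fun m m' =>
    sum_nonneg fun v _ => mul_nonneg (mul_nonneg (hR0 m v) (hR0 m' v)) (hθ0 v)
  have hgood : ∀ m ∈ Ms n, ∀ m' ∈ (Ms n).filter (fun m' => Good n m m'), |Y m m'| ≤ 3 * (ρ * X0 m m' + N / L) := by
    intro m hm m' hm'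
    rw [mem_filter] at hm'
    have hinj := hB3 n m m' hm hm'.1 hm'.2
    have hbd : ∀ a, 1 ≤ six (T n m) (T n m') a ∧ (six (T n m) (T n m') a : ℝ) ≤ L ^ (B * E) := by
      intro a
      rcases a with a | a
      · exact T_log hEn hnB hm a
      · exact T_log hEn hnB hm'.1 a
    have key : ∀ (P Q' : Prop) [Decidable P] [Decidable Q'],
        |∑ v ∈ Bx d H, ((if P then F m v else R m v) * (if Q' then F m' v else R m' v)) * θ v - X0 m m'| ≤
          ρ * X0 m m' + N / L := by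
      intro P Q' _ _
      have h1 := hcmp' (Fin 3 ⊕ Fin 3) (by simp) (six (T n m) (T n m')) hinj hbd θ hθ0 hθ1 hθi
        (univ.filter (fun a : Fin 3 ⊕ Fin 3 => (a.isLeft ∧ P) ∨ (¬ a.isLeft ∧ Q')))
      simp only [six_prod] at h1
      have h2 : ∀ v, ∏ a, MM (primorial z) (pv v (six (T n m) (T n m') a)) = R m v * R m' v := by
        intro v
        rw [Fintype.prod_sum_type]
        rfl
      simp only [h2] at h1
      exact h1
    have k1 := key True True
    have k2 := key True False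
    have k3 := key False True
    simp only [if_true, if_false] at k1 k2 k3
    have e1 : Y m m' = (∑ v ∈ Bx d H, (F m v * F m' v) * θ v - X0 m m') - (∑ v ∈ Bx d H, (F m v * R m' v) * θ v - X0 m m') -
        (∑ v ∈ Bx d H, (R m v * F m' v) * θ v - X0 m m') := by
      simp only [hY, hX0]
      rw [← sum_sub_distrib, ← sum_sub_distrib, ← sum_sub_distrib, ← sum_sub_distrib, ← sum_sub_distrib]
      apply sum_congr rfl
      intro v _
      ring
    rw [e1]
    calc |(∑ v ∈ Bx d H, (F m v * F m' v) * θ v - X0 m m') - (∑ v ∈ Bx d H, (F m v * R m' v) * θ v - X0 m m') -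
        (∑ v ∈ Bx d H, (R m v * F m' v) * θ v - X0 m m')| ≤ |∑ v ∈ Bx d H, (F m v * F m' v) * θ v - X0 m m'| +
        |∑ v ∈ Bx d H, (F m v * R m' v) * θ v - X0 m m'| + |∑ v ∈ Bx d H, (R m v * F m' v) * θ v - X0 m m'| :=
          (abs_sub _ _).trans (add_le_add_left (abs_sub _ _) _)
      _ ≤ _ := by linarith
  have hbad : ∀ m ∈ Ms n, ∀ m', w m * w m' * |Y m m'| ≤ 16 * N * L ^ 3 := by
    intro m hm m'
    have hinj := (hB1 n m hm).1
    have hbd : ∀ a, 1 ≤ T n m a ∧ (T n m a : ℝ) ≤ L ^ (B * E) := fun a => T_log hEn hnB hm a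
    have hFs := (hFM' (T n m) hinj hbd).2
    have hSG := one_le_SG (ip (T n m))
    have hRs : ∑ v ∈ Bx d H, R m v ≤ 6 * SG (ip (T n m)) * N := by
      have h1 := hcmp' (Fin 3) (by simp) (T n m) hinj hbd (fun _ => 1) (fun _ => zero_le_one) (fun _ => le_rfl)
        (fun _ _ => rfl) univ
      simp only [mem_univ, if_true, mul_one] at h1
      have h2 : |∑ v ∈ Bx d H, F m v - ∑ v ∈ Bx d H, R m v| ≤ ρ * ∑ v ∈ Bx d H, R m v + N / L := h1
      have h3 := (abs_le.1 h2).1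
      have h4 : N / L ≤ N := div_le_self hN0 hL1
      have h5 : 0 ≤ ∑ v ∈ Bx d H, R m v := sum_nonneg fun v _ => hR0 m v
      have h6 : ρ * ∑ v ∈ Bx d H, R m v ≤ 1 / 2 * ∑ v ∈ Bx d H, R m v := mul_le_mul_of_nonneg_right hρ1 h5
      have h7 : N ≤ SG (ip (T n m)) * N := le_mul_of_one_le_left hN0 hSG
      have h8 : ∑ v ∈ Bx d H, F m v ≤ 2 * SG (ip (T n m)) * N := hFs
      linarith
    have h1 : |Y m m'| ≤ 16 * SG (ip (T n m)) * N * L ^ 3 := by
      calc |Y m m'| ≤ ∑ v ∈ Bx d H, |θ v * ((F m v - R m v) * (F m' v - R m' v))| := abs_sum_le_sum_abs _ _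
        _ ≤ ∑ v ∈ Bx d H, (F m v + R m v) * (2 * L ^ 3) := by
            apply sum_le_sum
            intro v _
            rw [abs_mul, abs_mul, abs_of_nonneg (hθ0 v)]
            have a1 : |F m v - R m v| ≤ F m v + R m v := by
              rw [abs_le]
              have := hF0 m v
              have := hR0 m v
              constructor <;> linarith
            have a2 : |F m' v - R m' v| ≤ 2 * L ^ 3 := by
              rw [abs_le]
              have := hF0 m' v
              have := hR0 m' v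
              have := hF3 m' v
              have := hR3 m' v
              constructor <;> linarith
            have a3 : |F m v - R m v| * |F m' v - R m' v| ≤ (F m v + R m v) * (2 * L ^ 3) :=
              mul_le_mul a1 a2 (abs_nonneg _) ((abs_nonneg _).trans a1)
            have a4 : 0 ≤ |F m v - R m v| * |F m' v - R m' v| := by positivity
            calc θ v * (|F m v - R m v| * |F m' v - R m' v|) ≤ 1 * (|F m v - R m v| * |F m' v - R m' v|) :=
                  mul_le_mul_of_nonneg_right (hθ1 v) a4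
              _ ≤ _ := by rw [one_mul]; exact a3
        _ = (∑ v ∈ Bx d H, F m v + ∑ v ∈ Bx d H, R m v) * (2 * L ^ 3) := by rw [← sum_mul, sum_add_distrib]
        _ ≤ (2 * SG (ip (T n m)) * N + 6 * SG (ip (T n m)) * N) * (2 * L ^ 3) := by
            apply mul_le_mul_of_nonneg_right (add_le_add hFs hRs) (by positivity)
        _ = _ := by ring
    calc w m * w m' * |Y m m'| ≤ w m * 1 * |Y m m'| := by
          apply mul_le_mul_of_nonneg_right _ (abs_nonneg _)
          exact mul_le_mul_of_nonneg_left (hw1 m') (hw0 m).le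
      _ ≤ w m * 1 * (16 * SG (ip (T n m)) * N * L ^ 3) := by
          apply mul_le_mul_of_nonneg_left h1
          rw [mul_one]; exact (hw0 m).le
      _ = (w m * SG (ip (T n m))) * (16 * N * L ^ 3) := by ring
      _ = _ := by rw [hwS, one_mul]
  -- the sum over the pairs
  set G : (Fin (d + 1) → ℤ) → ℝ := fun v => ∑ m ∈ Ms n, c m * w m * (F m v - R m v) with hG
  have hcardM : ((Ms n).card : ℝ) ≤ n := by
    have : (Ms n).card ≤ (Ico 1 n).card := card_filter_le _ _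
    rw [Nat.card_Ico] at this
    exact_mod_cast this.trans (Nat.sub_le _ _)
  have hexpand : ∑ v ∈ Bx d H, θ v * G v ^ 2 = ∑ m ∈ Ms n, ∑ m' ∈ Ms n, (c m * c m') * (w m * w m') * Y m m' := by
    have e1 : ∀ v ∈ Bx d H, θ v * G v ^ 2 =
        ∑ m ∈ Ms n, ∑ m' ∈ Ms n, (c m * c m') * (w m * w m') * (θ v * ((F m v - R m v) * (F m' v - R m' v))) := by
      intro v _
      simp only [hG]
      rw [sq, sum_mul_sum, mul_sum]
      apply sum_congr rfl
      intro m _
      rw [mul_sum]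
      apply sum_congr rfl
      intro m' _
      ring
    rw [sum_congr rfl e1, sum_comm]
    apply sum_congr rfl
    intro m _
    rw [sum_comm]
    apply sum_congr rfl
    intro m' _
    rw [← mul_sum]
  have hXsum : ∑ m ∈ Ms n, ∑ m' ∈ Ms n, w m * w m' * X0 m m' ≤ (n : ℝ) ^ 2 * N := by
    have e1 : ∑ m ∈ Ms n, ∑ m' ∈ Ms n, w m * w m' * X0 m m' = ∑ v ∈ Bx d H, θ v * Q v ^ 2 := by
      have e2 : ∀ v ∈ Bx d H, θ v * Q v ^ 2 = ∑ m ∈ Ms n, ∑ m' ∈ Ms n, w m * w m' * (R m v * R m' v * θ v) := by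
        intro v _
        simp only [hQ]
        rw [sq, sum_mul_sum, mul_sum]
        apply sum_congr rfl
        intro m _
        rw [mul_sum]
        apply sum_congr rfl
        intro m' _
        ring
      symm
      rw [sum_congr rfl e2, sum_comm]
      apply sum_congr rfl
      intro m _
      rw [sum_comm]
      apply sum_congr rfl
      intro m' _
      simp only [hX0]
      rw [← mul_sum]
    rw [e1]
    calc ∑ v ∈ Bx d H, θ v * Q v ^ 2 ≤ ∑ _v ∈ Bx d H, (n : ℝ) ^ 2 := sum_le_sum fun v _ => hθQ v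
      _ = (n : ℝ) ^ 2 * N := by rw [sum_const, nsmul_eq_mul, mul_comm]
  have hcc : ∀ m m', |c m * c m'| ≤ 1 := fun m m' => by
    rw [abs_mul]
    exact mul_le_one₀ (hc m) (abs_nonneg _) (hc m')
  have hww : ∀ m m', 0 ≤ w m * w m' := fun m m' => (mul_pos (hw0 m) (hw0 m')).le
  have hww1 : ∀ m m', w m * w m' ≤ 1 := fun m m' => mul_le_one₀ (hw1 m) (hw0 m').le (hw1 m')
  have habs : ∑ v ∈ Bx d H, θ v * G v ^ 2 ≤ ∑ m ∈ Ms n, ∑ m' ∈ Ms n, w m * w m' * |Y m m'| := by
    rw [hexpand]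
    apply sum_le_sum
    intro m _
    apply sum_le_sum
    intro m' _
    calc (c m * c m') * (w m * w m') * Y m m' ≤ |(c m * c m') * (w m * w m') * Y m m'| := le_abs_self _
      _ = |c m * c m'| * (w m * w m' * |Y m m'|) := by
          rw [abs_mul, abs_mul, abs_of_nonneg (hww m m')]; ring
      _ ≤ 1 * (w m * w m' * |Y m m'|) := mul_le_mul_of_nonneg_right (hcc m m') (mul_nonneg (hww m m') (abs_nonneg _))
      _ = _ := one_mul _
  have hrow : ∀ m ∈ Ms n, ∑ m' ∈ Ms n, w m * w m' * |Y m m'| ≤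
      3 * ρ * ∑ m' ∈ Ms n, w m * w m' * X0 m m' + (Ms n).card * (3 * (N / L)) + 144 * N * L ^ 3 := by
    intro m hm
    rw [← sum_filter_add_sum_filter_not (Ms n) (fun m' => Good n m m')]
    apply add_le_add
    · calc ∑ m' ∈ (Ms n).filter (fun m' => Good n m m'), w m * w m' * |Y m m'|
          ≤ ∑ m' ∈ (Ms n).filter (fun m' => Good n m m'), (3 * ρ * (w m * w m' * X0 m m') + 3 * (N / L)) := by
            apply sum_le_sum
            intro m' hm'
            have a1 := mul_le_mul_of_nonneg_left (hgood m hm m' hm') (hww m m')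
            have a2 : w m * w m' * (3 * (N / L)) ≤ 1 * (3 * (N / L)) :=
              mul_le_mul_of_nonneg_right (hww1 m m') (by positivity)
            linarith
        _ ≤ ∑ m' ∈ Ms n, (3 * ρ * (w m * w m' * X0 m m') + 3 * (N / L)) := by
            apply sum_le_sum_of_subset_of_nonneg (filter_subset _ _)
            intro m' _ _
            have := mul_nonneg (hww m m') (hX00 m m')
            positivity
        _ = _ := by
            rw [sum_add_distrib, ← mul_sum, sum_const, nsmul_eq_mul]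
    · calc ∑ m' ∈ (Ms n).filter (fun m' => ¬ Good n m m'), w m * w m' * |Y m m'|
          ≤ ∑ _m' ∈ (Ms n).filter (fun m' => ¬ Good n m m'), 16 * N * L ^ 3 := sum_le_sum fun m' _ => hbad m hm m'
        _ = (((Ms n).filter (fun m' => ¬ Good n m m')).card : ℝ) * (16 * N * L ^ 3) := by
            rw [sum_const, nsmul_eq_mul]
        _ ≤ 9 * (16 * N * L ^ 3) := by
            apply mul_le_mul_of_nonneg_right _ (by positivity)
            exact_mod_cast (hB1 n m hm).2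
        _ = _ := by ring
  have hε3 : 0 < ε ^ 3 := by positivity
  have htotal : ∑ v ∈ Bx d H, θ v * G v ^ 2 ≤ ε ^ 3 * (n : ℝ) ^ 2 * N := by
    have b1 : ∑ m ∈ Ms n, ∑ m' ∈ Ms n, w m * w m' * |Y m m'| ≤
        3 * ρ * ((n : ℝ) ^ 2 * N) + n * (n * (3 * (N / L))) + n * (144 * N * L ^ 3) := by
      calc ∑ m ∈ Ms n, ∑ m' ∈ Ms n, w m * w m' * |Y m m'| ≤ ∑ m ∈ Ms n,
            (3 * ρ * ∑ m' ∈ Ms n, w m * w m' * X0 m m' + (Ms n).card * (3 * (N / L)) + 144 * N * L ^ 3) :=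
            sum_le_sum hrow
        _ = 3 * ρ * ∑ m ∈ Ms n, ∑ m' ∈ Ms n, w m * w m' * X0 m m' + (Ms n).card * ((Ms n).card * (3 * (N / L))) +
            (Ms n).card * (144 * N * L ^ 3) := by
            rw [sum_add_distrib, sum_add_distrib, ← mul_sum, sum_const, sum_const, nsmul_eq_mul, nsmul_eq_mul]
        _ ≤ _ := by gcongr
    have b2 : 3 * ρ * ((n : ℝ) ^ 2 * N) ≤ ε ^ 3 / 4 * ((n : ℝ) ^ 2 * N) := by
      apply mul_le_mul_of_nonneg_right _ (by positivity)
      linarith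
    have b3 : (n : ℝ) * (n * (3 * (N / L))) ≤ ε ^ 3 / 4 * ((n : ℝ) ^ 2 * N) := by
      have : 3 / L ≤ ε ^ 3 / 4 := by
        rw [div_le_iff₀ hε3] at hLε
        rw [div_le_iff₀ hL0]
        linarith
      calc (n : ℝ) * (n * (3 * (N / L))) = 3 / L * ((n : ℝ) ^ 2 * N) := by ring
        _ ≤ _ := mul_le_mul_of_nonneg_right this (by positivity)
    have b4 : (n : ℝ) * (144 * N * L ^ 3) ≤ ε ^ 3 / 4 * ((n : ℝ) ^ 2 * N) := by
      have c1 : 144 * L ^ 3 ≤ ε ^ 3 / 4 * n := by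
        have c2 : ε ^ 3 / 4 * ((576 / ε ^ 3) * L ^ 3) ≤ ε ^ 3 / 4 * n := mul_le_mul_of_nonneg_left hAn (by positivity)
        have c3 : ε ^ 3 / 4 * ((576 / ε ^ 3) * L ^ 3) = 144 * L ^ 3 := by field_simp; ring
        linarith
      calc (n : ℝ) * (144 * N * L ^ 3) = (n * N) * (144 * L ^ 3) := by ring
        _ ≤ (n * N) * (ε ^ 3 / 4 * n) := mul_le_mul_of_nonneg_left c1 (by positivity)
        _ = _ := by ring
    have b5 : 0 ≤ ε ^ 3 / 4 * ((n : ℝ) ^ 2 * N) := by positivity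
    linarith
  -- Chebyshev
  set Bd := (Bx d H).filter (fun v => ¬ |G v| ≤ ε * (n + Q v)) with hBd
  have hcheb : (Bd.card : ℝ) * (ε ^ 2 * (n : ℝ) ^ 2) ≤ ε ^ 3 * (n : ℝ) ^ 2 * N := by
    calc (Bd.card : ℝ) * (ε ^ 2 * (n : ℝ) ^ 2) = ∑ _v ∈ Bd, ε ^ 2 * (n : ℝ) ^ 2 := by rw [sum_const, nsmul_eq_mul]
      _ ≤ ∑ v ∈ Bd, θ v * G v ^ 2 := by
          apply sum_le_sum
          intro v hv
          rw [hBd, mem_filter, not_le] at hv
          have d1 : ε * (n + Q v) < |G v| := hv.2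
          have d2 : (ε * (n + Q v)) ^ 2 ≤ G v ^ 2 := by
            rw [← sq_abs (G v)]
            apply pow_le_pow_left₀ _ d1.le
            exact mul_nonneg hε.le (hnQ v).le
          have d3 : θ v * (ε * (n + Q v)) ^ 2 = ε ^ 2 * (n : ℝ) ^ 2 := by
            have := (hnQ v).ne'
            simp only [hθ]
            field_simp
          rw [← d3]
          exact mul_le_mul_of_nonneg_left d2 (hθ0 v)
      _ ≤ ∑ v ∈ Bx d H, θ v * G v ^ 2 :=
          sum_le_sum_of_subset_of_nonneg (filter_subset _ _) (fun v _ _ => mul_nonneg (hθ0 v) (sq_nonneg _))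
      _ ≤ _ := htotal
  have hfin : (Bd.card : ℝ) ≤ ε * N := by
    have e1 : (Bd.card : ℝ) * (ε ^ 2 * (n : ℝ) ^ 2) ≤ (ε * N) * (ε ^ 2 * (n : ℝ) ^ 2) := by
      refine hcheb.trans (le_of_eq ?_)
      ring
    exact le_of_mul_le_mul_right e1 (by positivity)
  exact hfin

end Pool.Agent.Helper32K9.QA
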